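import Pool.Agent.TP2.Defs

/-! Coset representatives of a cyclic subgroup and primes in translates (project TP2). -/

open NumberField
open scoped Pointwise BigOperators

namespace Pool.TP2

namespace Reps

section

variable {G : Type} [Group G]

/-- the chosen representative of the coset of `g` -/
noncomputable def rep (σ g : G) : G := Quotient.out (QuotientGroup.mk g : G ⧸ Subgroup.zpowers σ)

lemma rep_mem [Finite G] (σ g : G) : rep σ g ∈ cosetReps σ := by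
  simp only [cosetReps, Set.Finite.mem_toFinset, Set.mem_range]
  exact ⟨_, rfl⟩

lemma rep_eq_mul (σ g : G) : ∃ k : ℤ, rep σ g = g * σ ^ k := by
  obtain ⟨⟨h, hh⟩, h2⟩ := QuotientGroup.mk_out_eq_mul (Subgroup.zpowers σ) g
  obtain ⟨k, hk⟩ := Subgroup.mem_zpowers_iff.1 hh
  refine ⟨k, ?_⟩
  rw [rep, h2, hk]

lemma rep_of_mem [Finite G] {σ s : G} (hs : s ∈ cosetReps σ) : rep σ s = s := by
  simp only [cosetReps, Set.Finite.mem_toFinset, Set.mem_range] at hs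
  obtain ⟨q, rfl⟩ := hs
  unfold rep
  congr 1
  exact QuotientGroup.out_eq' q

lemma rep_eq_iff (σ g g' : G) : rep σ g = rep σ g' ↔ g⁻¹ * g' ∈ Subgroup.zpowers σ := by
  unfold rep
  constructor
  · intro h
    have := congrArg (QuotientGroup.mk (s := Subgroup.zpowers σ)) h
    rw [QuotientGroup.out_eq', QuotientGroup.out_eq'] at this
    exact QuotientGroup.eq.1 this
  · intro h
    rw [QuotientGroup.eq.2 h]

lemma eq_of_mem_zpowers [Finite G] {σ s s' : G} (hs : s ∈ cosetReps σ) (hs' : s' ∈ cosetReps σ)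
    (h : s⁻¹ * s' ∈ Subgroup.zpowers σ) : s = s' := by
  rw [← rep_of_mem hs, ← rep_of_mem hs', rep_eq_iff]
  exact h

lemma zpow_smul_of {X : Type} [MulAction G X] {σ : G} {x : X} (h : σ • x = x) (k : ℤ) :
    σ ^ k • x = x :=
  (MulAction.stabilizer G x).zpow_mem (MulAction.mem_stabilizer_iff.2 h) k

lemma rep_smul {X : Type} [MulAction G X] {σ : G} {x : X} (h : σ • x = x) (g : G) :
    rep σ g • x = g • x := by
  obtain ⟨k, hk⟩ := rep_eq_mul σ g
  rw [hk, mul_smul, zpow_smul_of h]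

lemma rep_mul_zpow (σ g : G) (k : ℤ) : rep σ (g * σ ^ k) = rep σ g := by
  rw [rep_eq_iff]
  have : (g * σ ^ k)⁻¹ * g = σ ^ (-k) := by group
  rw [this]
  exact Subgroup.mem_zpowers_iff.2 ⟨-k, rfl⟩

lemma rep_inv_mul_rep [Finite G] {σ s : G} (hs : s ∈ cosetReps σ) (a : G) :
    rep σ (a⁻¹ * rep σ (a * s)) = s := by
  obtain ⟨k, hk⟩ := rep_eq_mul σ (a * s)
  rw [hk, show a⁻¹ * (a * s * σ ^ k) = s * σ ^ k by group, rep_mul_zpow, rep_of_mem hs]

open Classical in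
/-- translation invariance of products over coset representatives -/
lemma prod_translate [Finite G] {M : Type} [CommMonoid M] (σ a : G) (p : G → Prop) (f : G → M)
    (hp : ∀ s k, p (s * σ ^ (k : ℤ)) ↔ p s) (hf : ∀ s k, f (s * σ ^ (k : ℤ)) = f s) :
    ∏ s ∈ (cosetReps σ).filter (fun s => p (a * s)), f (a * s) =
      ∏ s ∈ (cosetReps σ).filter (fun s => p s), f s := by
  have hp' : ∀ g, p (rep σ g) ↔ p g := by
    intro g
    obtain ⟨k, hk⟩ := rep_eq_mul σ g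
    rw [hk]; exact hp g k
  have hf' : ∀ g, f (rep σ g) = f g := by
    intro g
    obtain ⟨k, hk⟩ := rep_eq_mul σ g
    rw [hk]; exact hf g k
  refine Finset.prod_bij' (fun s _ => rep σ (a * s)) (fun s _ => rep σ (a⁻¹ * s)) ?_ ?_ ?_ ?_ ?_
  · intro s hs
    rw [Finset.mem_filter] at hs ⊢
    exact ⟨rep_mem _ _, (hp' _).2 hs.2⟩
  · intro s hs
    rw [Finset.mem_filter] at hs ⊢
    refine ⟨rep_mem _ _, ?_⟩
    obtain ⟨k, hk⟩ := rep_eq_mul σ (a⁻¹ * s)
    rw [hk, show a * (a⁻¹ * s * σ ^ k) = s * σ ^ k by group]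
    exact (hp s k).2 hs.2
  · intro s hs
    rw [Finset.mem_filter] at hs
    exact rep_inv_mul_rep hs.1 a
  · intro s hs
    rw [Finset.mem_filter] at hs
    have := rep_inv_mul_rep hs.1 a⁻¹
    rwa [inv_inv] at this
  · intro s _
    exact (hf' _).symm

end

section

variable {G X : Type} [Group G] [MulAction G X]

lemma mem_orb_self (σ : G) (θ : X) : θ ∈ orb σ θ := ⟨0, by simp⟩

lemma zpow_smul_mem_orb_iff (σ : G) (θ x : X) (k : ℤ) : σ ^ k • x ∈ orb σ θ ↔ x ∈ orb σ θ := by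
  constructor
  · rintro ⟨i, hi⟩
    refine ⟨-k + i, ?_⟩
    rw [zpow_add, mul_smul, ← hi, ← mul_smul, ← zpow_add]
    simp
  · rintro ⟨i, rfl⟩
    exact ⟨k + i, by rw [zpow_add, mul_smul]⟩

lemma smul_mem_orb_iff (σ : G) (θ x : X) : σ • x ∈ orb σ θ ↔ x ∈ orb σ θ := by
  have := zpow_smul_mem_orb_iff σ θ x 1
  rwa [zpow_one] at this

lemma mem_orbF [Fintype X] (σ : G) (θ x : X) : x ∈ orbF σ θ ↔ x ∈ orb σ θ := by
  simp [orbF]

lemma orb_subset_orbit (σ : G) (θ x : X) (h : x ∈ orb σ θ) : x ∈ MulAction.orbit G θ := by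
  obtain ⟨i, rfl⟩ := h
  exact ⟨σ ^ i, rfl⟩

open Classical in
/-- products over the orbit are invariant -/
lemma prod_orbF [Fintype X] {M : Type} [CommMonoid M] (σ : G) (θ : X) (f : X → M) :
    ∏ x ∈ orbF σ θ, f (σ • x) = ∏ x ∈ orbF σ θ, f x := by
  refine Finset.prod_bij' (fun x _ => σ • x) (fun x _ => σ⁻¹ • x) ?_ ?_ ?_ ?_ ?_
  · intro x hx
    rw [mem_orbF] at hx ⊢
    exact (smul_mem_orb_iff σ θ x).2 hx
  · intro x hx
    rw [mem_orbF] at hx ⊢
    have := smul_mem_orb_iff σ θ (σ⁻¹ • x)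
    rw [smul_inv_smul] at this
    exact this.1 hx
  · intro x _; simp
  · intro x _; simp
  · intro x _; rfl

end

section

variable {K : Type} [Field K] [NumberField K]

lemma smul_intCast (s : K ≃ₐ[ℚ] K) (n : ℤ) : s • (n : 𝓞 K) = (n : 𝓞 K) := by
  have := map_intCast (MulSemiringAction.toRingHom (K ≃ₐ[ℚ] K) (𝓞 K) s) n
  rwa [MulSemiringAction.toRingHom_apply] at this

lemma smul_natCast (s : K ≃ₐ[ℚ] K) (n : ℕ) : s • (n : 𝓞 K) = (n : 𝓞 K) := by
  have := smul_intCast s (n : ℤ)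
  simpa using this

lemma intCast_mem_smul_iff (s : K ≃ₐ[ℚ] K) (Q : Ideal (𝓞 K)) (n : ℤ) :
    (n : 𝓞 K) ∈ s • Q ↔ (n : 𝓞 K) ∈ Q := by
  constructor
  · intro h
    have h2 := Ideal.smul_mem_pointwise_smul s⁻¹ _ (s • Q) h
    rwa [inv_smul_smul, smul_intCast] at h2
  · intro h
    have h2 := Ideal.smul_mem_pointwise_smul s _ Q h
    rwa [smul_intCast] at h2

lemma smul_mem_smul_iff (s : K ≃ₐ[ℚ] K) (Q : Ideal (𝓞 K)) (y : 𝓞 K) :
    s • y ∈ s • Q ↔ y ∈ Q := by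
  constructor
  · intro h
    have h2 := Ideal.smul_mem_pointwise_smul s⁻¹ _ (s • Q) h
    rwa [inv_smul_smul, inv_smul_smul] at h2
  · intro h
    exact Ideal.smul_mem_pointwise_smul s _ Q h

lemma mem_smul_iff (s : K ≃ₐ[ℚ] K) (Q : Ideal (𝓞 K)) (y : 𝓞 K) :
    y ∈ s • Q ↔ s⁻¹ • y ∈ Q := by
  rw [← smul_mem_smul_iff s Q (s⁻¹ • y), smul_inv_smul]

lemma isPrime_smul (s : K ≃ₐ[ℚ] K) {Q : Ideal (𝓞 K)} (hQ : Q.IsPrime) : (s • Q).IsPrime := by
  constructor
  · intro h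
    apply hQ.ne_top
    rw [Ideal.eq_top_iff_one] at h ⊢
    have := (mem_smul_iff s Q 1).1 h
    simpa using this
  · intro x y hxy
    rw [mem_smul_iff] at hxy ⊢
    rw [mem_smul_iff]
    rw [smul_mul'] at hxy
    exact hQ.mem_or_mem hxy

lemma ne_bot_of_mem {P : Ideal (𝓞 K)} {p : ℕ} (hp : p.Prime) (h : (p : 𝓞 K) ∈ P) : P ≠ ⊥ := by
  rintro rfl
  rw [Ideal.mem_bot] at h
  exact hp.ne_zero (by exact_mod_cast h)

omit [NumberField K] in
lemma prime_eq {P : Ideal (𝓞 K)} (hP : P.IsPrime) {p q : ℕ} (hp : p.Prime) (hq : q.Prime)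
    (h1 : (p : 𝓞 K) ∈ P) (h2 : (q : 𝓞 K) ∈ P) : p = q := by
  by_contra hne
  have hc : IsCoprime (p : ℤ) (q : ℤ) := Nat.isCoprime_iff_coprime.2 ((Nat.coprime_primes hp hq).2 hne)
  obtain ⟨u, v, huv⟩ := hc
  apply hP.ne_top
  rw [Ideal.eq_top_iff_one]
  have : (1 : 𝓞 K) = (u : 𝓞 K) * p + (v : 𝓞 K) * q := by
    have := congrArg (fun z : ℤ => (z : 𝓞 K)) huv
    push_cast at this
    exact this.symm
  rw [this]
  exact P.add_mem (P.mul_mem_left _ h1) (P.mul_mem_left _ h2)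

end

end Reps

end Pool.TP2
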