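import Pool.Agent.TP2.Defs
import Pool.Agent.TP.Descent

/-!
Quadratic symbols at primes and multiplicities.
-/

open NumberField Polynomial
open scoped Pointwise BigOperators

namespace Pool.TP2

namespace Sym

variable {K : Type} [Field K] [NumberField K]

theorem charP {p : ℕ} (hp : p.Prime) (P : Ideal (𝓞 K)) (hP : P.IsPrime)
    (hpP : (p : 𝓞 K) ∈ P) : CharP (𝓞 K ⧸ P) p := by
  have h1 : ((p : ℕ) : 𝓞 K ⧸ P) = 0 := by
    rw [← map_natCast (Ideal.Quotient.mk P)]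
    exact Ideal.Quotient.eq_zero_iff_mem.2 hpP
  exact (CharP.charP_iff_prime_eq_zero hp).2 h1

theorem int_mem {p : ℕ} (hp : p.Prime) (P : Ideal (𝓞 K)) (hP : P.IsPrime)
    (hpP : (p : 𝓞 K) ∈ P) (n : ℤ) : (n : 𝓞 K) ∈ P ↔ (n : ZMod p) = 0 := by
  have hcp := charP hp P hP hpP
  rw [← Ideal.Quotient.eq_zero_iff_mem, map_intCast, CharP.intCast_eq_zero_iff _ p,
    ZMod.intCast_zmod_eq_zero_iff_dvd]

theorem sym_eq_ls {p : ℕ} (hp : p.Prime) (P : Ideal (𝓞 K)) (hP : P.IsPrime)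
    (hpP : (p : 𝓞 K) ∈ P) {y : 𝓞 K} {n : ℤ} (hn : y - (n : 𝓞 K) ∈ P) :
    sym P y = Pool.TP.ls p n := by
  have h : (∃ m : ℤ, y - (m : 𝓞 K) ^ 2 ∈ P) ↔ IsSquare (n : ZMod p) := by
    constructor
    · rintro ⟨m, hm⟩
      refine ⟨(m : ZMod p), ?_⟩
      have h1 := P.sub_mem hm hn
      have h2 : (y - (m : 𝓞 K) ^ 2 - (y - (n : 𝓞 K))) = ((n - m ^ 2 : ℤ) : 𝓞 K) := by
        push_cast; ring
      rw [h2, int_mem hp P hP hpP] at h1
      push_cast at h1
      rw [sub_eq_zero] at h1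
      rw [h1, sq]
    · rintro ⟨r, hr⟩
      obtain ⟨m, rfl⟩ := ZMod.intCast_surjective r
      refine ⟨m, ?_⟩
      have h1 : ((n - m ^ 2 : ℤ) : 𝓞 K) ∈ P := by
        rw [int_mem hp P hP hpP]
        push_cast
        rw [hr, sq, sub_self]
      have h2 := P.add_mem hn h1
      have h3 : (y - (n : 𝓞 K) + ((n - m ^ 2 : ℤ) : 𝓞 K)) = y - (m : 𝓞 K) ^ 2 := by
        push_cast; ring
      rwa [h3] at h2
  unfold sym Pool.TP.ls
  by_cases h0 : IsSquare (n : ZMod p)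
  · rw [if_pos (h.2 h0), if_pos h0]
  · rw [if_neg (fun h1 => h0 (h.1 h1)), if_neg h0]

end Sym

section Sym

variable {K : Type} [Field K] [NumberField K]

attribute [local instance] Ideal.Quotient.field in
theorem residue_of_fixed [IsGalois ℚ K] {p : ℕ} (hp : p.Prime) (P : Ideal (𝓞 K))
    (hP : P.IsPrime) (hpP : (p : 𝓞 K) ∈ P) (σ : K ≃ₐ[ℚ] K)
    (hst : MulAction.stabilizer (K ≃ₐ[ℚ] K) P = Subgroup.zpowers σ) (y : 𝓞 K) (hy : σ • y = y) :
    ∃ n : ℤ, y - (n : 𝓞 K) ∈ P := by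
  have : Fact p.Prime := ⟨hp⟩
  have hPne : P ≠ ⊥ := by
    rintro rfl
    rw [Ideal.mem_bot] at hpP
    exact hp.ne_zero (by exact_mod_cast hpP)
  have hmax : P.IsMaximal := hP.isMaximal hPne
  have hcp : CharP (𝓞 K ⧸ P) p := Sym.charP hp P hP hpP
  have hint := Sym.int_mem hp P hP hpP
  have hfinq : Finite (𝓞 K ⧸ P) := inferInstance
  obtain ⟨φ, hφ⟩ := IsArithFrobAt.exists_of_isInvariant ℤ (K ≃ₐ[ℚ] K) P
  have hσ1 : φ ∈ Subgroup.zpowers σ := by
    rw [← hst]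
    exact hφ.mem_stabilizer
  have hσ2 : φ • y = y := by
    have h1 : Subgroup.zpowers σ ≤ MulAction.stabilizer (K ≃ₐ[ℚ] K) y := by
      rw [Subgroup.zpowers_le]
      exact hy
    exact h1 hσ1
  have hcard : Nat.card (ℤ ⧸ P.under ℤ) = p := by
    have h1 : P.under ℤ = Ideal.span {(p : ℤ)} := by
      ext n
      rw [Ideal.under_def, Ideal.mem_comap, Ideal.mem_span_singleton, eq_intCast, hint,
        ZMod.intCast_zmod_eq_zero_iff_dvd]
    rw [h1, Nat.card_congr (Int.quotientSpanNatEquivZMod p).toEquiv, Nat.card_zmod]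
  have h2 : φ • y - y ^ p ∈ P := by
    have := hφ y
    rw [hcard] at this
    exact this
  rw [hσ2, ← Ideal.Quotient.eq, map_pow] at h2
  have h3 := (Subfield.mem_bot_iff_pow_eq_self (𝓞 K ⧸ P) p).2 h2.symm
  obtain ⟨n, hn⟩ := (mem_bot_iff_intCast p (𝓞 K ⧸ P)).1 h3
  refine ⟨n, ?_⟩
  rw [← Ideal.Quotient.eq, map_intCast, hn]

theorem sym_congr (P : Ideal (𝓞 K)) {y z : 𝓞 K} (h : y - z ∈ P) : sym P y = sym P z := by
  have h' : (∃ n : ℤ, y - (n : 𝓞 K) ^ 2 ∈ P) ↔ (∃ n : ℤ, z - (n : 𝓞 K) ^ 2 ∈ P) := by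
    constructor
    · rintro ⟨n, hn⟩
      refine ⟨n, ?_⟩
      have := P.sub_mem hn h
      have h3 : y - (n : 𝓞 K) ^ 2 - (y - z) = z - (n : 𝓞 K) ^ 2 := by ring
      rwa [h3] at this
    · rintro ⟨n, hn⟩
      refine ⟨n, ?_⟩
      have := P.add_mem hn h
      have h3 : z - (n : 𝓞 K) ^ 2 + (y - z) = y - (n : 𝓞 K) ^ 2 := by ring
      rwa [h3] at this
  unfold sym
  by_cases h0 : ∃ n : ℤ, z - (n : 𝓞 K) ^ 2 ∈ P
  · rw [if_pos (h'.2 h0), if_pos h0]
  · rw [if_neg (fun h1 => h0 (h'.1 h1)), if_neg h0]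

theorem sym_sq (P : Ideal (𝓞 K)) (y : 𝓞 K) (hy : ∃ n : ℤ, y - (n : 𝓞 K) ∈ P) :
    sym P (y ^ 2) = 1 := by
  obtain ⟨n, hn⟩ := hy
  unfold sym
  rw [if_pos]
  refine ⟨n, ?_⟩
  have : y ^ 2 - (n : 𝓞 K) ^ 2 = (y + n) * (y - n) := by ring
  rw [this]
  exact P.mul_mem_left _ hn

theorem sym_mul {p : ℕ} (hp : p.Prime) (P : Ideal (𝓞 K)) (hP : P.IsPrime)
    (hpP : (p : 𝓞 K) ∈ P) {y z : 𝓞 K} (hy : y ∉ P) (hz : z ∉ P)
    (hy' : ∃ n : ℤ, y - (n : 𝓞 K) ∈ P) (hz' : ∃ n : ℤ, z - (n : 𝓞 K) ∈ P) :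
    sym P (y * z) = sym P y * sym P z := by
  have : Fact p.Prime := ⟨hp⟩
  obtain ⟨n, hn⟩ := hy'
  obtain ⟨m, hm⟩ := hz'
  have hnm : y * z - ((n * m : ℤ) : 𝓞 K) ∈ P := by
    have h1 : y * z - ((n * m : ℤ) : 𝓞 K) = z * (y - n) + (n : 𝓞 K) * (z - m) := by
      push_cast; ring
    rw [h1]
    exact P.add_mem (P.mul_mem_left _ hn) (P.mul_mem_left _ hm)
  have hn0 : (n : ZMod p) ≠ 0 := by
    rw [Ne, ← Sym.int_mem hp P hP hpP]
    intro h
    apply hy
    have := P.add_mem hn h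
    rwa [sub_add_cancel] at this
  have hm0 : (m : ZMod p) ≠ 0 := by
    rw [Ne, ← Sym.int_mem hp P hP hpP]
    intro h
    apply hz
    have := P.add_mem hm h
    rwa [sub_add_cancel] at this
  rw [Sym.sym_eq_ls hp P hP hpP hnm, Sym.sym_eq_ls hp P hP hpP hn,
    Sym.sym_eq_ls hp P hP hpP hm, Pool.TP.Descent.ls_mul hn0 hm0]

theorem residue_prod {κ : Type} (s : Finset κ) (f : κ → 𝓞 K) (P : Ideal (𝓞 K))
    (hf : ∀ i ∈ s, ∃ n : ℤ, f i - (n : 𝓞 K) ∈ P) : ∃ n : ℤ, (∏ i ∈ s, f i) - (n : 𝓞 K) ∈ P := by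
  classical
  induction s using Finset.induction_on with
  | empty => exact ⟨1, by simp⟩
  | insert a s ha ih =>
    obtain ⟨n, hn⟩ := hf a (Finset.mem_insert_self _ _)
    obtain ⟨m, hm⟩ := ih fun i hi => hf i (Finset.mem_insert_of_mem hi)
    refine ⟨n * m, ?_⟩
    rw [Finset.prod_insert ha]
    have h1 : f a * (∏ i ∈ s, f i) - ((n * m : ℤ) : 𝓞 K) =
        (∏ i ∈ s, f i) * (f a - n) + (n : 𝓞 K) * ((∏ i ∈ s, f i) - m) := by
      push_cast; ring
    rw [h1]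
    exact P.add_mem (P.mul_mem_left _ hn) (P.mul_mem_left _ hm)

theorem sym_prod {p : ℕ} (hp : p.Prime) (P : Ideal (𝓞 K)) (hP : P.IsPrime)
    (hpP : (p : 𝓞 K) ∈ P) {κ : Type} (s : Finset κ) (f : κ → 𝓞 K)
    (hf : ∀ i ∈ s, f i ∉ P ∧ ∃ n : ℤ, f i - (n : 𝓞 K) ∈ P) :
    sym P (∏ i ∈ s, f i) = ∏ i ∈ s, sym P (f i) := by
  classical
  induction s using Finset.induction_on with
  | empty =>
    have := sym_sq P (1 : 𝓞 K) ⟨1, by simp⟩
    simpa using this
  | insert a s ha ih =>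
    have h2 : ∀ i ∈ s, f i ∉ P ∧ ∃ n : ℤ, f i - (n : 𝓞 K) ∈ P :=
      fun i hi => hf i (Finset.mem_insert_of_mem hi)
    have h3 : (∏ i ∈ s, f i) ∉ P := by
      intro h
      obtain ⟨i, hi, hi'⟩ := hP.prod_mem_iff.1 h
      exact (h2 i hi).1 hi'
    rw [Finset.prod_insert ha, Finset.prod_insert ha,
      sym_mul hp P hP hpP (hf a (Finset.mem_insert_self _ _)).1 h3
        (hf a (Finset.mem_insert_self _ _)).2 (residue_prod s f P fun i hi => (h2 i hi).2), ih h2]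

theorem cnt_mul (Q : Ideal (𝓞 K)) {w z : 𝓞 K} (hw : w ≠ 0) (hz : z ≠ 0) :
    cnt Q (w * z) = cnt Q w + cnt Q z := by
  have hw' : Ideal.span {w} ≠ (0 : Ideal (𝓞 K)) := by
    rw [Ne, Ideal.zero_eq_bot, Ideal.span_singleton_eq_bot]; exact hw
  have hz' : Ideal.span {z} ≠ (0 : Ideal (𝓞 K)) := by
    rw [Ne, Ideal.zero_eq_bot, Ideal.span_singleton_eq_bot]; exact hz
  unfold cnt
  rw [← Ideal.span_singleton_mul_span_singleton,
    UniqueFactorizationMonoid.normalizedFactors_mul hw' hz', Multiset.count_add]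

theorem cnt_prod (Q : Ideal (𝓞 K)) {κ : Type} (s : Finset κ) (f : κ → 𝓞 K)
    (hf : ∀ i ∈ s, f i ≠ 0) : cnt Q (∏ i ∈ s, f i) = ∑ i ∈ s, cnt Q (f i) := by
  classical
  induction s using Finset.induction_on with
  | empty =>
    have h1 : Ideal.span {(1 : 𝓞 K)} = 1 := by
      rw [Ideal.span_singleton_one, Ideal.one_eq_top]
    rw [Finset.prod_empty, Finset.sum_empty, cnt, h1,
      UniqueFactorizationMonoid.normalizedFactors_one, Multiset.count_zero]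
  | insert a s ha ih =>
    rw [Finset.prod_insert ha, Finset.sum_insert ha, cnt_mul Q (hf a (Finset.mem_insert_self _ _))
      (Finset.prod_ne_zero_iff.2 fun i hi => hf i (Finset.mem_insert_of_mem hi)),
      ih fun i hi => hf i (Finset.mem_insert_of_mem hi)]

theorem cnt_pos_iff (Q : Ideal (𝓞 K)) (hQ : Q.IsPrime) (hQ0 : Q ≠ ⊥) {w : 𝓞 K} (hw : w ≠ 0) :
    0 < cnt Q w ↔ w ∈ Q := by
  have hw' : Ideal.span {w} ≠ (0 : Ideal (𝓞 K)) := by
    rw [Ne, Ideal.zero_eq_bot, Ideal.span_singleton_eq_bot]; exact hw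
  have hQi : Prime Q := Ideal.prime_of_isPrime hQ0 hQ
  unfold cnt
  rw [Multiset.count_pos, UniqueFactorizationMonoid.mem_normalizedFactors_iff' hw']
  constructor
  · rintro ⟨-, -, h⟩
    have := Ideal.dvd_iff_le.1 h
    exact this (Ideal.mem_span_singleton_self w)
  · intro h
    refine ⟨hQi.irreducible, normalize_eq Q, ?_⟩
    rw [Ideal.dvd_iff_le, Ideal.span_le]
    exact Set.singleton_subset_iff.2 h

theorem cnt_smul (σ : K ≃ₐ[ℚ] K) (Q : Ideal (𝓞 K)) (w : 𝓞 K) :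
    cnt (σ • Q) (σ • w) = cnt Q w := by
  classical
  set e : Ideal (𝓞 K) ≃* Ideal (𝓞 K) := MulDistribMulAction.toMulEquiv (Ideal (𝓞 K)) σ with he
  have he' : ∀ I : Ideal (𝓞 K), e I = σ • I := fun I => rfl
  have hspan : Ideal.span {σ • w} = e (Ideal.span {w}) := by
    rw [he', Ideal.smul_closure, Set.smul_set_singleton]
  by_cases hw : w = 0
  · have h1 : Ideal.span {(0 : 𝓞 K)} = 0 := by
      rw [Ideal.zero_eq_bot, Ideal.span_singleton_eq_bot]
    rw [hw, smul_zero, cnt, cnt, h1, UniqueFactorizationMonoid.normalizedFactors_zero,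
      Multiset.count_zero, Multiset.count_zero]
  · have hw0 : Ideal.span {w} ≠ (0 : Ideal (𝓞 K)) := by
      rw [Ne, Ideal.zero_eq_bot, Ideal.span_singleton_eq_bot]; exact hw
    have hw1 : e (Ideal.span {w}) ≠ (0 : Ideal (𝓞 K)) := by
      intro h
      apply hw0
      rw [← map_zero e] at h
      exact e.injective h
    by_cases hQ : Irreducible Q
    · have hQ' : Irreducible (e Q) := (MulEquiv.irreducible_iff e).2 hQ
      have h1 := UniqueFactorizationMonoid.emultiplicity_eq_count_normalizedFactors hQ hw0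
      have h2 := UniqueFactorizationMonoid.emultiplicity_eq_count_normalizedFactors hQ' hw1
      rw [emultiplicity_map_eq e, h1, normalize_eq, normalize_eq] at h2
      unfold cnt
      rw [hspan, ← he']
      exact_mod_cast h2.symm
    · have hQ' : ¬ Irreducible (e Q) := by
        rw [MulEquiv.irreducible_iff]; exact hQ
      unfold cnt
      rw [hspan, ← he', Multiset.count_eq_zero_of_notMem, Multiset.count_eq_zero_of_notMem]
      · intro h
        exact hQ (UniqueFactorizationMonoid.irreducible_of_normalized_factor _ h)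
      · intro h
        exact hQ' (UniqueFactorizationMonoid.irreducible_of_normalized_factor _ h)

end Sym

end Pool.TP2
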