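import Pool.Agent.TP2.Defs

/-!
Products of signs over disjoint nonempty sets are uniformly distributed.
-/

open NumberField
open scoped Pointwise BigOperators

namespace Pool.TP2

namespace Bits

variable {G X : Type} [Group G] [MulAction G X]

theorem orb_symm_of_mem {σ : G} {θ θ' x : X} (h : x ∈ orb σ θ) (h' : x ∈ orb σ θ') :
    θ' ∈ orb σ θ := by
  obtain ⟨i, hi⟩ := h
  obtain ⟨j, hj⟩ := h'
  refine ⟨-j + i, ?_⟩
  rw [zpow_add, mul_smul, ← hi, hj, ← mul_smul, ← zpow_add]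
  simp

theorem repsTo_nonempty [Finite G] (σ σ' : G) (α : X) (hα : σ' • α = α) (θ : X)
    (hθ : θ ∈ MulAction.orbit G α) : (repsTo σ' α (orb σ θ)).Nonempty := by
  classical
  obtain ⟨g, rfl⟩ := hθ
  refine ⟨Quotient.out (g : G ⧸ Subgroup.zpowers σ'), ?_⟩
  rw [repsTo, Finset.mem_filter]
  refine ⟨?_, 0, ?_⟩
  · rw [cosetReps, Set.Finite.mem_toFinset]
    exact ⟨_, rfl⟩
  · obtain ⟨⟨h, hh⟩, hgh⟩ := QuotientGroup.mk_out_eq_mul (Subgroup.zpowers σ') g
    have hst : h ∈ MulAction.stabilizer G α :=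
      (Subgroup.zpowers_le.2 (show σ' ∈ MulAction.stabilizer G α from hα)) hh
    rw [hgh, zpow_zero, one_smul, mul_smul]
    exact congrArg (g • ·) hst

/-- The homomorphism given by products over sets. -/
def prodHom (ι : Type) (A : ι → Finset G) : (G → ℤˣ) →* (ι → ℤˣ) where
  toFun y := fun θ => ∏ s ∈ A θ, y s
  map_one' := by ext; simp
  map_mul' y z := by ext; simp [Finset.prod_mul_distrib]

omit [Group G] in
theorem prodHom_surjective {ι : Type} [Fintype ι] (A : ι → Finset G)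
    (hA : ∀ θ, (A θ).Nonempty) (hd : ∀ θ θ', θ ≠ θ' → Disjoint (A θ) (A θ')) :
    Function.Surjective (prodHom ι A) := by
  classical
  choose s hs using hA
  intro b
  refine ⟨∏ θ, Pi.mulSingle (s θ) (b θ), ?_⟩
  rw [map_prod]
  have h : ∀ θ, prodHom ι A (Pi.mulSingle (s θ) (b θ)) = Pi.mulSingle θ (b θ) := by
    intro θ
    funext θ'
    change ∏ t ∈ A θ', (Pi.mulSingle (s θ) (b θ) : G → ℤˣ) t =
      (Pi.mulSingle θ (b θ) : ι → ℤˣ) θ'
    by_cases hθ : θ' = θ
    · subst hθ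
      rw [Pi.mulSingle_eq_same, Finset.prod_eq_single (s θ'), Pi.mulSingle_eq_same]
      · intro t _ ht
        exact Pi.mulSingle_eq_of_ne ht _
      · intro h
        exact absurd (hs θ') h
    · rw [Pi.mulSingle_eq_of_ne hθ]
      refine Finset.prod_eq_one fun t ht => Pi.mulSingle_eq_of_ne ?_ _
      rintro rfl
      exact (Finset.disjoint_left.1 (hd θ' θ hθ) ht) (hs θ)
  rw [Finset.prod_congr rfl fun θ _ => h θ]
  exact Finset.univ_prod_mulSingle b

end Bits

open Classical in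
theorem bit_uniform {G X : Type} [Group G] [Fintype G] [MulAction G X] (σ σ' : G) (α : X)
    (hα : σ' • α = α) (R : Finset X) (hR : ∀ θ ∈ R, ∀ θ' ∈ R, θ' ∈ orb σ θ → θ = θ')
    (hRα : ∀ θ ∈ R, θ ∈ MulAction.orbit G α) (a : X → ℤˣ) :
    2 ^ R.card * (Finset.univ.filter fun y : G → ℤˣ =>
        ∀ θ ∈ R, ∏ s ∈ repsTo σ' α (orb σ θ), y s = a θ).card = Fintype.card (G → ℤˣ) := by
  let A : R → Finset G := fun θ => repsTo σ' α (orb σ θ.1)
  have hA : ∀ θ, (A θ).Nonempty := fun θ => Bits.repsTo_nonempty σ σ' α hα θ.1 (hRα θ.1 θ.2)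
  have hd : ∀ θ θ', θ ≠ θ' → Disjoint (A θ) (A θ') := by
    intro θ θ' hne
    rw [Finset.disjoint_left]
    intro s hs hs'
    apply hne
    apply Subtype.ext
    exact hR θ.1 θ.2 θ'.1 θ'.2 (Bits.orb_symm_of_mem (Finset.mem_filter.1 hs).2
      (Finset.mem_filter.1 hs').2)
  have hsurj := Bits.prodHom_surjective A hA hd
  let F := Bits.prodHom (R : Type) A
  have h1 : ∀ b : R → ℤˣ, (Finset.univ.filter fun y : G → ℤˣ => F y = b).card =
      (Finset.univ.filter fun y : G → ℤˣ => F y = fun θ => a θ.1).card := fun b =>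
    MonoidHom.card_fiber_eq_of_mem_range F (hsurj _) (hsurj _)
  have h2 : (Finset.univ.filter fun y : G → ℤˣ =>
      ∀ θ ∈ R, ∏ s ∈ repsTo σ' α (orb σ θ), y s = a θ) =
      (Finset.univ.filter fun y : G → ℤˣ => F y = fun θ => a θ.1) := by
    ext y
    simp only [Finset.mem_filter, Finset.mem_univ, true_and]
    rw [funext_iff]
    constructor
    · intro h θ
      exact h θ.1 θ.2
    · intro h θ hθ
      exact h ⟨θ, hθ⟩
  have h3 : Fintype.card (G → ℤˣ) = ∑ b : R → ℤˣ,
      (Finset.univ.filter fun y : G → ℤˣ => F y = b).card := by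
    rw [← Finset.card_univ]
    exact Finset.card_eq_sum_card_fiberwise fun y _ => Finset.mem_univ _
  rw [h3, Finset.sum_congr rfl fun b _ => h1 b, Finset.sum_const, h2, Finset.card_univ,
    Fintype.card_fun, Fintype.card_coe, Fintype.card_units_int, smul_eq_mul]

end Pool.TP2
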