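import Pool.Agent.TP2.Defs

/-!
The combinatorial core: there is no strategy in the game with signs, several conditions per colour.
-/

open scoped BigOperators

namespace Pool.TP2

namespace Comb

set_option linter.unusedSectionVars false

open Classical

section Part

variable {I Z : Type} [Fintype I] [Fintype Z]

/-- Colours used after `k`. -/
noncomputable def ugt (π : Z → I) {N : ℕ} (S : Finset I) (c : Fin N → Z) (k : Fin N) : Finset I :=
  S ∪ (Finset.univ.filter (fun m => k < m)).image (fun m => π (c m))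

theorem ugt_snoc (π : Z → I) {N : ℕ} (S : Finset I) (c : Fin N → Z) (α : Z) (k : Fin N) :
    ugt π S (Fin.snoc (α := fun _ => Z) c α) k.castSucc = ugt π (insert (π α) S) c k := by
  ext O
  simp only [ugt, Finset.mem_union, Finset.mem_image, Finset.mem_filter, Finset.mem_univ,
    true_and, Finset.mem_insert]
  constructor
  · rintro (h | ⟨m, hm, rfl⟩)
    · exact Or.inl (Or.inr h)
    · induction m using Fin.lastCases with
      | last => left; left; simp
      | cast m =>
        right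
        refine ⟨m, by simpa using hm, by simp⟩
  · rintro ((h | h) | ⟨m, hm, rfl⟩)
    · right
      refine ⟨Fin.last N, Fin.castSucc_lt_last k, by simp [h]⟩
    · exact Or.inl h
    · right
      refine ⟨m.castSucc, by simpa using hm, by simp⟩

theorem ugt_last (π : Z → I) {N : ℕ} (S : Finset I) (c : Fin N → Z) (α : Z) :
    ugt π S (Fin.snoc (α := fun _ => Z) c α) (Fin.last N) = S := by
  ext O
  simp only [ugt, Finset.mem_union, Finset.mem_image, Finset.mem_filter, Finset.mem_univ,
    true_and]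
  constructor
  · rintro (h | ⟨m, hm, rfl⟩)
    · exact h
    · exact absurd hm (not_lt.mpr (Fin.le_last m))
  · exact Or.inl

/-- The partition function. -/
noncomputable def part (π : Z → I) (w : Z → Finset I → ℝ) (N : ℕ) (S : Finset I) : ℝ :=
  ∑ c : Fin N → Z, ∏ k, w (c k) (ugt π S c k)

theorem part_succ (π : Z → I) (w : Z → Finset I → ℝ) (N : ℕ) (S : Finset I) :
    part π w (N + 1) S = ∑ α : Z, w α S * part π w N (insert (π α) S) := by
  unfold part
  rw [← (Fin.snocEquiv (fun _ : Fin (N + 1) => Z)).sum_comp, Fintype.sum_prod_type]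
  refine Finset.sum_congr rfl fun α _ => ?_
  rw [Finset.mul_sum]
  refine Finset.sum_congr rfl fun c _ => ?_
  rw [Fin.prod_univ_castSucc]
  have h : (Fin.snocEquiv (fun _ : Fin (N + 1) => Z)) (α, c) =
      Fin.snoc (α := fun _ => Z) c α := rfl
  rw [h, ugt_last]
  simp only [Fin.snoc_last, Fin.snoc_castSucc, ugt_snoc]
  ring

theorem part_bound (π : Z → I) (w : Z → Finset I → ℝ) (hw0 : ∀ z S, 0 ≤ w z S) (M δ K : ℝ)
    (hδ : 0 ≤ δ) (hM : 0 ≤ M) (hK : 1 ≤ K)
    (hdiag : ∀ S, (∑ z with π z ∈ S, w z S) ≤ δ) (hoff : ∀ S, (∑ z with π z ∉ S, w z S) ≤ M)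
    (N : ℕ) (S : Finset I) :
    part π w N S ≤ K ^ (Fintype.card I - S.card) * (δ + M / K) ^ N := by
  have hK0 : 0 < K := by linarith
  have hlam0 : 0 ≤ δ + M / K := by positivity
  induction N generalizing S with
  | zero =>
    have : part π w 0 S = 1 := by
      unfold part
      simp
    rw [this, pow_zero, mul_one]
    exact one_le_pow₀ hK
  | succ N ih =>
    rw [part_succ, ← Finset.sum_filter_add_sum_filter_not Finset.univ (fun z => π z ∈ S)]
    set Q : ℝ := K ^ (Fintype.card I - S.card) * (δ + M / K) ^ N with hQ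
    have hQ0 : 0 ≤ Q := by positivity
    have h1 : (∑ z with π z ∈ S, w z S * part π w N (insert (π z) S)) ≤ δ * Q := by
      calc (∑ z with π z ∈ S, w z S * part π w N (insert (π z) S))
          ≤ ∑ z with π z ∈ S, w z S * Q := by
            refine Finset.sum_le_sum fun z hz => ?_
            rw [Finset.mem_filter] at hz
            rw [Finset.insert_eq_of_mem hz.2]
            exact mul_le_mul_of_nonneg_left (ih S) (hw0 z S)
        _ = (∑ z with π z ∈ S, w z S) * Q := by rw [Finset.sum_mul]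
        _ ≤ δ * Q := mul_le_mul_of_nonneg_right (hdiag S) hQ0
    have h2 : (∑ z with ¬ π z ∈ S, w z S * part π w N (insert (π z) S)) ≤ M / K * Q := by
      calc (∑ z with ¬ π z ∈ S, w z S * part π w N (insert (π z) S))
          ≤ ∑ z with ¬ π z ∈ S, w z S * (Q / K) := by
            refine Finset.sum_le_sum fun z hz => ?_
            rw [Finset.mem_filter] at hz
            refine mul_le_mul_of_nonneg_left ((ih _).trans (le_of_eq ?_)) (hw0 z S)
            rw [Finset.card_insert_of_notMem hz.2]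
            have hlt : S.card < Fintype.card I := by
              have h5 : (insert (π z) S).card ≤ Fintype.card I := Finset.card_le_univ _
              rw [Finset.card_insert_of_notMem hz.2] at h5
              omega
            have h6 : K ^ (Fintype.card I - S.card) =
                K ^ (Fintype.card I - (S.card + 1)) * K := by
              rw [← pow_succ]; congr 1; omega
            rw [hQ, h6]
            field_simp
        _ = (∑ z with ¬ π z ∈ S, w z S) * (Q / K) := by rw [Finset.sum_mul]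
        _ ≤ M * (Q / K) := mul_le_mul_of_nonneg_right (hoff S) (by positivity)
        _ = M / K * Q := by ring
    calc _ ≤ δ * Q + M / K * Q := add_le_add h1 h2
      _ = _ := by rw [pow_succ, hQ]; ring

/-- Choice of the number of rounds. -/
theorem exists_N (π : Z → I) (w : Z → Finset I → ℝ) (hw0 : ∀ z S, 0 ≤ w z S) (t A : ℝ)
    (ht : 0 < t) (hdiag : ∀ S, (∑ z with π z ∈ S, w z S) < t) :
    ∃ N : ℕ, A * part π w N ∅ < t ^ N := by
  -- a common bound for the diagonal coefficients
  obtain ⟨δ, hδ0, hδt, hδ⟩ : ∃ δ : ℝ, 0 ≤ δ ∧ δ < t ∧ ∀ S, (∑ z with π z ∈ S, w z S) ≤ δ := by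
    obtain ⟨S0, -, hS0⟩ := Finset.exists_max_image (Finset.univ : Finset (Finset I))
      (fun S => ∑ z with π z ∈ S, w z S) ⟨∅, Finset.mem_univ _⟩
    exact ⟨_, Finset.sum_nonneg fun z _ => hw0 z S0, hdiag S0,
      fun S => hS0 S (Finset.mem_univ _)⟩
  obtain ⟨M, hM0, hM⟩ : ∃ M : ℝ, 0 ≤ M ∧ ∀ S, (∑ z with π z ∉ S, w z S) ≤ M := by
    obtain ⟨S0, -, hS0⟩ := Finset.exists_max_image (Finset.univ : Finset (Finset I))
      (fun S => ∑ z with π z ∉ S, w z S) ⟨∅, Finset.mem_univ _⟩
    exact ⟨_, Finset.sum_nonneg fun z _ => hw0 z S0, fun S => hS0 S (Finset.mem_univ _)⟩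
  set K : ℝ := 2 * M / (t - δ) + 1 with hK
  have htδ : 0 < t - δ := by linarith
  have hK1 : 1 ≤ K := by rw [hK]; have : 0 ≤ 2 * M / (t - δ) := by positivity
                         linarith
  have hK0 : 0 < K := by linarith
  have hlam : δ + M / K < t := by
    have h1 : M / K ≤ (t - δ) / 2 := by
      rw [div_le_div_iff₀ hK0 (by norm_num), hK]
      have : (t - δ) * (2 * M / (t - δ) + 1) = 2 * M + (t - δ) := by field_simp
      rw [this]; linarith
    linarith
  have hlam0 : 0 ≤ δ + M / K := by positivity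
  have hlam' : (δ + M / K) / t < 1 := by rwa [div_lt_one ht]
  have hlam0' : 0 ≤ (δ + M / K) / t := by positivity
  set C : ℝ := |A| * K ^ (Fintype.card I) + 1 with hC
  have hC0 : 0 < C := by rw [hC]; positivity
  obtain ⟨N, hN⟩ := exists_pow_lt_of_lt_one (show (0 : ℝ) < 1 / C by positivity) hlam'
  refine ⟨N, ?_⟩
  have hp := part_bound π w hw0 M δ K hδ0 hM0 hK1 hδ hM N ∅
  rw [Finset.card_empty, Nat.sub_zero] at hp
  have hp0 : 0 ≤ part π w N ∅ := by
    unfold part
    exact Finset.sum_nonneg fun c _ => Finset.prod_nonneg fun k _ => hw0 _ _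
  have htN : 0 < t ^ N := pow_pos ht N
  calc A * part π w N ∅ ≤ |A| * part π w N ∅ := mul_le_mul_of_nonneg_right (le_abs_self A) hp0
    _ ≤ |A| * (K ^ (Fintype.card I) * (δ + M / K) ^ N) :=
        mul_le_mul_of_nonneg_left hp (abs_nonneg A)
    _ = (|A| * K ^ (Fintype.card I)) * ((δ + M / K) / t) ^ N * t ^ N := by
        rw [div_pow]; field_simp
    _ ≤ C * ((δ + M / K) / t) ^ N * t ^ N := by
        refine mul_le_mul_of_nonneg_right (mul_le_mul_of_nonneg_right ?_ (pow_nonneg hlam0' _))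
          htN.le
        rw [hC]; linarith
    _ < C * (1 / C) * t ^ N := by
        refine mul_lt_mul_of_pos_right (mul_lt_mul_of_pos_left hN hC0) htN
    _ = t ^ N := by field_simp

end Part

/-! ### Counting sequences -/

theorem seq_count {Z : Type} [Fintype Z] (N : ℕ) : ∀ (A : Finset (Fin N → Z)) (B : Fin N → ℝ),
    (∀ m, 0 ≤ B m) → (∀ m, ∀ x0 ∈ A, ((Finset.univ.filter fun z : Z =>
      ∃ x ∈ A, (∀ j < m, x j = x0 j) ∧ x m = z).card : ℝ) ≤ B m) →
    (A.card : ℝ) ≤ ∏ m, B m := by
  induction N with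
  | zero =>
    intro A B _ _
    rw [Fin.prod_univ_zero]
    have : A.card ≤ 1 := by
      refine (Finset.card_le_univ A).trans ?_
      simp
    exact_mod_cast this
  | succ N ih =>
    intro A B hB h
    set A' : Finset (Fin N → Z) := A.image (fun x => Fin.init x) with hA'
    have h1 : (A'.card : ℝ) ≤ ∏ m : Fin N, B m.castSucc := by
      refine ih A' _ (fun m => hB _) ?_
      intro m x0' hx0'
      rw [hA', Finset.mem_image] at hx0'
      obtain ⟨x0, hx0, rfl⟩ := hx0'
      refine le_trans ?_ (h m.castSucc x0 hx0)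
      norm_cast
      refine Finset.card_le_card ?_
      intro z hz
      rw [Finset.mem_filter] at hz ⊢
      obtain ⟨-, x', hx', hj, hz⟩ := hz
      rw [hA', Finset.mem_image] at hx'
      obtain ⟨x, hx, rfl⟩ := hx'
      refine ⟨Finset.mem_univ _, x, hx, ?_, hz⟩
      intro j hj'
      have hjN : j.1 < N := lt_of_lt_of_le (show j.1 < m.castSucc.1 from hj') m.2.le
      have := hj ⟨j.1, hjN⟩ hj'
      simpa [Fin.init] using this
    have h2 : (A.card : ℝ) ≤ A'.card * B (Fin.last N) := by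
      have hmaps : ∀ x ∈ A, Fin.init x ∈ A' := fun x hx => Finset.mem_image_of_mem _ hx
      rw [Finset.card_eq_sum_card_fiberwise hmaps]
      push_cast
      rw [← nsmul_eq_mul, ← Finset.sum_const]
      refine Finset.sum_le_sum fun a ha => ?_
      rw [hA', Finset.mem_image] at ha
      obtain ⟨x0, hx0, rfl⟩ := ha
      refine le_trans ?_ (h (Fin.last N) x0 hx0)
      norm_cast
      refine Finset.card_le_card_of_injOn (fun x => x (Fin.last N)) ?_ ?_
      · intro x hx
        have hx' := Finset.mem_filter.mp (Finset.mem_coe.mp hx)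
        refine Finset.mem_coe.mpr (Finset.mem_filter.mpr ⟨Finset.mem_univ _, x, hx'.1, ?_, rfl⟩)
        intro j hj
        have := congrFun hx'.2 ⟨j.1, hj⟩
        simpa [Fin.init] using this
      · intro x hx y hy hxy
        have hx' := Finset.mem_filter.mp (Finset.mem_coe.mp hx)
        have hy' := Finset.mem_filter.mp (Finset.mem_coe.mp hy)
        rw [← Fin.snoc_init_self x, ← Fin.snoc_init_self y, hx'.2, hy'.2]
        have hxy' : x (Fin.last N) = y (Fin.last N) := hxy
        rw [hxy']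
    rw [Fin.prod_univ_castSucc]
    exact h2.trans (mul_le_mul_of_nonneg_right h1 (hB _))

/-! ### Counting bits -/

section Bits

variable {I X T Y V : Type} [Fintype X] [Fintype T] [Fintype Y] (π : X → I) (fix : T → X → Prop)
  (R : T → Finset X) (odd : T → X → Prop) (bit : T → T → X → X → Y → ℤˣ)

theorem bit_card (σ σ' : T) (α γ : X)
    (hbit : ∀ a : X → ℤˣ, 2 ^ ((R σ).filter fun θ => π θ = π α).card *
        (Finset.univ.filter fun y : Y => ∀ θ ∈ R σ, π θ = π α → bit σ σ' α θ y = a θ).card =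
      Fintype.card Y) (a : X → ℤˣ) :
    ((Finset.univ.filter fun y : Y =>
      ∀ θ ∈ R σ, π θ = π α → θ ≠ γ → bit σ σ' α θ y = a θ).card : ℝ) ≤
      Fintype.card Y * (1 / 2 : ℝ) ^ ((R σ).filter fun θ => θ ≠ γ ∧ π θ = π α).card := by
  set F : (X → ℤˣ) → Finset Y := fun a =>
    Finset.univ.filter fun y : Y => ∀ θ ∈ R σ, π θ = π α → bit σ σ' α θ y = a θ with hF
  set G : Finset Y := Finset.univ.filter fun y : Y =>
      ∀ θ ∈ R σ, π θ = π α → θ ≠ γ → bit σ σ' α θ y = a θ with hG
  set n := ((R σ).filter fun θ => π θ = π α).card with hn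
  set n' := ((R σ).filter fun θ => θ ≠ γ ∧ π θ = π α).card with hn'
  have hFc : ∀ a, ((F a).card : ℝ) = Fintype.card Y * (1 / 2 : ℝ) ^ n := by
    intro a
    have h := hbit a
    have h' : (2 : ℝ) ^ n * ((F a).card : ℝ) = Fintype.card Y := by exact_mod_cast h
    rw [← h', one_div, inv_pow]
    field_simp
  by_cases hγ : γ ∈ R σ ∧ π γ = π α
  · have hnn : n = n' + 1 := by
      rw [hn, hn']
      have : ((R σ).filter fun θ => π θ = π α) =
          insert γ ((R σ).filter fun θ => θ ≠ γ ∧ π θ = π α) := by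
        ext θ
        simp only [Finset.mem_filter, Finset.mem_insert]
        constructor
        · rintro ⟨h1, h2⟩
          by_cases h : θ = γ
          · exact Or.inl h
          · exact Or.inr ⟨h1, h, h2⟩
        · rintro (rfl | ⟨h1, -, h2⟩)
          · exact hγ
          · exact ⟨h1, h2⟩
      rw [this, Finset.card_insert_of_notMem]
      simp
    have hsub : G ⊆ F (Function.update a γ 1) ∪ F (Function.update a γ (-1)) := by
      intro y hy
      rw [hG, Finset.mem_filter] at hy
      rw [Finset.mem_union, hF]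
      simp only [Finset.mem_filter, Finset.mem_univ, true_and]
      rcases Int.units_eq_one_or (bit σ σ' α γ y) with h | h
      · left
        intro θ hθ hθ'
        by_cases hθγ : θ = γ
        · subst hθγ
          rw [Function.update_self, h]
        · rw [Function.update_of_ne hθγ]
          exact hy.2 θ hθ hθ' hθγ
      · right
        intro θ hθ hθ'
        by_cases hθγ : θ = γ
        · subst hθγ
          rw [Function.update_self, h]
        · rw [Function.update_of_ne hθγ]
          exact hy.2 θ hθ hθ' hθγ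
    calc (G.card : ℝ) ≤ ((F (Function.update a γ 1)).card : ℝ) +
          ((F (Function.update a γ (-1))).card : ℝ) := by
          exact_mod_cast (Finset.card_le_card hsub).trans (Finset.card_union_le _ _)
      _ = Fintype.card Y * (1 / 2 : ℝ) ^ n' := by
          rw [hFc, hFc, hnn, pow_succ]; ring
  · have hnn : n = n' := by
      rw [hn, hn']
      congr 1
      ext θ
      simp only [Finset.mem_filter]
      constructor
      · rintro ⟨h1, h2⟩
        refine ⟨h1, ?_, h2⟩
        rintro rfl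
        exact hγ ⟨h1, h2⟩
      · rintro ⟨h1, -, h2⟩
        exact ⟨h1, h2⟩
    have hsub : G = F a := by
      ext y
      simp only [hG, hF, Finset.mem_filter, Finset.mem_univ, true_and]
      constructor
      · intro h θ hθ hθ'
        refine h θ hθ hθ' ?_
        rintro rfl
        exact hγ ⟨hθ, hθ'⟩
      · intro h θ hθ hθ' _
        exact h θ hθ hθ'
    rw [hsub, hFc, hnn]

/-- `m` is later than `k` and the last index of its colour. -/
def Det {N : ℕ} (c0 : Fin N → X) (k m : Fin N) : Prop :=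
  k < m ∧ ∀ m', m < m' → π (c0 m') ≠ π (c0 m)

/-- The determined conditions. -/
noncomputable def cond [Fintype I] {N : ℕ} (σ : Fin N → T) (c0 : Fin N → X) (k : Fin N) : Finset X :=
  (R (σ k)).filter fun θ => θ ≠ c0 k ∧ π θ ∈ ugt π ∅ c0 k

theorem cond_card [Fintype I] {N : ℕ} (σ : Fin N → T) (c0 : Fin N → X) (k : Fin N) :
    (cond π R σ c0 k).card ≤
      ∑ m with Det π c0 k m, ((R (σ k)).filter fun θ => θ ≠ c0 k ∧ π θ = π (c0 m)).card := by
  refine le_trans (Finset.card_le_card ?_) Finset.card_biUnion_le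
  intro θ hθ
  unfold cond ugt at hθ
  simp only [Finset.empty_union, Finset.mem_image, Finset.mem_filter, Finset.mem_univ,
      true_and] at hθ
  obtain ⟨h1, h2, m1, hm1, hm2⟩ := hθ
  have hne : (Finset.univ.filter (fun m => π (c0 m) = π θ)).Nonempty :=
    ⟨m1, by simp [hm2]⟩
  set m := (Finset.univ.filter (fun m => π (c0 m) = π θ)).max' hne with hm
  have hmem := Finset.max'_mem _ hne
  rw [← hm, Finset.mem_filter] at hmem
  have hle : m1 ≤ m := Finset.le_max' _ _ (by simp [hm2])
  rw [Finset.mem_biUnion]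
  refine ⟨m, Finset.mem_filter.mpr ⟨Finset.mem_univ _, lt_of_lt_of_le hm1 hle, ?_⟩,
    Finset.mem_filter.mpr ⟨h1, h2, hmem.2.symm⟩⟩
  intro m' hm' he
  have he' : π (c0 m') = π θ := by rw [he]; exact hmem.2
  exact absurd (Finset.le_max' (Finset.univ.filter (fun m => π (c0 m) = π θ)) m'
    (by simp [he'])) (not_le.mpr hm')

/-- The conditions determine the bits. -/
theorem det_bit [Fintype I] {N : ℕ}
    (c : Play T Y N → Fin N → X) (v : Play T Y N → V)
    (β : Play T Y N → Fin N → ℤˣ) (χ : Fin N → Fin N → X → X → Play T Y N → ℤˣ)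
    (f : Fin N → X → V → X → Play T Y N → ℤˣ)
    (h1 : ∀ x k, fix (x k).1 (c x k))
    (h2 : ∀ k m α θ x, k < m → fix (x m).1 α →
        χ k m α θ x = bit (x k).1 (x m).1 α θ ((x m).2 k))
    (h3 : ∀ k m α θ x y, m ≤ k → (∀ j ≤ k, x j = y j) → χ k m α θ x = χ k m α θ y)
    (h4 : ∀ k θ v α x y, (∀ j ≤ k, x j = y j) → f k θ v α x = f k θ v α y)
    (h5 : ∀ x k, ∀ θ ∈ R (x k).1, θ ≠ c x k →
        (∏ m with π (c x m) = π θ, χ k m (c x m) θ x) =
          (if odd (x k).1 θ then β x k else 1) * f k θ (v x) (c x k) x)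
    (σ : Fin N → T) (c0 : Fin N → X) (v0 : V) (x x0 : Play T Y N)
    (hx0σ : ∀ k, (x0 k).1 = σ k) (hx0c : c x0 = c0) (hx0v : v x0 = v0)
    (hxσ : ∀ k, (x k).1 = σ k) (hxc : c x = c0) (hxv : v x = v0) (k m : Fin N)
    (hβ : (∃ θ ∈ cond π R σ c0 k, odd (σ k) θ) → β x k = β x0 k)
    (hd : Det π c0 k m) (hj : ∀ j < m, x j = x0 j) (θ : X) (hθ : θ ∈ R (σ k))
    (hπ : π θ = π (c0 m)) (hne : θ ≠ c0 k) :
    bit (σ k) (σ m) (c0 m) θ ((x m).2 k) = bit (σ k) (σ m) (c0 m) θ ((x0 m).2 k) := by
  obtain ⟨hkm, hlast⟩ := hd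
  have hloc : ∀ j ≤ k, x j = x0 j := fun j hjk => hj j (lt_of_le_of_lt hjk hkm)
  have e1 := h5 x k θ (by rw [hxσ]; exact hθ) (by rw [hxc]; exact hne)
  have e2 := h5 x0 k θ (by rw [hx0σ]; exact hθ) (by rw [hx0c]; exact hne)
  rw [hxσ, hxc, hxv] at e1
  rw [hx0σ, hx0c, hx0v] at e2
  have e3 : (if odd (σ k) θ then β x k else 1) = (if odd (σ k) θ then β x0 k else 1) := by
    split_ifs with ho
    · have hfree : ∃ θ ∈ cond π R σ c0 k, odd (σ k) θ := by
        refine ⟨θ, ?_, ho⟩
        unfold cond ugt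
        simp only [Finset.empty_union, Finset.mem_image, Finset.mem_filter, Finset.mem_univ,
          true_and]
        exact ⟨hθ, hne, m, hkm, hπ.symm⟩
      exact hβ hfree
    · rfl
  have e4 : f k θ v0 (c0 k) x = f k θ v0 (c0 k) x0 := h4 k θ v0 (c0 k) x x0 hloc
  have e6 : (∏ m' with π (c0 m') = π θ, χ k m' (c0 m') θ x) =
      ∏ m' with π (c0 m') = π θ, χ k m' (c0 m') θ x0 := by
    rw [e1, e2, e3, e4]
  have hmem : m ∈ Finset.univ.filter (fun m' => π (c0 m') = π θ) := by simp [hπ]
  rw [← Finset.mul_prod_erase _ _ hmem, ← Finset.mul_prod_erase _ _ hmem] at e6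
  have hfx : ∀ m', fix (x m').1 (c0 m') := fun m' => by
    have := h1 x m'
    rwa [hxc] at this
  have hfx0 : ∀ m', fix (x0 m').1 (c0 m') := fun m' => by
    have := h1 x0 m'
    rwa [hx0c] at this
  have e7 : (∏ m' ∈ (Finset.univ.filter (fun m' => π (c0 m') = π θ)).erase m,
      χ k m' (c0 m') θ x) = ∏ m' ∈ (Finset.univ.filter (fun m' => π (c0 m') = π θ)).erase m,
      χ k m' (c0 m') θ x0 := by
    refine Finset.prod_congr rfl fun m' hm' => ?_
    rw [Finset.mem_erase, Finset.mem_filter] at hm'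
    have hlt : m' < m := by
      rcases lt_trichotomy m' m with h | h | h
      · exact h
      · exact absurd h hm'.1
      · exact absurd (hm'.2.2.trans hπ) (hlast m' h)
    by_cases hk : m' ≤ k
    · exact h3 k m' _ _ x x0 hk hloc
    · rw [not_le] at hk
      rw [h2 k m' _ _ x hk (hfx m'), h2 k m' _ _ x0 hk (hfx0 m'), hj m' hlt, hxσ k, hx0σ k]
  rw [e7] at e6
  have e8 := mul_right_cancel e6
  rw [h2 k m _ _ x hkm (hfx m), h2 k m _ _ x0 hkm (hfx0 m), hxσ k, hxσ m, hx0σ k, hx0σ m] at e8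
  exact e8

theorem rows_card {N : ℕ} (A : Finset (Play T Y N)) (m : Fin N) (x0 : Play T Y N) (t : T)
    (g : Fin N → Finset Y) (b : Fin N → ℝ) (hb : ∀ k, ((g k).card : ℝ) ≤ b k)
    (ht : ∀ x ∈ A, (x m).1 = t)
    (hg : ∀ x ∈ A, (∀ j < m, x j = x0 j) → ∀ k, (x m).2 k ∈ g k) :
    ((Finset.univ.filter fun z : T × (Fin N → Y) =>
        ∃ x ∈ A, (∀ j < m, x j = x0 j) ∧ x m = z).card : ℝ) ≤ ∏ k, b k := by
  have hsub : (Finset.univ.filter fun z : T × (Fin N → Y) =>
        ∃ x ∈ A, (∀ j < m, x j = x0 j) ∧ x m = z) ⊆ {t} ×ˢ Fintype.piFinset g := by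
    intro z hz
    rw [Finset.mem_filter] at hz
    obtain ⟨-, x, hx, hj, rfl⟩ := hz
    rw [Finset.mem_product, Finset.mem_singleton, Fintype.mem_piFinset]
    exact ⟨ht x hx, hg x hx hj⟩
  have hc : (({t} ×ˢ Fintype.piFinset g : Finset (T × (Fin N → Y))).card : ℝ) =
      ∏ k, ((g k).card : ℝ) := by
    rw [Finset.card_product, Finset.card_singleton, one_mul, Fintype.card_piFinset]
    push_cast
    rfl
  refine (Nat.cast_le.mpr (Finset.card_le_card hsub)).trans ?_
  rw [hc]
  exact Finset.prod_le_prod (fun k _ => Nat.cast_nonneg _) fun k _ => hb k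

theorem fiber_card [Fintype I] {N : ℕ}
    (hbit : ∀ σ σ' α, fix σ' α → ∀ a : X → ℤˣ,
      2 ^ ((R σ).filter fun θ => π θ = π α).card *
        (Finset.univ.filter fun y : Y => ∀ θ ∈ R σ, π θ = π α → bit σ σ' α θ y = a θ).card =
      Fintype.card Y)
    (c : Play T Y N → Fin N → X) (v : Play T Y N → V)
    (β : Play T Y N → Fin N → ℤˣ) (χ : Fin N → Fin N → X → X → Play T Y N → ℤˣ)
    (f : Fin N → X → V → X → Play T Y N → ℤˣ)
    (h1 : ∀ x k, fix (x k).1 (c x k))
    (h2 : ∀ k m α θ x, k < m → fix (x m).1 α →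
        χ k m α θ x = bit (x k).1 (x m).1 α θ ((x m).2 k))
    (h3 : ∀ k m α θ x y, m ≤ k → (∀ j ≤ k, x j = y j) → χ k m α θ x = χ k m α θ y)
    (h4 : ∀ k θ v α x y, (∀ j ≤ k, x j = y j) → f k θ v α x = f k θ v α y)
    (h5 : ∀ x k, ∀ θ ∈ R (x k).1, θ ≠ c x k →
        (∏ m with π (c x m) = π θ, χ k m (c x m) θ x) =
          (if odd (x k).1 θ then β x k else 1) * f k θ (v x) (c x k) x)
    (σ : Fin N → T) (c0 : Fin N → X) (v0 : V) (A : Finset (Play T Y N))
    (hA : ∀ x ∈ A, (∀ k, (x k).1 = σ k) ∧ c x = c0 ∧ v x = v0)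
    (hβ : ∀ x ∈ A, ∀ y ∈ A, ∀ k, (∃ θ ∈ cond π R σ c0 k, odd (σ k) θ) → β x k = β y k) :
    (A.card : ℝ) ≤
      (Fintype.card Y : ℝ) ^ (N * N) * ∏ k, (1 / 2 : ℝ) ^ (cond π R σ c0 k).card := by
  have key := seq_count N A (fun m => ∏ k, ((Fintype.card Y : ℝ) *
    (if Det π c0 k m then
      (1 / 2 : ℝ) ^ ((R (σ k)).filter fun θ => θ ≠ c0 k ∧ π θ = π (c0 m)).card else 1)))
    (fun m => Finset.prod_nonneg fun k _ => by split_ifs <;> positivity) ?_
  · refine key.trans ?_
    rw [Finset.prod_comm]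
    simp only [Finset.prod_mul_distrib]
    rw [Finset.prod_const, Finset.prod_const, Finset.card_univ, Fintype.card_fin, ← pow_mul]
    refine mul_le_mul_of_nonneg_left ?_ (by positivity)
    refine Finset.prod_le_prod (fun k _ => Finset.prod_nonneg fun m _ => by
      split_ifs <;> positivity) fun k _ => ?_
    rw [Finset.prod_ite, Finset.prod_const_one, mul_one, Finset.prod_pow_eq_pow_sum]
    exact pow_le_pow_of_le_one (by norm_num) (by norm_num) (cond_card π R σ c0 k)
  · intro m x0 hx0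
    obtain ⟨hx0σ, hx0c, hx0v⟩ := hA x0 hx0
    have hrows := rows_card A m x0 (σ m) (fun k => Finset.univ.filter fun y : Y => Det π c0 k m →
      ∀ θ ∈ R (σ k), π θ = π (c0 m) → θ ≠ c0 k →
        bit (σ k) (σ m) (c0 m) θ y = bit (σ k) (σ m) (c0 m) θ ((x0 m).2 k))
        (fun k => (Fintype.card Y : ℝ) * (if Det π c0 k m then
          (1 / 2 : ℝ) ^ ((R (σ k)).filter fun θ => θ ≠ c0 k ∧ π θ = π (c0 m)).card else 1)) ?_
        (fun x hx => (hA x hx).1 m) ?_
    · convert hrows using 2
      congr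
    · intro k
      by_cases hd : Det π c0 k m
      · have hfix : fix (σ m) (c0 m) := by
          have := h1 x0 m
          rwa [hx0σ, hx0c] at this
        have := bit_card π R bit (σ k) (σ m) (c0 m) (c0 k) (hbit _ _ _ hfix)
          (fun θ => bit (σ k) (σ m) (c0 m) θ ((x0 m).2 k))
        rw [if_pos hd]
        refine le_trans (Nat.cast_le.mpr (Finset.card_le_card ?_)) this
        intro y hy
        rw [Finset.mem_filter] at hy ⊢
        exact ⟨hy.1, hy.2 hd⟩
      · rw [if_neg hd, mul_one]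
        exact_mod_cast Finset.card_le_univ _
    · intro x hx hj k
      obtain ⟨hxσ, hxc, hxv⟩ := hA x hx
      rw [Finset.mem_filter]
      refine ⟨Finset.mem_univ _, fun hd θ hθ hπ hne => ?_⟩
      exact det_bit π fix R odd bit c v β χ f h1 h2 h3 h4 h5 σ c0 v0 x x0 hx0σ hx0c hx0v hxσ hxc
        hxv k m (hβ x hx x0 hx0 k) hd hj θ hθ hπ hne

/-- The weight. -/
noncomputable def wt (σ : T) (α : X) (S : Finset I) : ℝ :=
  (if ∃ θ ∈ R σ, θ ≠ α ∧ π θ ∈ S ∧ odd σ θ then (2 : ℝ) else 1) *
    (1 / 2 : ℝ) ^ ((R σ).filter fun θ => θ ≠ α ∧ π θ ∈ S).card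

theorem wt_nonneg (σ : T) (α : X) (S : Finset I) : 0 ≤ wt π R odd σ α S := by
  unfold wt; split_ifs <;> positivity

theorem total [Fintype I] [Fintype V] {N : ℕ}
    (hbit : ∀ σ σ' α, fix σ' α → ∀ a : X → ℤˣ,
      2 ^ ((R σ).filter fun θ => π θ = π α).card *
        (Finset.univ.filter fun y : Y => ∀ θ ∈ R σ, π θ = π α → bit σ σ' α θ y = a θ).card =
      Fintype.card Y)
    (c : Play T Y N → Fin N → X) (v : Play T Y N → V)
    (β : Play T Y N → Fin N → ℤˣ) (χ : Fin N → Fin N → X → X → Play T Y N → ℤˣ)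
    (f : Fin N → X → V → X → Play T Y N → ℤˣ)
    (h1 : ∀ x k, fix (x k).1 (c x k))
    (h2 : ∀ k m α θ x, k < m → fix (x m).1 α →
        χ k m α θ x = bit (x k).1 (x m).1 α θ ((x m).2 k))
    (h3 : ∀ k m α θ x y, m ≤ k → (∀ j ≤ k, x j = y j) → χ k m α θ x = χ k m α θ y)
    (h4 : ∀ k θ v α x y, (∀ j ≤ k, x j = y j) → f k θ v α x = f k θ v α y)
    (h5 : ∀ x k, ∀ θ ∈ R (x k).1, θ ≠ c x k →
        (∏ m with π (c x m) = π θ, χ k m (c x m) θ x) =
          (if odd (x k).1 θ then β x k else 1) * f k θ (v x) (c x k) x) :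
    (Fintype.card (Play T Y N) : ℝ) ≤ (Fintype.card Y : ℝ) ^ (N * N) * (Fintype.card V *
      part (fun z : T × X => π z.2)
        (fun z S => if fix z.1 z.2 then wt π R odd z.1 z.2 S else 0) N ∅) := by
  unfold part
  rw [Finset.mul_sum, Finset.mul_sum]
  set F : Play T Y N → (Fin N → T × X) := fun x k => ((x k).1, c x k) with hF
  have hcard : (Fintype.card (Play T Y N) : ℝ) =
      ∑ p : Fin N → T × X, ((Finset.univ.filter fun x => F x = p).card : ℝ) := by
    rw [← Finset.card_univ, Finset.card_eq_sum_card_fiberwise (f := F) (t := Finset.univ)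
      (fun x _ => Finset.mem_univ _)]
    push_cast
    rfl
  rw [hcard]
  refine Finset.sum_le_sum fun p _ => ?_
  by_cases hp : ∀ k, fix (p k).1 (p k).2
  swap
  · have hempty : (Finset.univ.filter fun x => F x = p) = ∅ := by
      rw [Finset.filter_eq_empty_iff]
      rintro x - rfl
      exact hp fun k => h1 x k
    rw [hempty, Finset.card_empty, Nat.cast_zero]
    refine mul_nonneg (by positivity) (mul_nonneg (by positivity)
      (Finset.prod_nonneg fun k _ => ?_))
    dsimp only
    split_ifs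
    · exact wt_nonneg _ _ _ _ _ _
    · exact le_rfl
  set σ : Fin N → T := fun k => (p k).1 with hσ
  set c0 : Fin N → X := fun k => (p k).2 with hc0
  set Gf : Play T Y N → V × ({k // ∃ θ ∈ cond π R σ c0 k, odd (σ k) θ} → ℤˣ) :=
    fun x => (v x, fun k => β x k.1) with hGf
  have hle : ((Finset.univ.filter fun x => F x = p).card : ℝ) ≤
      ∑ _q : V × ({k // ∃ θ ∈ cond π R σ c0 k, odd (σ k) θ} → ℤˣ),
        (Fintype.card Y : ℝ) ^ (N * N) * ∏ k, (1 / 2 : ℝ) ^ (cond π R σ c0 k).card := by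
    rw [Finset.card_eq_sum_card_fiberwise (f := Gf) (t := Finset.univ)
      (fun x _ => Finset.mem_univ _)]
    push_cast
    refine Finset.sum_le_sum fun q _ => ?_
    refine fiber_card π fix R odd bit hbit c v β χ f h1 h2 h3 h4 h5 σ c0 q.1 _ ?_ ?_
    · intro x hx
      rw [Finset.mem_filter, Finset.mem_filter] at hx
      obtain ⟨⟨-, hx1⟩, hx2⟩ := hx
      refine ⟨fun k => ?_, ?_, ?_⟩
      · exact congrArg Prod.fst (congrFun hx1 k)
      · funext k
        exact congrArg Prod.snd (congrFun hx1 k)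
      · exact congrArg Prod.fst hx2
    · intro x hx y hy k hk
      rw [Finset.mem_filter] at hx hy
      have e1 := congrFun (congrArg Prod.snd hx.2) ⟨k, hk⟩
      have e2 := congrFun (congrArg Prod.snd hy.2) ⟨k, hk⟩
      exact e1.trans e2.symm
  refine hle.trans (le_of_eq ?_)
  rw [Finset.sum_const, Finset.card_univ, Fintype.card_prod, Fintype.card_fun,
    Fintype.card_units_int, nsmul_eq_mul]
  have hprod : ∏ k, (if fix (p k).1 (p k).2 then wt π R odd (p k).1 (p k).2
      (ugt (fun z : T × X => π z.2) ∅ p k) else 0) =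
      2 ^ (Fintype.card {k // ∃ θ ∈ cond π R σ c0 k, odd (σ k) θ}) *
        ∏ k, (1 / 2 : ℝ) ^ (cond π R σ c0 k).card := by
    have e1 : ∀ k, (if fix (p k).1 (p k).2 then wt π R odd (p k).1 (p k).2
      (ugt (fun z : T × X => π z.2) ∅ p k) else 0) =
      (if ∃ θ ∈ cond π R σ c0 k, odd (σ k) θ then (2 : ℝ) else 1) *
        (1 / 2 : ℝ) ^ (cond π R σ c0 k).card := by
      intro k
      rw [if_pos (hp k)]
      have e2 : ugt (fun z : T × X => π z.2) ∅ p k = ugt π ∅ c0 k := rfl
      have e3 : (∃ θ ∈ R (p k).1, θ ≠ (p k).2 ∧ π θ ∈ ugt π ∅ c0 k ∧ odd (p k).1 θ) ↔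
          ∃ θ ∈ cond π R σ c0 k, odd (σ k) θ := by
        unfold cond
        constructor
        · rintro ⟨θ, a1, a2, a3, a4⟩
          exact ⟨θ, Finset.mem_filter.mpr ⟨a1, a2, a3⟩, a4⟩
        · rintro ⟨θ, a1, a2⟩
          rw [Finset.mem_filter] at a1
          exact ⟨θ, a1.1, a1.2.1, a1.2.2, a2⟩
      unfold wt
      rw [e2]
      simp only [e3]
      rfl
    rw [Finset.prod_congr rfl (fun k _ => e1 k), Finset.prod_mul_distrib]
    congr 1
    rw [Finset.prod_ite, Finset.prod_const_one, mul_one, Finset.prod_const, Fintype.card_subtype]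
  rw [hprod]
  push_cast
  ring

end Bits

end Comb

open Comb in
open Classical in
theorem no_strategy {I X T Y V : Type} [Fintype I] [Fintype X] [Fintype T] [Nonempty T]
    [Fintype Y] [Nonempty Y] [Fintype V] (π : X → I) (fix : T → X → Prop) (R : T → Finset X)
    (odd : T → X → Prop) (bit : T → T → X → X → Y → ℤˣ)
    (hbit : ∀ σ σ' α, fix σ' α → ∀ a : X → ℤˣ,
      2 ^ ((R σ).filter fun θ => π θ = π α).card *
        (Finset.univ.filter fun y : Y => ∀ θ ∈ R σ, π θ = π α → bit σ σ' α θ y = a θ).card =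
      Fintype.card Y)
    (hW : ∀ S : Finset I, S.Nonempty →
      ∑ σ : T, ∑ α with fix σ α ∧ π α ∈ S,
        (if ∃ θ ∈ R σ, θ ≠ α ∧ π θ ∈ S ∧ odd σ θ then (2 : ℝ) else 1) *
          (1 / 2 : ℝ) ^ ((R σ).filter fun θ => θ ≠ α ∧ π θ ∈ S).card < Fintype.card T) :
    ∃ N : ℕ, ∀ (c : Play T Y N → Fin N → X) (v : Play T Y N → V)
      (β : Play T Y N → Fin N → ℤˣ) (χ : Fin N → Fin N → X → X → Play T Y N → ℤˣ)
      (f : Fin N → X → V → X → Play T Y N → ℤˣ),
      (∀ x k, fix (x k).1 (c x k)) →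
      (∀ k m α θ x, k < m → fix (x m).1 α →
        χ k m α θ x = bit (x k).1 (x m).1 α θ ((x m).2 k)) →
      (∀ k m α θ x y, m ≤ k → (∀ j ≤ k, x j = y j) → χ k m α θ x = χ k m α θ y) →
      (∀ k θ v α x y, (∀ j ≤ k, x j = y j) → f k θ v α x = f k θ v α y) →
      (∀ x k, ∀ θ ∈ R (x k).1, θ ≠ c x k →
        (∏ m with π (c x m) = π θ, χ k m (c x m) θ x) =
          (if odd (x k).1 θ then β x k else 1) * f k θ (v x) (c x k) x) →
      False := by
  have ht : (0 : ℝ) < Fintype.card T := by exact_mod_cast Fintype.card_pos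
  have hdiag : ∀ S : Finset I, (∑ z : T × X with (fun z : T × X => π z.2) z ∈ S,
      (fun (z : T × X) (S : Finset I) => if fix z.1 z.2 then wt π R odd z.1 z.2 S else 0) z S) <
        Fintype.card T := by
    intro S
    rcases S.eq_empty_or_nonempty with rfl | hS
    · simpa using ht
    · refine lt_of_eq_of_lt ?_ (hW S hS)
      rw [Finset.sum_filter, Fintype.sum_prod_type]
      refine Finset.sum_congr rfl fun σ _ => ?_
      rw [Finset.sum_filter]
      refine Finset.sum_congr rfl fun α _ => ?_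
      dsimp only
      by_cases h1 : fix σ α
      · by_cases h2 : π α ∈ S
        · rw [if_pos h2, if_pos h1, if_pos ⟨h1, h2⟩]
          rfl
        · rw [if_neg h2, if_neg (fun h : fix σ α ∧ π α ∈ S => h2 h.2)]
      · rw [if_neg (fun h : fix σ α ∧ π α ∈ S => h1 h.1)]
        simp [h1]
  obtain ⟨N, hN⟩ := exists_N (fun z : T × X => π z.2)
    (fun (z : T × X) (S : Finset I) => if fix z.1 z.2 then wt π R odd z.1 z.2 S else 0)
    (fun z S => by
      split_ifs
      · exact wt_nonneg _ _ _ _ _ _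
      · exact le_rfl) (Fintype.card T) (Fintype.card V) ht hdiag
  refine ⟨N, ?_⟩
  intro c v β χ f h1 h2 h3 h4 h5
  have htot := total π fix R odd bit hbit c v β χ f h1 h2 h3 h4 h5
  have hcount : (Fintype.card (Play T Y N) : ℝ) =
      (Fintype.card Y : ℝ) ^ (N * N) * (Fintype.card T : ℝ) ^ N := by
    rw [Fintype.card_fun, Fintype.card_prod, Fintype.card_fun, Fintype.card_fin]
    push_cast
    rw [mul_pow, ← pow_mul, mul_comm]
  rw [hcount] at htot
  have hY : (0 : ℝ) < (Fintype.card Y : ℝ) ^ (N * N) := by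
    have : (0 : ℝ) < Fintype.card Y := by exact_mod_cast Fintype.card_pos
    positivity
  have := le_of_mul_le_mul_left htot hY
  linarith

end Pool.TP2
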