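import Pool.Agent.TP2.Sym
import Pool.Agent.TP2.Reps

/-! The descent relations (project TP2). -/

open NumberField
open scoped Pointwise BigOperators

namespace Pool.TP2

namespace Descent

open Reps

section good

variable {K : Type} [Field K] [NumberField K]

lemma good_notMem {D D' : ℤ} (hDD' : D ∣ D') {σ : K ≃ₐ[ℚ] K} {x : PD K} (hx : x.Good D D' σ) :
    (D : 𝓞 K) ∉ x.P := by
  intro h
  apply hx.notMem
  obtain ⟨e, rfl⟩ := hDD'
  push_cast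
  exact x.P.mul_mem_right _ h

lemma smul_ne_bot (s : K ≃ₐ[ℚ] K) {Q : Ideal (𝓞 K)} (hQ : Q ≠ ⊥) : s • Q ≠ ⊥ := by
  intro h
  apply hQ
  rw [eq_bot_iff]
  intro y hy
  have h1 : s • y ∈ s • Q := (smul_mem_smul_iff s Q y).2 hy
  rw [h, Ideal.mem_bot] at h1
  rw [Ideal.mem_bot]
  have h2 := congrArg (fun t => s⁻¹ • t) h1
  simpa using h2

lemma cnt_translate {D D' : ℤ} {σ : K ≃ₐ[ℚ] K} {x : PD K} (hx : x.Good D D' σ)
    (s : K ≃ₐ[ℚ] K) {Q : Ideal (𝓞 K)} (hQ : Q.IsPrime) (hQ0 : Q ≠ ⊥) (hD : (D : 𝓞 K) ∉ Q) :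
    (Q = s • x.P → cnt Q (s • x.π) = 1) ∧ (Q ≠ s • x.P → cnt Q (s • x.π) = 0) := by
  have h1 : cnt Q (s • x.π) = cnt (s⁻¹ • Q) x.π := by
    have := cnt_smul s (s⁻¹ • Q) x.π
    rwa [smul_inv_smul] at this
  have h2 := hx.cnt_eq (s⁻¹ • Q) (isPrime_smul _ hQ) (smul_ne_bot _ hQ0)
    (by rw [intCast_mem_smul_iff]; exact hD)
  rw [h1]
  constructor
  · intro h
    apply h2.1
    rw [h, inv_smul_smul]
  · intro h
    apply h2.2
    intro h3
    apply h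
    rw [← h3, smul_inv_smul]

lemma smul_P {D D' : ℤ} {σ : K ≃ₐ[ℚ] K} {x : PD K} (hx : x.Good D D' σ) : σ • x.P = x.P := by
  have : σ ∈ MulAction.stabilizer (K ≃ₐ[ℚ] K) x.P := by
    rw [hx.stab]; exact Subgroup.mem_zpowers σ
  exact this

lemma mem_zpowers_of {D D' : ℤ} {G : Subgroup (K ≃ₐ[ℚ] K)} {σ : G} {x : PD K}
    (hx : x.Good D D' σ) {s s' : G} (h : (s : K ≃ₐ[ℚ] K) • x.P = (s' : K ≃ₐ[ℚ] K) • x.P) :
    s⁻¹ * s' ∈ Subgroup.zpowers σ := by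
  have h1 : (s : K ≃ₐ[ℚ] K)⁻¹ * (s' : K ≃ₐ[ℚ] K) ∈ MulAction.stabilizer (K ≃ₐ[ℚ] K) x.P := by
    rw [MulAction.mem_stabilizer_iff, mul_smul, ← h, inv_smul_smul]
  rw [hx.stab] at h1
  obtain ⟨k, hk⟩ := Subgroup.mem_zpowers_iff.1 h1
  refine Subgroup.mem_zpowers_iff.2 ⟨k, ?_⟩
  apply Subtype.ext
  simpa using hk

end good

/-- the data of the descent -/
structure Data (K : Type) [Field K] [NumberField K] (G : Subgroup (K ≃ₐ[ℚ] K))
    (Ω : SubMulAction G (𝓞 K)) [Fintype Ω] (N : ℕ) where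
  D : ℤ
  D' : ℤ
  hDD' : D ∣ D'
  hdiff : ∀ θ θ' : Ω, θ ≠ θ' → ∀ Q : Ideal (𝓞 K), Q.IsPrime →
      (θ : 𝓞 K) - (θ' : 𝓞 K) ∈ Q → (D : 𝓞 K) ∈ Q
  σ : Fin N → G
  x : Fin N → PD K
  hx : ∀ n, (x n).Good D D' (σ n)
  hdist : ∀ m n, (x m).p = (x n).p → m = n
  a : 𝓞 K
  b : 𝓞 K
  ha : ∀ s : G, s • a = a
  hb : ∀ s : G, s • b = b
  hab : ∀ Q : Ideal (𝓞 K), Q.IsPrime → a ∈ Q → b ∈ Q → (D : 𝓞 K) ∈ Q
  hne : ∀ θ : Ω, a - b * (θ : 𝓞 K) ≠ 0
  Y : 𝓞 K
  h : (∏ n, ∏ s ∈ cosetReps (σ n), s • (x n).π) * ∏ θ : Ω, (a - b * (θ : 𝓞 K)) = Y ^ 2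

namespace Data

variable {K : Type} [Field K] [NumberField K] {G : Subgroup (K ≃ₐ[ℚ] K)}
  {Ω : SubMulAction G (𝓞 K)} [Fintype Ω] {N : ℕ} (d : Data K G Ω N)

/-- the linear forms -/
noncomputable def z (θ : Ω) : 𝓞 K := d.a - d.b * (θ : 𝓞 K)

lemma smul_z (s : G) (θ : Ω) : s • d.z θ = d.z (s • θ) := by
  unfold z
  rw [smul_sub, smul_mul', d.ha, d.hb, SubMulAction.val_smul]

/-- good primes -/
def good (Q : Ideal (𝓞 K)) : Prop := Q.IsPrime ∧ Q ≠ ⊥ ∧ (d.D : 𝓞 K) ∉ Q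

lemma good_smul (s : K ≃ₐ[ℚ] K) {Q : Ideal (𝓞 K)} (hQ : d.good Q) : d.good (s • Q) :=
  ⟨isPrime_smul s hQ.1, smul_ne_bot s hQ.2.1, by rw [intCast_mem_smul_iff]; exact hQ.2.2⟩

lemma good_P (n : Fin N) : d.good (d.x n).P :=
  ⟨(d.hx n).isPrime, ne_bot_of_mem (d.hx n).prime (d.hx n).mem, good_notMem d.hDD' (d.hx n)⟩

lemma b_notMem {Q : Ideal (𝓞 K)} (hQ : d.good Q) {θ : Ω} (h1 : d.z θ ∈ Q) : d.b ∉ Q := by
  intro hb
  apply hQ.2.2
  refine d.hab Q hQ.1 ?_ hb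
  have : d.a = d.z θ + d.b * (θ : 𝓞 K) := by unfold z; ring
  rw [this]
  exact Q.add_mem h1 (Q.mul_mem_right _ hb)

lemma z_unique {Q : Ideal (𝓞 K)} (hQ : d.good Q) {θ θ' : Ω} (h1 : d.z θ ∈ Q) (h2 : d.z θ' ∈ Q) :
    θ = θ' := by
  by_contra hne
  have h3 : d.b * ((θ : 𝓞 K) - (θ' : 𝓞 K)) ∈ Q := by
    have : d.b * ((θ : 𝓞 K) - (θ' : 𝓞 K)) = d.z θ' - d.z θ := by unfold z; ring
    rw [this]
    exact Q.sub_mem h2 h1
  rcases hQ.1.mem_or_mem h3 with h4 | h4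
  · exact d.b_notMem hQ h1 h4
  · exact hQ.2.2 (d.hdiff θ θ' hne Q hQ.1 h4)

lemma cnt_z_zero {Q : Ideal (𝓞 K)} (hQ : d.good Q) {θ : Ω} (h : d.z θ ∉ Q) : cnt Q (d.z θ) = 0 := by
  by_contra h0
  exact h ((cnt_pos_iff Q hQ.1 hQ.2.1 (d.hne θ)).1 (Nat.pos_of_ne_zero h0))

open Classical in
lemma cnt_pi {Q : Ideal (𝓞 K)} (hQ : d.good Q) (n : Fin N) (s : G) :
    cnt Q (s • (d.x n).π) = if Q = (s : K ≃ₐ[ℚ] K) • (d.x n).P then 1 else 0 := by
  have h := cnt_translate (d.hx n) (s : K ≃ₐ[ℚ] K) hQ.1 hQ.2.1 hQ.2.2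
  rw [Subgroup.smul_def]
  split_ifs with h1
  · exact h.1 h1
  · exact h.2 h1

lemma idx_eq {m n : Fin N} {s s' : K ≃ₐ[ℚ] K} (h : s • (d.x m).P = s' • (d.x n).P) : m = n := by
  apply d.hdist
  have h1 : (((d.x m).p : ℕ) : 𝓞 K) ∈ s • (d.x m).P := by
    have := (intCast_mem_smul_iff s (d.x m).P ((d.x m).p : ℤ)).2 (by simpa using (d.hx m).mem)
    simpa using this
  have h2 : (((d.x n).p : ℕ) : 𝓞 K) ∈ s • (d.x m).P := by
    rw [h]
    have := (intCast_mem_smul_iff s' (d.x n).P ((d.x n).p : ℤ)).2 (by simpa using (d.hx n).mem)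
    simpa using this
  exact prime_eq (isPrime_smul s (d.hx m).isPrime) (d.hx m).prime (d.hx n).prime h1 h2

open Classical in
lemma sum_translate {n : Fin N} {s : G} (f : Fin N → G → ℕ) :
    (∑ m, ∑ t ∈ cosetReps (d.σ m), if (s : K ≃ₐ[ℚ] K) • (d.x n).P = (t : K ≃ₐ[ℚ] K) • (d.x m).P
      then f m t else 0) = f n (rep (d.σ n) s) := by
  rw [Finset.sum_eq_single n]
  · rw [Finset.sum_eq_single (rep (d.σ n) s)]
    · rw [if_pos]
      obtain ⟨k, hk⟩ := rep_eq_mul (d.σ n) s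
      rw [hk]
      push_cast
      rw [mul_smul, zpow_smul_of (smul_P (d.hx n))]
    · intro t ht hts
      rw [if_neg]
      intro h
      apply hts
      have := mem_zpowers_of (d.hx n) h
      rw [← rep_eq_iff] at this
      rw [this, rep_of_mem ht]
    · intro h
      exact absurd (rep_mem _ _) h
  · intro m _ hm
    refine Finset.sum_eq_zero fun t _ => ?_
    rw [if_neg]
    intro h
    exact hm (d.idx_eq h).symm
  · intro h
    exact absurd (Finset.mem_univ n) h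

lemma Y_ne : d.Y ≠ 0 := by
  intro h0
  have h := d.h
  rw [h0] at h
  simp only [ne_eq, OfNat.ofNat_ne_zero, not_false_eq_true, zero_pow, mul_eq_zero] at h
  rcases h with h | h
  · rw [Finset.prod_eq_zero_iff] at h
    obtain ⟨n, _, h⟩ := h
    rw [Finset.prod_eq_zero_iff] at h
    obtain ⟨s, _, h⟩ := h
    exact (d.hx n).ne ((smul_eq_zero_iff_eq s).1 h)
  · rw [Finset.prod_eq_zero_iff] at h
    obtain ⟨θ, _, h⟩ := h
    exact d.hne θ h

lemma pi_ne (n : Fin N) (s : G) : s • (d.x n).π ≠ 0 := fun h =>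
  (d.hx n).ne ((smul_eq_zero_iff_eq s).1 h)

lemma parity (Q : Ideal (𝓞 K)) :
    Even ((∑ n, ∑ s ∈ cosetReps (d.σ n), cnt Q (s • (d.x n).π)) + ∑ θ : Ω, cnt Q (d.z θ)) := by
  have h1 : cnt Q (d.Y ^ 2) = 2 * cnt Q d.Y := by
    rw [pow_two, cnt_mul Q d.Y_ne d.Y_ne, two_mul]
  have h2 : cnt Q (d.Y ^ 2) =
      (∑ n, ∑ s ∈ cosetReps (d.σ n), cnt Q (s • (d.x n).π)) + ∑ θ : Ω, cnt Q (d.z θ) := by
    rw [← d.h, cnt_mul, cnt_prod, cnt_prod]
    · congr 1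
      refine Finset.sum_congr rfl fun n _ => ?_
      rw [cnt_prod]
      exact fun s _ => d.pi_ne n s
    · exact fun θ _ => d.hne θ
    · exact fun n _ => Finset.prod_ne_zero_iff.2 fun s _ => d.pi_ne n s
    · exact Finset.prod_ne_zero_iff.2 fun n _ => Finset.prod_ne_zero_iff.2 fun s _ => d.pi_ne n s
    · exact Finset.prod_ne_zero_iff.2 fun θ _ => d.hne θ
  rw [← h2, h1]
  exact even_two_mul _

lemma sum_z {Q : Ideal (𝓞 K)} (hQ : d.good Q) {θ : Ω} (h : d.z θ ∈ Q) :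
    ∑ θ' : Ω, cnt Q (d.z θ') = cnt Q (d.z θ) := by
  rw [Finset.sum_eq_single θ]
  · intro θ' _ hne
    apply d.cnt_z_zero hQ
    intro h'
    exact hne (d.z_unique hQ h' h)
  · intro h'
    exact absurd (Finset.mem_univ θ) h'

open Classical in
lemma parity_translate (n : Fin N) (s : G) :
    Odd (∑ θ : Ω, cnt ((s : K ≃ₐ[ℚ] K) • (d.x n).P) (d.z θ)) := by
  have hQ := d.good_smul (s : K ≃ₐ[ℚ] K) (d.good_P n)
  have h := d.parity ((s : K ≃ₐ[ℚ] K) • (d.x n).P)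
  have h1 : (∑ m, ∑ t ∈ cosetReps (d.σ m), cnt ((s : K ≃ₐ[ℚ] K) • (d.x n).P) (t • (d.x m).π)) = 1 := by
    have := d.sum_translate (n := n) (s := s) (fun _ _ => 1)
    rw [← this]
    refine Finset.sum_congr rfl fun m _ => Finset.sum_congr rfl fun t _ => ?_
    exact d.cnt_pi hQ m t
  rw [h1, add_comm] at h
  exact (Nat.even_add_one.1 h |> Nat.not_even_iff_odd.1)

lemma exists_c (n : Fin N) : ∃ θ : Ω, d.z θ ∈ (d.x n).P := by
  by_contra hno
  push Not at hno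
  have h := d.parity_translate n 1
  simp only [Subgroup.coe_one, one_smul] at h
  rw [Finset.sum_eq_zero (fun θ _ => d.cnt_z_zero (d.good_P n) (hno θ))] at h
  simp at h

/-- the root selected by the prime -/
noncomputable def c (n : Fin N) : Ω := (d.exists_c n).choose

lemma c_spec (n : Fin N) : d.z (d.c n) ∈ (d.x n).P := (d.exists_c n).choose_spec

lemma c_unique (n : Fin N) {θ : Ω} (h : d.z θ ∈ (d.x n).P) : θ = d.c n :=
  d.z_unique (d.good_P n) h (d.c_spec n)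

lemma c_fixed (n : Fin N) : d.σ n • d.c n = d.c n := by
  apply d.c_unique
  rw [← d.smul_z]
  have h := (smul_mem_smul_iff (d.σ n : K ≃ₐ[ℚ] K) (d.x n).P (d.z (d.c n))).2 (d.c_spec n)
  rw [smul_P (d.hx n)] at h
  exact h

lemma z_mem_translate (n : Fin N) (s : G) (θ : Ω) :
    d.z θ ∈ (s : K ≃ₐ[ℚ] K) • (d.x n).P ↔ θ = s • d.c n := by
  have h1 : d.z θ = (s : K ≃ₐ[ℚ] K) • d.z (s⁻¹ • θ) := by
    have := d.smul_z s (s⁻¹ • θ)
    rw [smul_inv_smul] at this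
    exact this.symm
  rw [h1, smul_mem_smul_iff]
  constructor
  · intro h
    rw [← d.c_unique n h, smul_inv_smul]
  · intro h
    rw [h, inv_smul_smul]
    exact d.c_spec n

open Classical in
/-- the elements which become squares up to units and bad primes -/
noncomputable def w (θ : Ω) : 𝓞 K :=
  d.z θ * ∏ m, ∏ s ∈ (cosetReps (d.σ m)).filter (fun s => s • d.c m = θ), s • (d.x m).π

lemma w_ne (θ : Ω) : d.w θ ≠ 0 :=
  mul_ne_zero (d.hne θ) (Finset.prod_ne_zero_iff.2 fun m _ => Finset.prod_ne_zero_iff.2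
    fun s _ => d.pi_ne m s)

open Classical in
lemma w_even {Q : Ideal (𝓞 K)} (hQ : d.good Q) (θ : Ω) : Even (cnt Q (d.w θ)) := by
  have h1 : cnt Q (d.w θ) = cnt Q (d.z θ) + ∑ m, ∑ t ∈ cosetReps (d.σ m),
      if Q = (t : K ≃ₐ[ℚ] K) • (d.x m).P then (if t • d.c m = θ then 1 else 0) else 0 := by
    unfold w
    rw [cnt_mul, cnt_prod]
    · congr 1
      refine Finset.sum_congr rfl fun m _ => ?_
      rw [cnt_prod, Finset.sum_filter]
      · refine Finset.sum_congr rfl fun t _ => ?_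
        rw [d.cnt_pi hQ]
        split_ifs <;> rfl
      · exact fun s _ => d.pi_ne m s
    · exact fun m _ => Finset.prod_ne_zero_iff.2 fun s _ => d.pi_ne m s
    · exact d.hne θ
    · exact Finset.prod_ne_zero_iff.2 fun m _ => Finset.prod_ne_zero_iff.2 fun s _ => d.pi_ne m s
  rw [h1]
  by_cases hex : ∃ (n : Fin N) (s : G), Q = (s : K ≃ₐ[ℚ] K) • (d.x n).P
  · obtain ⟨n, s, rfl⟩ := hex
    rw [d.sum_translate (n := n) (s := s) (fun m t => if t • d.c m = θ then 1 else 0),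
      rep_smul (d.c_fixed n)]
    have hz := d.z_mem_translate n s θ
    by_cases hθ : θ = s • d.c n
    · rw [if_pos hθ.symm]
      have h2 := d.parity_translate n s
      rw [d.sum_z hQ (hz.2 hθ)] at h2
      exact h2.add_one
    · rw [if_neg (fun h => hθ h.symm), d.cnt_z_zero hQ (fun h => hθ (hz.1 h))]
      simp
  · push Not at hex
    have h2 : (∑ m, ∑ t ∈ cosetReps (d.σ m),
      if Q = (t : K ≃ₐ[ℚ] K) • (d.x m).P then (if t • d.c m = θ then 1 else 0) else 0) = 0 :=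
      Finset.sum_eq_zero fun m _ => Finset.sum_eq_zero fun t _ => if_neg (hex m t)
    rw [h2, add_zero]
    by_cases hz : d.z θ ∈ Q
    · have h3 := d.parity Q
      rw [d.sum_z hQ hz] at h3
      have h4 : (∑ m, ∑ t ∈ cosetReps (d.σ m), cnt Q (t • (d.x m).π)) = 0 :=
        Finset.sum_eq_zero fun m _ => Finset.sum_eq_zero fun t _ => by
          rw [d.cnt_pi hQ, if_neg (hex m t)]
      rwa [h4, zero_add] at h3
    · rw [d.cnt_z_zero hQ hz]; simp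

open Classical in
lemma smul_w (g : G) (θ : Ω) : g • d.w θ = d.w (g • θ) := by
  unfold w
  rw [smul_mul', d.smul_z]
  congr 1
  rw [Finset.smul_prod']
  refine Finset.prod_congr rfl fun m _ => ?_
  rw [Finset.smul_prod']
  have h := prod_translate (d.σ m) g (fun s => s • d.c m = g • θ) (fun s => s • (d.x m).π)
    (fun s k => by rw [mul_smul, zpow_smul_of (d.c_fixed m)])
    (fun s k => by
      rw [mul_smul]
      congr 1
      exact zpow_smul_of (σ := d.σ m) (d.hx m).fixed k)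
  have h2 : (cosetReps (d.σ m)).filter (fun s => (g * s) • d.c m = g • θ) =
      (cosetReps (d.σ m)).filter (fun s => s • d.c m = θ) := by
    refine Finset.filter_congr fun s _ => ?_
    rw [mul_smul]
    exact smul_left_cancel_iff g
  have h3 : ∏ s ∈ (cosetReps (d.σ m)).filter (fun s => s • d.c m = θ), g • s • (d.x m).π =
      ∏ s ∈ (cosetReps (d.σ m)).filter (fun s => (g * s) • d.c m = g • θ), (g * s) • (d.x m).π := by
    rw [h2]
    exact Finset.prod_congr rfl fun s _ => (mul_smul g s _).symm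
  rw [h3]
  convert h

/-- representative of the orbit -/
noncomputable def o (θ : Ω) : Ω := Quotient.out (Quotient.mk (MulAction.orbitRel G Ω) θ)

omit [Fintype Ω] in
lemma o_smul (g : G) (θ : Ω) : o (g • θ) = o θ := by
  unfold o
  congr 1
  apply Quotient.sound
  exact ⟨g, rfl⟩

omit [Fintype Ω] in
lemma exists_g (θ : Ω) : ∃ g : G, g • o θ = θ := by
  have h : MulAction.orbitRel G Ω (o θ) θ := by
    have := Quotient.mk_out (s := MulAction.orbitRel G Ω) θ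
    exact this
  obtain ⟨g, hg⟩ := h
  refine ⟨g⁻¹, ?_⟩
  rw [← hg, inv_smul_smul]

open Classical in
/-- the product of the conjugates of `π_m` selecting the orbit of `θ` -/
noncomputable def A (k m : Fin N) (θ : Ω) : 𝓞 K :=
  ∏ s ∈ repsTo (d.σ m) (d.c m) (orb (d.σ k) θ), s • (d.x m).π

lemma smul_A (k m : Fin N) (θ : Ω) : d.σ k • d.A k m θ = d.A k m θ := by
  classical
  unfold A repsTo
  rw [Finset.smul_prod']
  have h := prod_translate (d.σ m) (d.σ k) (fun s => s • d.c m ∈ orb (d.σ k) θ)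
    (fun s => s • (d.x m).π)
    (fun s k => by rw [mul_smul, zpow_smul_of (d.c_fixed m)])
    (fun s k => by
      rw [mul_smul]
      congr 1
      exact zpow_smul_of (σ := d.σ m) (d.hx m).fixed k)
  have h2 : (cosetReps (d.σ m)).filter (fun s => (d.σ k * s) • d.c m ∈ orb (d.σ k) θ) =
      (cosetReps (d.σ m)).filter (fun s => s • d.c m ∈ orb (d.σ k) θ) := by
    refine Finset.filter_congr fun s _ => ?_
    rw [mul_smul]
    exact smul_mem_orb_iff _ _ _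
  have h3 : ∏ s ∈ (cosetReps (d.σ m)).filter (fun s => s • d.c m ∈ orb (d.σ k) θ),
      d.σ k • s • (d.x m).π =
      ∏ s ∈ (cosetReps (d.σ m)).filter (fun s => (d.σ k * s) • d.c m ∈ orb (d.σ k) θ),
        (d.σ k * s) • (d.x m).π := by
    rw [h2]
    exact Finset.prod_congr rfl fun s _ => (mul_smul _ s _).symm
  convert h3.trans (by convert h)

lemma notMem_A (k m : Fin N) (θ : Ω) (hθ : d.c k ∉ orb (d.σ k) θ) : d.A k m θ ∉ (d.x k).P := by
  classical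
  intro h
  have hP := (d.hx k).isPrime
  unfold A at h
  obtain ⟨s, hs, h⟩ := (Ideal.IsPrime.prod_mem_iff (hp := hP)).1 h
  have h1 := (cnt_pos_iff (d.x k).P hP (d.good_P k).2.1 (d.pi_ne m s)).2 h
  rw [d.cnt_pi (d.good_P k)] at h1
  split_ifs at h1 with h2
  · have h3 : ((1 : G) : K ≃ₐ[ℚ] K) • (d.x k).P = (s : K ≃ₐ[ℚ] K) • (d.x m).P := by
      rw [Subgroup.coe_one, one_smul]; exact h2
    obtain rfl := d.idx_eq h3
    have h4 := mem_zpowers_of (d.hx k) h3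
    rw [inv_one, one_mul] at h4
    obtain ⟨i, rfl⟩ := Subgroup.mem_zpowers_iff.1 h4
    simp only [repsTo, Finset.mem_filter] at hs
    rw [zpow_smul_of (d.c_fixed k)] at hs
    exact hθ hs.2
  · exact absurd h1 (lt_irrefl 0)

lemma prod_w (k : Fin N) (θ : Ω) :
    ∏ θ' ∈ orbF (d.σ k) θ, d.w θ' = (∏ θ' ∈ orbF (d.σ k) θ, d.z θ') * ∏ m, d.A k m θ := by
  classical
  unfold w
  rw [Finset.prod_mul_distrib, Finset.prod_comm]
  congr 1
  refine Finset.prod_congr rfl fun m _ => ?_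
  unfold A repsTo
  rw [← Finset.prod_biUnion]
  · refine Finset.prod_congr ?_ fun _ _ => rfl
    ext s
    simp only [Finset.mem_biUnion, Finset.mem_filter, mem_orbF]
    constructor
    · rintro ⟨θ', h1, h2, h3⟩
      exact ⟨h2, h3 ▸ h1⟩
    · rintro ⟨h1, h2⟩
      exact ⟨_, h2, h1, rfl⟩
  · intro θ' _ θ'' _ hne
    rw [Function.onFun, Finset.disjoint_left]
    intro s h1 h2
    rw [Finset.mem_filter] at h1 h2
    exact hne (h1.2.symm.trans h2.2)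

end Data

open Classical in
theorem descent' (K : Type) [Field K] [NumberField K] [IsGalois ℚ K]
    (G : Subgroup (K ≃ₐ[ℚ] K)) (Ω : SubMulAction G (𝓞 K)) [Fintype Ω] {N : ℕ} (d : Data K G Ω N)
    (U : Finset (𝓞 K))
    (hU : ∀ (θ : Ω) (w : 𝓞 K), w ≠ 0 → (∀ s : G, s • θ = θ → s • w = w) →
      (∀ Q : Ideal (𝓞 K), Q.IsPrime → Q ≠ ⊥ → (d.D : 𝓞 K) ∉ Q → Even (cnt Q w)) →
      ∃ u ∈ U, ∃ g : 𝓞 K, (∀ s : G, s • θ = θ → s • u = u) ∧
        (∀ s : G, s • θ = θ → s • g = g) ∧ w * u = g ^ 2)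
    (hUD : ∀ u ∈ U, ∀ s : G, ∀ Q : Ideal (𝓞 K), Q.IsPrime → s • u ∈ Q → (d.D' : 𝓞 K) ∈ Q) :
    ∃ (u : Ω → 𝓞 K) (β : Fin N → ℤˣ),
      (∀ θ, ∃ v ∈ U, ∃ s : G, u θ = s • v) ∧
      ∀ (k : Fin N) (θ : Ω), θ ≠ d.c k →
        (∏ m, sym (d.x k).P (d.A k m θ)) =
          β k ^ (orbF (d.σ k) θ).card *
            (sym (d.x k).P (∏ θ' ∈ orbF (d.σ k) θ, u θ') *
              sym (d.x k).P (∏ θ' ∈ orbF (d.σ k) θ, ((d.c k : 𝓞 K) - (θ' : 𝓞 K)))) := by
  -- choices on orbit representatives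
  have hex : ∀ θ : Ω, ∃ ug : 𝓞 K × 𝓞 K, ug.1 ∈ U ∧ (∀ s : G, s • θ = θ → s • ug.1 = ug.1) ∧
      (∀ s : G, s • θ = θ → s • ug.2 = ug.2) ∧ d.w θ * ug.1 = ug.2 ^ 2 := by
    intro θ
    obtain ⟨u, hu, g, h1, h2, h3⟩ := hU θ (d.w θ) (d.w_ne θ)
      (fun s hs => by rw [d.smul_w, hs])
      (fun Q h1 h2 h3 => d.w_even ⟨h1, h2, h3⟩ θ)
    exact ⟨(u, g), hu, h1, h2, h3⟩
  choose ug hug1 hug2 hug3 hug4 using hex
  have hg := Data.exists_g (G := G) (Ω := Ω)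
  choose t ht using hg
  set u : Ω → 𝓞 K := fun θ => t θ • (ug (Data.o θ)).1 with hu
  set γ : Ω → 𝓞 K := fun θ => t θ • (ug (Data.o θ)).2 with hγ
  have key : ∀ (s : G) (θ : Ω), ∃ e : G, t (s • θ) = s * t θ * e ∧ e • Data.o θ = Data.o θ := by
    intro s θ
    refine ⟨(s * t θ)⁻¹ * t (s • θ), by group, ?_⟩
    rw [mul_smul]
    have := ht (s • θ)
    rw [Data.o_smul] at this
    rw [this, mul_inv_rev, mul_smul, inv_smul_smul]
    exact inv_smul_eq_iff.2 (ht θ).symm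
  have hus : ∀ (s : G) (θ : Ω), s • u θ = u (s • θ) := by
    intro s θ
    obtain ⟨e, he1, he2⟩ := key s θ
    simp only [hu]
    rw [Data.o_smul, he1, mul_smul, mul_smul, hug2 _ e he2]
  have hγs : ∀ (s : G) (θ : Ω), s • γ θ = γ (s • θ) := by
    intro s θ
    obtain ⟨e, he1, he2⟩ := key s θ
    simp only [hγ]
    rw [Data.o_smul, he1, mul_smul, mul_smul, hug3 _ e he2]
  have hwu : ∀ θ, d.w θ * u θ = γ θ ^ 2 := by
    intro θ
    have h1 := congrArg (fun y => t θ • y) (hug4 (Data.o θ))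
    simp only [smul_mul', smul_pow'] at h1
    rw [d.smul_w, ht] at h1
    exact h1
  refine ⟨u, fun k => sym (d.x k).P d.b, fun θ => ⟨_, hug1 (Data.o θ), t θ, rfl⟩, ?_⟩
  intro k θ hθ
  set P := (d.x k).P with hP
  set o := orbF (d.σ k) θ with ho
  have hPp : P.IsPrime := (d.hx k).isPrime
  have hck : d.c k ∉ orb (d.σ k) θ := by
    rintro ⟨i, hi⟩
    apply hθ
    have := zpow_smul_of (d.c_fixed k) (-i)
    rw [hi, zpow_neg, inv_smul_smul] at this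
    rw [this, hi]
  have hco : ∀ θ' ∈ o, θ' ≠ d.c k := by
    intro θ' h1 h2
    rw [ho, mem_orbF, h2] at h1
    exact hck h1
  -- residues
  have res : ∀ y : 𝓞 K, d.σ k • y = y → ∃ n : ℤ, y - (n : 𝓞 K) ∈ P := by
    intro y hy
    exact residue_of_fixed (d.hx k).prime P hPp (d.hx k).mem (d.σ k : K ≃ₐ[ℚ] K) (d.hx k).stab y hy
  have fixo : ∀ f : Ω → 𝓞 K, (∀ x, d.σ k • f x = f (d.σ k • x)) →
      d.σ k • ∏ x ∈ o, f x = ∏ x ∈ o, f x := by
    intro f hf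
    rw [Finset.smul_prod']
    simp only [hf]
    exact prod_orbF (d.σ k) θ f
  have fz := fixo d.z (fun x => d.smul_z _ x)
  have fu := fixo u (fun x => hus _ x)
  have fγ := fixo γ (fun x => hγs _ x)
  have fc := fixo (fun x => (d.c k : 𝓞 K) - (x : 𝓞 K)) (fun x => by
    rw [smul_sub]
    have h1 : d.σ k • (d.c k : 𝓞 K) = (d.c k : 𝓞 K) := by
      rw [← SubMulAction.val_smul, d.c_fixed]
    rw [h1, SubMulAction.val_smul])
  have mprod : ∀ f : Ω → 𝓞 K, (∀ x ∈ o, f x ∉ P) → ∏ x ∈ o, f x ∉ P := by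
    intro f hf h
    obtain ⟨x, hx, h⟩ := (Ideal.IsPrime.prod_mem_iff (hp := hPp)).1 h
    exact hf x hx h
  have mz : ∏ x ∈ o, d.z x ∉ P := mprod _ fun x hx h => hco x hx (d.c_unique k h)
  have mu : ∏ x ∈ o, u x ∉ P := mprod _ fun x _ h =>
    (d.hx k).notMem (hUD _ (hug1 (Data.o x)) (t x) P hPp h)
  have mA : ∀ m, d.A k m θ ∉ P := fun m => d.notMem_A k m θ hck
  have mAp : ∏ m, d.A k m θ ∉ P := by
    intro h
    obtain ⟨m, _, h⟩ := (Ideal.IsPrime.prod_mem_iff (hp := hPp)).1 h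
    exact mA m h
  have mc : ∏ x ∈ o, ((d.c k : 𝓞 K) - (x : 𝓞 K)) ∉ P := mprod _ fun x hx h =>
    good_notMem d.hDD' (d.hx k) (d.hdiff (d.c k) x (hco x hx).symm P hPp h)
  have mb : d.b ∉ P := d.b_notMem (d.good_P k) (d.c_spec k)
  have rA : ∀ m, ∃ n : ℤ, d.A k m θ - (n : 𝓞 K) ∈ P := fun m => res _ (d.smul_A k m θ)
  have rAp : ∃ n : ℤ, (∏ m, d.A k m θ) - (n : 𝓞 K) ∈ P := residue_prod _ _ P fun m _ => rA m
  have rz := res _ fz
  have ru := res _ fu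
  have rc := res _ fc
  have rb := res _ (d.hb (d.σ k))
  have hpr := (d.hx k).prime
  have hmem := (d.hx k).mem
  -- the product relation
  have hprod : ((∏ x ∈ o, d.z x) * ∏ m, d.A k m θ) * ∏ x ∈ o, u x = (∏ x ∈ o, γ x) ^ 2 := by
    rw [← d.prod_w k θ, ← Finset.prod_mul_distrib, ← Finset.prod_pow]
    exact Finset.prod_congr rfl fun x _ => hwu x
  have hsym := congrArg (sym P) hprod
  rw [sym_sq P _ (res _ fγ)] at hsym
  have mzA : (∏ x ∈ o, d.z x) * ∏ m, d.A k m θ ∉ P := fun h => (hPp.mem_or_mem h).elim mz mAp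
  have rzA : ∃ n : ℤ, ((∏ x ∈ o, d.z x) * ∏ m, d.A k m θ) - (n : 𝓞 K) ∈ P := by
    obtain ⟨n1, h1⟩ := rz
    obtain ⟨n2, h2⟩ := rAp
    refine ⟨n1 * n2, ?_⟩
    have : ((∏ x ∈ o, d.z x) * ∏ m, d.A k m θ) - ((n1 * n2 : ℤ) : 𝓞 K) =
        (∏ m, d.A k m θ) * ((∏ x ∈ o, d.z x) - (n1 : 𝓞 K)) +
          (n1 : 𝓞 K) * ((∏ m, d.A k m θ) - (n2 : 𝓞 K)) := by push_cast; ring
    rw [this]
    exact P.add_mem (P.mul_mem_left _ h1) (P.mul_mem_left _ h2)
  rw [sym_mul hpr P hPp hmem mzA mu rzA ru, sym_mul hpr P hPp hmem mz mAp rz rAp,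
    sym_prod hpr P hPp hmem _ _ (fun m _ => ⟨mA m, rA m⟩)] at hsym
  -- the linear forms
  have hz : sym P (∏ x ∈ o, d.z x) = sym P d.b ^ o.card *
      sym P (∏ x ∈ o, ((d.c k : 𝓞 K) - (x : 𝓞 K))) := by
    have h1 : sym P (∏ x ∈ o, d.z x) = sym P (∏ x ∈ o, (d.b * ((d.c k : 𝓞 K) - (x : 𝓞 K)))) := by
      apply sym_congr
      have h2 : ∀ s : Finset Ω, (∏ x ∈ s, d.z x) - ∏ x ∈ s, (d.b * ((d.c k : 𝓞 K) - (x : 𝓞 K))) ∈ P := by
        intro s
        induction s using Finset.induction_on with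
        | empty => simp
        | insert x s hx ih =>
          rw [Finset.prod_insert hx, Finset.prod_insert hx]
          have h3 : d.z x - d.b * ((d.c k : 𝓞 K) - (x : 𝓞 K)) = d.z (d.c k) := by
            unfold Data.z; ring
          have h4 : d.z x * (∏ y ∈ s, d.z y) - d.b * ((d.c k : 𝓞 K) - (x : 𝓞 K)) *
              ∏ y ∈ s, (d.b * ((d.c k : 𝓞 K) - (y : 𝓞 K))) =
              (∏ y ∈ s, d.z y) * (d.z x - d.b * ((d.c k : 𝓞 K) - (x : 𝓞 K))) +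
              (d.b * ((d.c k : 𝓞 K) - (x : 𝓞 K))) *
                ((∏ y ∈ s, d.z y) - ∏ y ∈ s, (d.b * ((d.c k : 𝓞 K) - (y : 𝓞 K)))) := by ring
          rw [h4, h3]
          exact P.add_mem (P.mul_mem_left _ (d.c_spec k)) (P.mul_mem_left _ ih)
      exact h2 o
    rw [h1, Finset.prod_mul_distrib, Finset.prod_const]
    have hbp : ∀ n : ℕ, sym P (d.b ^ n) = sym P d.b ^ n := by
      intro n
      have := sym_prod hpr P hPp hmem (Finset.univ : Finset (Fin n)) (fun _ => d.b) (fun _ _ => ⟨mb, rb⟩)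
      simpa using this
    rw [sym_mul hpr P hPp hmem (fun h => mb (hPp.mem_of_pow_mem _ h)) mc ?_ rc, hbp]
    have := residue_prod (Finset.univ : Finset (Fin o.card)) (fun _ => d.b) P (fun _ _ => rb)
    simpa using this
  rw [hz] at hsym
  have h2 : ∀ e : ℤˣ, e * e = 1 := Int.units_mul_self
  generalize hX : sym P d.b ^ o.card = X at *
  generalize hY : sym P (∏ x ∈ o, ((d.c k : 𝓞 K) - (x : 𝓞 K))) = Y at *
  generalize hZ : ∏ m, sym P (d.A k m θ) = Z at *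
  generalize hW : sym P (∏ x ∈ o, u x) = W at *
  have h3 : Z * (X * (W * Y)) = 1 := by
    rw [← hsym]
    ac_rfl
  calc Z = Z * ((X * (W * Y)) * (X * (W * Y))) := by rw [h2, mul_one]
    _ = (Z * (X * (W * Y))) * (X * (W * Y)) := (mul_assoc Z _ _).symm
    _ = X * (W * Y) := by rw [h3, one_mul]

end Descent

open Classical in
theorem descent (K : Type) [Field K] [NumberField K] [IsGalois ℚ K]
    (G : Subgroup (K ≃ₐ[ℚ] K)) (Ω : SubMulAction G (𝓞 K)) [Fintype Ω] (D D' : ℤ)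
    (hDD' : D ∣ D')
    (hdiff : ∀ θ θ' : Ω, θ ≠ θ' → ∀ Q : Ideal (𝓞 K), Q.IsPrime →
      (θ : 𝓞 K) - (θ' : 𝓞 K) ∈ Q → (D : 𝓞 K) ∈ Q)
    (U : Finset (𝓞 K))
    (hU : ∀ (θ : Ω) (w : 𝓞 K), w ≠ 0 → (∀ s : G, s • θ = θ → s • w = w) →
      (∀ Q : Ideal (𝓞 K), Q.IsPrime → Q ≠ ⊥ → (D : 𝓞 K) ∉ Q → Even (cnt Q w)) →
      ∃ u ∈ U, ∃ g : 𝓞 K, (∀ s : G, s • θ = θ → s • u = u) ∧
        (∀ s : G, s • θ = θ → s • g = g) ∧ w * u = g ^ 2)
    (hUD : ∀ u ∈ U, ∀ s : G, ∀ Q : Ideal (𝓞 K), Q.IsPrime → s • u ∈ Q → (D' : 𝓞 K) ∈ Q)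
    {N : ℕ} (σ : Fin N → G) (x : Fin N → PD K) (hx : ∀ n, (x n).Good D D' (σ n))
    (hdist : ∀ m n, (x m).p = (x n).p → m = n)
    (a b : 𝓞 K) (ha : ∀ s : G, s • a = a) (hb : ∀ s : G, s • b = b)
    (hab : ∀ Q : Ideal (𝓞 K), Q.IsPrime → a ∈ Q → b ∈ Q → (D : 𝓞 K) ∈ Q)
    (hne : ∀ θ : Ω, a - b * (θ : 𝓞 K) ≠ 0) (Y : 𝓞 K)
    (h : (∏ n, ∏ s ∈ cosetReps (σ n), s • (x n).π) * ∏ θ : Ω, (a - b * (θ : 𝓞 K)) = Y ^ 2) :
    ∃ (c : Fin N → Ω) (u : Ω → 𝓞 K) (β : Fin N → ℤˣ),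
      (∀ θ, ∃ v ∈ U, ∃ s : G, u θ = s • v) ∧ (∀ n, σ n • c n = c n) ∧
      ∀ (k : Fin N) (θ : Ω), θ ≠ c k →
        (∏ m with c m ∈ MulAction.orbit G θ,
            sym (x k).P (∏ s ∈ repsTo (σ m) (c m) (orb (σ k) θ), s • (x m).π)) =
          β k ^ (orbF (σ k) θ).card *
            (sym (x k).P (∏ θ' ∈ orbF (σ k) θ, u θ') *
              sym (x k).P (∏ θ' ∈ orbF (σ k) θ, ((c k : 𝓞 K) - (θ' : 𝓞 K)))) := by
  let d : Descent.Data K G Ω N := ⟨D, D', hDD', hdiff, σ, x, hx, hdist, a, b, ha, hb, hab, hne, Y, h⟩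
  obtain ⟨u, β, h1, h2⟩ := Descent.descent' K G Ω d U hU hUD
  refine ⟨d.c, u, β, h1, d.c_fixed, fun k θ hθ => ?_⟩
  have h3 := h2 k θ hθ
  refine Eq.trans ?_ h3
  rw [Finset.prod_filter]
  refine Finset.prod_congr rfl fun m _ => ?_
  split_ifs with hm
  · rfl
  · have hA : d.A k m θ = 1 := by
      unfold Descent.Data.A repsTo
      refine Finset.prod_eq_one fun s hs => ?_
      exfalso
      rw [Finset.mem_filter] at hs
      apply hm
      have h4 := Reps.orb_subset_orbit _ _ _ hs.2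
      obtain ⟨g, hg⟩ := h4
      refine ⟨s⁻¹ * g, ?_⟩
      simp only at hg ⊢
      rw [mul_smul, hg, inv_smul_smul]
    rw [hA]
    unfold sym
    rw [if_pos ⟨1, by simp⟩]

end Pool.TP2
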