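import Pool.Agent.TP2.Defs
import Pool.Agent.TP.DegOne

/-!
Generators of prime ideals up to bad primes, fixed by the decomposition group.
-/

open NumberField
open scoped Pointwise BigOperators

namespace Pool.TP2

namespace Gen

/-- Every nonzero ideal becomes principal after multiplication by an ideal containing a fixed
nonzero integer. -/
theorem exists_cofactor (E : Type) [Field E] [NumberField E] :
    ∃ D : ℤ, D ≠ 0 ∧ ∀ I : Ideal (𝓞 E), I ≠ ⊥ → ∃ J : Ideal (𝓞 E), J ≠ ⊥ ∧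
      (∃ x : 𝓞 E, x ≠ 0 ∧ I * J = Ideal.span {x}) ∧ (D : 𝓞 E) ∈ J := by
  classical
  choose J hJ using fun c : ClassGroup (𝓞 E) => ClassGroup.mk0_surjective (R := 𝓞 E) c
  have hJ0 : ∀ c, (J c : Ideal (𝓞 E)) ≠ ⊥ := fun c => nonZeroDivisors.coe_ne_zero (J c)
  refine ⟨∏ c, (Ideal.absNorm (J c : Ideal (𝓞 E)) : ℤ), ?_, ?_⟩
  · rw [Finset.prod_ne_zero_iff]
    intro c _ h
    have h1 : Ideal.absNorm (J c : Ideal (𝓞 E)) = 0 := by exact_mod_cast h
    rw [Ideal.absNorm_eq_zero_iff] at h1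
    exact hJ0 c h1
  · intro I hI
    have hI' : I ∈ nonZeroDivisors (Ideal (𝓞 E)) := mem_nonZeroDivisors_of_ne_zero hI
    let c : ClassGroup (𝓞 E) := (ClassGroup.mk0 ⟨I, hI'⟩)⁻¹
    have hIJ : I * (J c : Ideal (𝓞 E)) ≠ ⊥ := mul_ne_zero hI (hJ0 c)
    have h1 : ClassGroup.mk0 (⟨I, hI'⟩ * J c) = 1 := by
      rw [map_mul, hJ c]
      exact mul_inv_cancel _
    have h2 : Submodule.IsPrincipal (I * (J c : Ideal (𝓞 E))) := by
      have h3 := (ClassGroup.mk0_eq_one_iff (I := I * (J c : Ideal (𝓞 E)))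
        (mem_nonZeroDivisors_of_ne_zero hIJ)).1
      apply h3
      rw [← h1]
      congr 1
    obtain ⟨x, hx⟩ := h2.principal
    refine ⟨J c, hJ0 c, ⟨x, ?_, hx⟩, ?_⟩
    · rintro rfl
      apply hIJ
      rw [hx]
      simp
    · have h4 : (Ideal.absNorm (J c : Ideal (𝓞 E)) : 𝓞 E) ∈ (J c : Ideal (𝓞 E)) :=
        Ideal.absNorm_mem _
      push_cast
      rw [← Finset.mul_prod_erase Finset.univ _ (Finset.mem_univ c)]
      exact Ideal.mul_mem_right _ _ h4

open Pool.TP.DegOne in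
/-- The prime is the extension of the prime below. -/
theorem map_under_count (K : Type) [Field K] [NumberField K] [IsGalois ℚ K] (σ : K ≃ₐ[ℚ] K)
    (P : Ideal (𝓞 K)) (hP : P.IsPrime) (hP0 : P ≠ ⊥) (hin : P.inertia (K ≃ₐ[ℚ] K) = ⊥)
    (hst : MulAction.stabilizer (K ≃ₐ[ℚ] K) P = Subgroup.zpowers σ) (Q : Ideal (𝓞 K))
    (hQ : Q.IsPrime) (_ : Q ≠ ⊥) :
    (Q = P → (UniqueFactorizationMonoid.normalizedFactors
      ((P.under (𝓞 (IntermediateField.fixedField (Subgroup.zpowers σ)))).map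
        (algebraMap (𝓞 (IntermediateField.fixedField (Subgroup.zpowers σ))) (𝓞 K)))).count Q = 1) ∧
    (Q ≠ P → (UniqueFactorizationMonoid.normalizedFactors
      ((P.under (𝓞 (IntermediateField.fixedField (Subgroup.zpowers σ)))).map
        (algebraMap (𝓞 (IntermediateField.fixedField (Subgroup.zpowers σ))) (𝓞 K)))).count Q = 0) := by
  classical
  have hG := galE K (Subgroup.zpowers σ)
  let E := IntermediateField.fixedField (Subgroup.zpowers σ)
  let q : Ideal (𝓞 E) := P.under (𝓞 E)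
  change (Q = P → (UniqueFactorizationMonoid.normalizedFactors
      (q.map (algebraMap (𝓞 E) (𝓞 K)))).count Q = 1) ∧
    (Q ≠ P → (UniqueFactorizationMonoid.normalizedFactors
      (q.map (algebraMap (𝓞 E) (𝓞 K)))).count Q = 0)
  have hqp : q.IsPrime := Ideal.comap_isPrime _ _
  have hlo : P.LiesOver q := ⟨rfl⟩
  have hq0 : q ≠ ⊥ := by
    intro h
    apply hP0
    exact Ideal.eq_bot_of_comap_eq_bot (R := 𝓞 E) h
  have hqm : q.IsMaximal := hqp.isMaximal hq0
  have := finite_quot E q hq0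
  have := perfect q
  have hmap : q.map (algebraMap (𝓞 E) (𝓞 K)) ≠ ⊥ := by
    intro h
    apply hq0
    rw [eq_bot_iff]
    intro x hx
    have h1 : algebraMap (𝓞 E) (𝓞 K) x ∈ q.map (algebraMap (𝓞 E) (𝓞 K)) :=
      Ideal.mem_map_of_mem _ hx
    rw [h, Ideal.mem_bot] at h1
    rw [Ideal.mem_bot]
    exact (FaithfulSMul.algebraMap_injective (𝓞 E) (𝓞 K)) (by rw [h1, map_zero])
  constructor
  · rintro rfl
    have h1 := Ideal.card_inertia_eq_ramificationIdxIn (G := Subgroup.zpowers σ) q Q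
    have hin' : Q.inertia (Subgroup.zpowers σ) = ⊥ := by
      rw [eq_bot_iff]
      intro a ha
      have h2 : (a : K ≃ₐ[ℚ] K) ∈ Q.inertia (K ≃ₐ[ℚ] K) := fun x => ha x
      rw [hin, Subgroup.mem_bot] at h2
      rw [Subgroup.mem_bot]
      exact Subtype.ext h2
    rw [hin', Subgroup.card_bot, Ideal.ramificationIdxIn_eq_ramificationIdx q Q
      (Subgroup.zpowers σ)] at h1
    rw [Ideal.IsDedekindDomain.ramificationIdx_eq_normalizedFactors_count q Q hmap] at h1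
    exact h1.symm
  · intro hne
    rw [Multiset.count_eq_zero]
    intro hmem
    apply hne
    have h1 : Q ∣ q.map (algebraMap (𝓞 E) (𝓞 K)) :=
      UniqueFactorizationMonoid.dvd_of_mem_normalizedFactors hmem
    have h2 : q.map (algebraMap (𝓞 E) (𝓞 K)) ≤ Q := Ideal.dvd_iff_le.1 h1
    have h3 : q ≤ Q.under (𝓞 E) := Ideal.map_le_iff_le_comap.1 h2
    have h4 : q = Q.under (𝓞 E) := hqm.eq_of_le (Ideal.comap_isPrime _ _).ne_top h3
    have hlo' : Q.LiesOver q := ⟨h4⟩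
    obtain ⟨s, hs⟩ := Ideal.exists_smul_eq_of_isGaloisGroup q P Q (Subgroup.zpowers σ)
    have h5 : (s : K ≃ₐ[ℚ] K) ∈ MulAction.stabilizer (K ≃ₐ[ℚ] K) P := by
      rw [hst]
      exact s.2
    rw [← hs]
    exact h5

end Gen

open Gen in
theorem exists_gen (K : Type) [Field K] [NumberField K] [IsGalois ℚ K] :
    ∃ D : ℤ, D ≠ 0 ∧ ∀ (σ : K ≃ₐ[ℚ] K) (P : Ideal (𝓞 K)), P.IsPrime → P ≠ ⊥ →
      P.inertia (K ≃ₐ[ℚ] K) = ⊥ →
      MulAction.stabilizer (K ≃ₐ[ℚ] K) P = Subgroup.zpowers σ →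
      ∃ π : 𝓞 K, π ≠ 0 ∧ σ • π = π ∧ ∀ Q : Ideal (𝓞 K), Q.IsPrime → Q ≠ ⊥ → (D : 𝓞 K) ∉ Q →
        (Q = P → cnt Q π = 1) ∧ (Q ≠ P → cnt Q π = 0) := by
  classical
  choose D hD hDI using fun σ : K ≃ₐ[ℚ] K =>
    exists_cofactor (IntermediateField.fixedField (Subgroup.zpowers σ))
  refine ⟨∏ σ, D σ, Finset.prod_ne_zero_iff.2 fun σ _ => hD σ, ?_⟩
  intro σ P hP hP0 hin hst
  let E := IntermediateField.fixedField (Subgroup.zpowers σ)
  let q : Ideal (𝓞 E) := P.under (𝓞 E)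
  have hq0 : q ≠ ⊥ := by
    intro h
    apply hP0
    exact Ideal.eq_bot_of_comap_eq_bot (R := 𝓞 E) h
  obtain ⟨J, hJ0, ⟨x, hx0, hx⟩, hDJ⟩ := hDI σ q hq0
  have hinj := FaithfulSMul.algebraMap_injective (𝓞 E) (𝓞 K)
  have hmap0 : ∀ I : Ideal (𝓞 E), I ≠ ⊥ → I.map (algebraMap (𝓞 E) (𝓞 K)) ≠ ⊥ := by
    intro I hI h
    apply hI
    rw [eq_bot_iff]
    intro x hx
    have h1 : algebraMap (𝓞 E) (𝓞 K) x ∈ I.map (algebraMap (𝓞 E) (𝓞 K)) :=
      Ideal.mem_map_of_mem _ hx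
    rw [h, Ideal.mem_bot] at h1
    rw [Ideal.mem_bot]
    exact hinj (by rw [h1, map_zero])
  refine ⟨algebraMap (𝓞 E) (𝓞 K) x, ?_, ?_, ?_⟩
  · intro h
    exact hx0 (hinj (by rw [h, map_zero]))
  · have h1 : ((σ • (algebraMap (𝓞 E) (𝓞 K) x) : 𝓞 K) : K) = (algebraMap (𝓞 E) (𝓞 K) x : 𝓞 K) := by
      have h2 : ((x : E) : K) ∈ IntermediateField.fixedField (Subgroup.zpowers σ) := (x : E).2
      rw [IntermediateField.mem_fixedField_iff] at h2
      exact h2 σ (Subgroup.mem_zpowers σ)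
    exact_mod_cast h1
  · intro Q hQ hQ0 hDQ
    have hcnt : cnt Q (algebraMap (𝓞 E) (𝓞 K) x) =
        (UniqueFactorizationMonoid.normalizedFactors
          (q.map (algebraMap (𝓞 E) (𝓞 K)))).count Q := by
      unfold cnt
      have h1 : Ideal.span {algebraMap (𝓞 E) (𝓞 K) x} =
          q.map (algebraMap (𝓞 E) (𝓞 K)) * J.map (algebraMap (𝓞 E) (𝓞 K)) := by
        rw [← Ideal.map_mul, hx, Ideal.map_span, Set.image_singleton]
      rw [h1, UniqueFactorizationMonoid.normalizedFactors_mul (hmap0 q hq0) (hmap0 J hJ0),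
        Multiset.count_add]
      have h2 : (UniqueFactorizationMonoid.normalizedFactors
          (J.map (algebraMap (𝓞 E) (𝓞 K)))).count Q = 0 := by
        rw [Multiset.count_eq_zero]
        intro hmem
        apply hDQ
        have h3 : J.map (algebraMap (𝓞 E) (𝓞 K)) ≤ Q :=
          Ideal.dvd_iff_le.1 (UniqueFactorizationMonoid.dvd_of_mem_normalizedFactors hmem)
        have h4 : algebraMap (𝓞 E) (𝓞 K) (D σ : 𝓞 E) ∈ Q := h3 (Ideal.mem_map_of_mem _ hDJ)
        rw [map_intCast] at h4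
        push_cast
        rw [← Finset.mul_prod_erase Finset.univ _ (Finset.mem_univ σ)]
        exact Ideal.mul_mem_right _ _ h4
      rw [h2, add_zero]
    have := map_under_count K σ P hP hP0 hin hst Q hQ hQ0
    rw [hcnt]
    exact this

end Pool.TP2
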