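import Pool.Agent.TP2.Defs
import Pool.Agent.TP2.Gen

/-!
Numerators and denominators which are coprime up to bad primes, fixed by a group.
-/

open NumberField
open scoped Pointwise BigOperators

namespace Pool.TP2

open Gen in
theorem exists_gcd (K : Type) [Field K] [NumberField K] [IsGalois ℚ K]
    (H : Subgroup (K ≃ₐ[ℚ] K)) :
    ∃ D : ℤ, D ≠ 0 ∧ ∀ x : K, (∀ s ∈ H, s x = x) → ∃ a b : 𝓞 K, b ≠ 0 ∧
      (∀ s ∈ H, s • a = a) ∧ (∀ s ∈ H, s • b = b) ∧ x * (b : K) = (a : K) ∧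
      ∀ Q : Ideal (𝓞 K), Q.IsPrime → a ∈ Q → b ∈ Q → (D : 𝓞 K) ∈ Q := by
  classical
  let E := IntermediateField.fixedField H
  obtain ⟨D, hD, hDI⟩ := exists_cofactor E
  refine ⟨D, hD, ?_⟩
  intro x hx
  -- the element of the fixed field
  have hxE : x ∈ E := by
    rw [IntermediateField.mem_fixedField_iff]
    exact fun s hs => hx s hs
  let y : E := ⟨x, hxE⟩
  obtain ⟨a0, b0, hb0, hy⟩ := IsFractionRing.div_surjective (A := 𝓞 E) y
  have hb0' : b0 ≠ 0 := nonZeroDivisors.ne_zero hb0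
  have hI : Ideal.span {a0, b0} ≠ ⊥ := by
    intro h
    apply hb0'
    have h1 : b0 ∈ Ideal.span {a0, b0} := Ideal.subset_span (by simp)
    rw [h, Ideal.mem_bot] at h1
    exact h1
  obtain ⟨J, hJ0, ⟨μ, hμ0, hμ⟩, -⟩ := hDI _ hI
  obtain ⟨J', hJ'0, ⟨ρ, hρ0, hρ⟩, hDJ'⟩ := hDI _ hJ0
  have hρI : Ideal.span {ρ} * Ideal.span {a0, b0} = Ideal.span {μ} * J' := by
    rw [← hρ, ← hμ]
    ring
  have hmem : ∀ z ∈ Ideal.span {a0, b0}, ∃ w ∈ J', ρ * z = μ * w := by
    intro z hz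
    have h1 : ρ * z ∈ Ideal.span {μ} * J' := by
      rw [← hρI]
      exact Ideal.mul_mem_mul (Ideal.mem_span_singleton_self ρ) hz
    rw [Ideal.mem_span_singleton_mul] at h1
    obtain ⟨w, hw, h2⟩ := h1
    exact ⟨w, hw, h2.symm⟩
  obtain ⟨a, haJ, ha⟩ := hmem a0 (Ideal.subset_span (by simp))
  obtain ⟨b, hbJ, hb⟩ := hmem b0 (Ideal.subset_span (by simp))
  have hspan : J' = Ideal.span {a, b} := by
    have h1 : Ideal.span {μ} * Ideal.span {a, b} = Ideal.span {μ} * J' := by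
      rw [← hρI, Ideal.span_mul_span', Ideal.span_mul_span']
      congr 1
      simp only [Set.singleton_mul, Set.image_pair, ha, hb]
    have h2 : (Ideal.span {μ} : Ideal (𝓞 E)) ≠ ⊥ := by
      rw [Ne, Ideal.span_singleton_eq_bot]
      exact hμ0
    exact (mul_left_cancel₀ h2 h1).symm
  have hinj := FaithfulSMul.algebraMap_injective (𝓞 E) (𝓞 K)
  have hfix : ∀ z : 𝓞 E, ∀ s ∈ H, s • (algebraMap (𝓞 E) (𝓞 K) z) = algebraMap (𝓞 E) (𝓞 K) z := by
    intro z s hs
    have h1 : ((s • (algebraMap (𝓞 E) (𝓞 K) z) : 𝓞 K) : K) =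
        (algebraMap (𝓞 E) (𝓞 K) z : 𝓞 K) := by
      have h2 : ((z : E) : K) ∈ IntermediateField.fixedField H := (z : E).2
      rw [IntermediateField.mem_fixedField_iff] at h2
      exact h2 s hs
    exact_mod_cast h1
  refine ⟨algebraMap (𝓞 E) (𝓞 K) a, algebraMap (𝓞 E) (𝓞 K) b, ?_, hfix a, hfix b, ?_, ?_⟩
  · intro h
    have h1 : b = 0 := hinj (by rw [h, map_zero])
    rw [h1, mul_zero] at hb
    rcases mul_eq_zero.1 hb with h2 | h2
    · exact hρ0 h2
    · exact hb0' h2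
  · have h1 : y * (b : E) = (a : E) := by
      have hbE : (algebraMap (𝓞 E) E b0) ≠ 0 := by
        intro h
        exact hb0' ((FaithfulSMul.algebraMap_injective (𝓞 E) E) (by rw [h, map_zero]))
      have hμE : (algebraMap (𝓞 E) E μ) ≠ 0 := by
        intro h
        exact hμ0 ((FaithfulSMul.algebraMap_injective (𝓞 E) E) (by rw [h, map_zero]))
      have ha' := congrArg (algebraMap (𝓞 E) E) ha
      have hb' := congrArg (algebraMap (𝓞 E) E) hb
      rw [map_mul, map_mul] at ha' hb'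
      change y * algebraMap (𝓞 E) E b = algebraMap (𝓞 E) E a
      rw [← hy]
      apply mul_left_cancel₀ hμE
      apply mul_left_cancel₀ hbE
      rw [← ha']
      have : algebraMap (𝓞 E) E b0 * (algebraMap (𝓞 E) E μ *
          (algebraMap (𝓞 E) E a0 / algebraMap (𝓞 E) E b0 * algebraMap (𝓞 E) E b)) =
          algebraMap (𝓞 E) E a0 * (algebraMap (𝓞 E) E μ * algebraMap (𝓞 E) E b) := by
        field_simp
      rw [this, ← hb']
      ring
    have h2 := congrArg (fun e : E => (e : K)) h1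
    exact h2
  · intro Q hQ haQ hbQ
    have h1 : J' ≤ Q.under (𝓞 E) := by
      rw [hspan, Ideal.span_le]
      intro z hz
      rcases hz with rfl | hz
      · exact haQ
      · rw [Set.mem_singleton_iff] at hz
        subst hz
        exact hbQ
    have h2 : algebraMap (𝓞 E) (𝓞 K) (D : 𝓞 E) ∈ Q := h1 hDJ'
    rwa [map_intCast] at h2

end Pool.TP2
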