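import Pool.Agent.TP2.Defs
import Pool.Agent.TP2.Sym
import Pool.Agent.TP.Frobenius

/-! TP2-6: a prime with prescribed decomposition group and symbols. -/

open NumberField Polynomial
open scoped Pointwise BigOperators

namespace Pool.TP2

namespace Choose

theorem isGalQb : IsGalois ℚ Qb := by
  have := Pool.TP.Ramif.isAlgClosure_rat
  infer_instance

section Tower

variable (K M : IntermediateField ℚ Qb) (hKM : K ≤ M)

/-- the map of rings of integers -/
noncomputable def io : 𝓞 K →+* 𝓞 M :=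
  RingOfIntegers.mapRingHom (IntermediateField.inclusion hKM : K →ₐ[ℚ] M).toRingHom

theorem io_coe (x : 𝓞 K) : (((io K M hKM x : 𝓞 M) : M) : Qb) = ((x : K) : Qb) := rfl

variable [NumberField M] [IsGalois ℚ M] [NumberField K] [IsGalois ℚ K]

theorem io_smul (χ : Qb ≃ₐ[ℚ] Qb) (s : K ≃ₐ[ℚ] K) (hs : ∀ x : K, χ x = (s x : K)) (x : 𝓞 K) :
    (χ.restrictNormal M) • io K M hKM x = io K M hKM (s • x) := by
  apply RingOfIntegers.ext
  apply Subtype.ext
  exact (AlgEquiv.restrictNormal_commutes χ M ((io K M hKM x : 𝓞 M) : M)).trans (hs x)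

/-- Elements of `𝓞 M` fixed by all automorphisms over `K` come from `𝓞 K`. -/
theorem io_invariant (b : 𝓞 M)
    (hb : ∀ g : M ≃ₐ[ℚ] M, (∀ x : 𝓞 K, g • io K M hKM x = io K M hKM x) → g • b = b) :
    ∃ a : 𝓞 K, io K M hKM a = b := by
  have := isGalQb
  have hgal : IsGalois K Qb := IsGalois.tower_top_intermediateField K
  have h1 : ((b : M) : Qb) ∈ Set.range (algebraMap K Qb) := by
    rw [InfiniteGalois.mem_range_algebraMap_iff_fixed]
    intro f
    let χ : Qb ≃ₐ[ℚ] Qb := f.restrictScalars ℚ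
    have hχ : ∀ x : K, χ x = ((1 : K ≃ₐ[ℚ] K) x : K) := fun x => f.commutes x
    have h2 : (χ.restrictNormal M) • b = b := by
      apply hb
      intro x
      rw [io_smul K M hKM χ 1 hχ, one_smul]
    have h3 := congrArg (fun z : 𝓞 M => ((z : M) : Qb)) h2
    exact (AlgEquiv.restrictNormal_commutes χ M (b : M)).symm.trans h3
  obtain ⟨a, ha⟩ := h1
  have h4 : IsIntegral ℤ a := by
    have h5 : IsIntegral ℤ ((b : M) : Qb) := by
      have h6 : IsIntegral ℤ (b : M) := RingOfIntegers.isIntegral_coe b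
      exact h6.map ((algebraMap M Qb).toIntAlgHom)
    rw [← ha] at h5
    exact (isIntegral_algHom_iff ((algebraMap K Qb).toIntAlgHom) (algebraMap K Qb).injective).1 h5
  refine ⟨⟨a, h4⟩, ?_⟩
  apply RingOfIntegers.ext
  apply Subtype.ext
  rw [io_coe]
  exact ha

/-- Transitivity on the primes above a prime of `K`. -/
theorem transitive (Q Q' : Ideal (𝓞 M)) (hQ : Q.IsPrime) (hQ' : Q'.IsPrime)
    (h : Q.comap (io K M hKM) = Q'.comap (io K M hKM)) :
    ∃ g : M ≃ₐ[ℚ] M, (∀ x : 𝓞 K, g • io K M hKM x = io K M hKM x) ∧ Q' = g • Q := by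
  let _ : Algebra (𝓞 K) (𝓞 M) := (io K M hKM).toAlgebra
  let H : Subgroup (M ≃ₐ[ℚ] M) :=
    { carrier := {g | ∀ x : 𝓞 K, g • io K M hKM x = io K M hKM x}
      mul_mem' := by
        intro a b ha hb x
        rw [mul_smul, hb x, ha x]
      one_mem' := fun x => one_smul _ _
      inv_mem' := by
        intro a ha x
        rw [inv_smul_eq_iff]
        exact (ha x).symm }
  have hH : ∀ g : H, ∀ x : 𝓞 K, g • io K M hKM x = io K M hKM x := fun g => g.2
  have hcomm : SMulCommClass H (𝓞 K) (𝓞 M) := by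
    refine ⟨fun g a b => ?_⟩
    change g • (io K M hKM a * b) = io K M hKM a * (g • b)
    rw [smul_mul', hH]
  have hinv : Algebra.IsInvariant (𝓞 K) (𝓞 M) H := by
    refine ⟨fun b hb => ?_⟩
    exact io_invariant K M hKM b fun g hg => hb ⟨g, hg⟩
  obtain ⟨g, hg⟩ := Algebra.IsInvariant.exists_smul_of_under_eq (𝓞 K) (𝓞 M) H Q Q' h
  exact ⟨g.1, g.2, hg⟩

/-- The decomposition group of the prime below. -/
theorem stab_below (τ : Qb ≃ₐ[ℚ] Qb) (σ : K ≃ₐ[ℚ] K) (hτ : ∀ x : K, τ x = (σ x : K))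
    (Q : Ideal (𝓞 M)) (hQ : Q.IsPrime)
    (hst : MulAction.stabilizer (M ≃ₐ[ℚ] M) Q = Subgroup.zpowers (τ.restrictNormal M)) :
    MulAction.stabilizer (K ≃ₐ[ℚ] K) (Q.comap (io K M hKM)) = Subgroup.zpowers σ := by
  have := isGalQb
  -- comparison of the actions
  have key : ∀ (χ : Qb ≃ₐ[ℚ] Qb) (s : K ≃ₐ[ℚ] K), (∀ x : K, χ x = (s x : K)) →
      s • (Q.comap (io K M hKM)) = ((χ.restrictNormal M) • Q).comap (io K M hKM) := by
    intro χ s hs
    ext x
    rw [Ideal.mem_pointwise_smul_iff_inv_smul_mem, Ideal.mem_comap, Ideal.mem_comap,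
      Ideal.mem_pointwise_smul_iff_inv_smul_mem]
    have h1 : io K M hKM (s⁻¹ • x) = (χ.restrictNormal M)⁻¹ • io K M hKM x := by
      rw [eq_inv_smul_iff, io_smul K M hKM χ s hs, smul_inv_smul]
    rw [h1]
  have hinv : ∀ x : K, τ⁻¹ x = ((σ⁻¹ x : K) : Qb) := by
    intro x
    apply τ.injective
    rw [hτ]
    have e1 : τ (τ⁻¹ (x : Qb)) = x := by
      rw [← AlgEquiv.mul_apply, mul_inv_cancel, AlgEquiv.one_apply]
    have e2 : σ (σ⁻¹ x) = x := by
      rw [← AlgEquiv.mul_apply, mul_inv_cancel, AlgEquiv.one_apply]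
    rw [e1, e2]
  have hpow : ∀ (i : ℤ) (x : K), (τ ^ i) x = ((σ ^ i) x : K) := by
    intro i
    induction i using Int.induction_on with
    | zero => intro x; simp
    | succ n ih =>
      intro x
      rw [zpow_add_one, zpow_add_one, AlgEquiv.mul_apply, AlgEquiv.mul_apply, hτ, ih]
    | pred n ih =>
      intro x
      rw [zpow_sub_one, zpow_sub_one, AlgEquiv.mul_apply, AlgEquiv.mul_apply, hinv, ih]
  have hpowM : ∀ i : ℤ, (τ ^ i).restrictNormal M = (τ.restrictNormal M) ^ i := by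
    intro i
    exact map_zpow (AlgEquiv.restrictNormalHom (F := ℚ) (K₁ := Qb) M) τ i
  apply le_antisymm
  · intro s hs
    rw [MulAction.mem_stabilizer_iff] at hs
    let χ : Qb ≃ₐ[ℚ] Qb := s.liftNormal Qb
    have hχ : ∀ x : K, χ x = (s x : K) := fun x => s.liftNormal_commutes Qb x
    have h1 := key χ s hχ
    rw [hs] at h1
    have hQ' : ((χ.restrictNormal M) • Q).IsPrime := hQ.smul _
    obtain ⟨g, hg, hgQ⟩ := transitive K M hKM Q _ hQ hQ' h1
    have h2 : g⁻¹ * (χ.restrictNormal M) ∈ MulAction.stabilizer (M ≃ₐ[ℚ] M) Q := by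
      rw [MulAction.mem_stabilizer_iff, mul_smul, hgQ, inv_smul_smul]
    rw [hst] at h2
    obtain ⟨i, hi⟩ := Subgroup.mem_zpowers_iff.1 h2
    have h3 : χ.restrictNormal M = g * (τ.restrictNormal M) ^ i := by rw [hi]; group
    refine Subgroup.mem_zpowers_iff.2 ⟨i, ?_⟩
    -- compare on `𝓞 K`
    have h4 : ∀ x : 𝓞 K, s • x = (σ ^ i) • x := by
      intro x
      have e1 := io_smul K M hKM χ s hχ x
      have e2 := io_smul K M hKM (τ ^ i) (σ ^ i) (hpow i) x
      rw [hpowM] at e2
      rw [h3, mul_smul, e2, hg] at e1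
      have hinj : Function.Injective (io K M hKM) := by
        intro a b hab
        apply RingOfIntegers.ext
        apply Subtype.ext
        have := congrArg (fun z : 𝓞 M => ((z : M) : Qb)) hab
        exact this
      exact (hinj e1).symm
    by_contra hne
    have hne' : (σ ^ i)⁻¹ * s ≠ 1 := by
      intro h
      apply hne
      have := congrArg (fun z => σ ^ i * z) h
      simpa using this.symm
    obtain ⟨x, hx⟩ := Pool.TP.Ramif.exists_moved _ hne'
    apply hx
    rw [mul_smul, h4, inv_smul_smul]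
  · rw [Subgroup.zpowers_le, MulAction.mem_stabilizer_iff, key τ σ hτ]
    have h1 : (τ.restrictNormal M) ∈ MulAction.stabilizer (M ≃ₐ[ℚ] M) Q := by
      rw [hst]; exact Subgroup.mem_zpowers _
    rw [MulAction.mem_stabilizer_iff] at h1
    rw [h1]

end Tower

end Choose

open Pool.TP2.Choose in
theorem exists_prime (K : IntermediateField ℚ Qb) [NumberField K] [IsGalois ℚ K]
    (τ : Qb ≃ₐ[ℚ] Qb) (σ : K ≃ₐ[ℚ] K) (hτ : ∀ x : K, τ x = (σ x : K))
    {J : Type} [Finite J] (y : J → 𝓞 K) (hy : ∀ j, y j ≠ 0) (r : J → Qb)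
    (hr : ∀ j, r j ^ 2 = ((y j : K) : Qb)) (a : J → ℤˣ)
    (ha : ∀ j, τ (r j) = ((a j : ℤ) : Qb) * r j) (B : ℕ) :
    ∃ (p : ℕ) (P : Ideal (𝓞 K)), p.Prime ∧ B < p ∧ P.IsPrime ∧ (p : 𝓞 K) ∈ P ∧
      P.inertia (K ≃ₐ[ℚ] K) = ⊥ ∧
      MulAction.stabilizer (K ≃ₐ[ℚ] K) P = Subgroup.zpowers σ ∧
      ∀ j, y j ∉ P ∧ sym P (y j) = a j := by
  classical
  have hgal := isGalQb
  -- the field `M`
  let L : IntermediateField ℚ Qb := K ⊔ IntermediateField.adjoin ℚ (Set.range r)
  have hrint : ∀ x ∈ Set.range r, IsIntegral ℚ x := by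
    intro x _
    exact Algebra.IsIntegral.isIntegral x
  have hLfin : FiniteDimensional ℚ L := by
    have : FiniteDimensional ℚ (IntermediateField.adjoin ℚ (Set.range r)) :=
      IntermediateField.finiteDimensional_adjoin hrint
    exact IntermediateField.finiteDimensional_sup _ _
  let M : IntermediateField ℚ Qb := IntermediateField.normalClosure ℚ L Qb
  have hLM : L ≤ M := IntermediateField.le_normalClosure L
  have hMfin : FiniteDimensional ℚ M := inferInstance
  have hMnorm' : @Normal ℚ M _ _ M.algebra' := inferInstance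
  have hMnum : NumberField M := ⟨⟩
  have hMnorm : Normal ℚ M := by
    have e : (DivisionRing.toRatAlgebra : Algebra ℚ M) = M.algebra' := Subsingleton.elim _ _
    rw [e]
    exact hMnorm'
  have hMgal : IsGalois ℚ M := { to_normal := hMnorm, to_isSeparable := inferInstance }
  have hKM : K ≤ M := le_sup_left.trans hLM
  have hrM : ∀ j, r j ∈ M := fun j =>
    hLM ((le_sup_right : _ ≤ L) (IntermediateField.subset_adjoin _ _ (Set.mem_range_self j)))
  have hrI : ∀ j, IsIntegral ℤ (⟨r j, hrM j⟩ : M) := by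
    intro j
    have h1 : IsIntegral ℤ (r j) := by
      have h2 : IsIntegral ℤ (r j ^ 2) := by
        rw [hr j]
        exact (RingOfIntegers.isIntegral_coe (y j)).map ((algebraMap K Qb).toIntAlgHom)
      exact h2.of_pow two_pos
    exact (isIntegral_algHom_iff ((algebraMap M Qb).toIntAlgHom)
      (algebraMap M Qb).injective).1 h1
  let rM : J → 𝓞 M := fun j => ⟨⟨r j, hrM j⟩, hrI j⟩
  have hrM2 : ∀ j, rM j ^ 2 = io K M hKM (y j) := by
    intro j
    apply RingOfIntegers.ext
    apply Subtype.ext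
    exact hr j
  set τM : M ≃ₐ[ℚ] M := τ.restrictNormal M with hτM
  have hτr : ∀ j, τM • rM j = ((a j : ℤ) : 𝓞 M) * rM j := by
    intro j
    apply RingOfIntegers.ext
    apply Subtype.ext
    refine (AlgEquiv.restrictNormal_commutes τ M (⟨r j, hrM j⟩ : M)).trans ?_
    refine (ha j).trans ?_
    simp [rM]
  -- choice of the prime
  have hinf := Pool.TP.frobenius_exists M τM
  have hf1 := Pool.TP.finite_ramified K
  have hf2 : (⋃ j, (((Ideal.absNorm (Ideal.span {y j})).divisors : Finset ℕ) : Set ℕ)).Finite :=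
    Set.finite_iUnion fun j => Finset.finite_toSet _
  obtain ⟨p, ⟨hp, Q, hQ, hpQ, hin, hst⟩, hpB⟩ :=
    hinf.exists_notMem_finite ((hf1.union hf2).union (Set.finite_le_nat (max B 2)))
  simp only [Set.mem_union, not_or, Set.mem_ofPred_eq, not_le, max_lt_iff] at hpB
  obtain ⟨⟨hb1, hb2⟩, hb3, hb4⟩ := hpB
  have hP : (Q.comap (io K M hKM)).IsPrime := Ideal.comap_isPrime _ _
  have hpP : (p : 𝓞 K) ∈ Q.comap (io K M hKM) := by
    rw [Ideal.mem_comap, map_natCast]
    exact hpQ
  refine ⟨p, Q.comap (io K M hKM), hp, hb3, hP, hpP, ?_, ?_, ?_⟩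
  · by_contra hne
    exact hb1 ⟨hp, _, hP, hpP, hne⟩
  · exact stab_below K M hKM τ σ hτ Q hQ hst
  · intro j
    have hyP : y j ∉ Q.comap (io K M hKM) := by
      intro hmem
      apply hb2
      rw [Set.mem_iUnion]
      refine ⟨j, ?_⟩
      rw [Finset.mem_coe, Nat.mem_divisors]
      refine ⟨Pool.TP.Ramif.dvd_absNorm hp hP hpP hmem, ?_⟩
      rw [Ne, Ideal.absNorm_eq_zero_iff, Ideal.span_singleton_eq_bot]
      exact hy j
    refine ⟨hyP, ?_⟩
    have hstQ : τM • Q = Q := by
      have : τM ∈ MulAction.stabilizer (M ≃ₐ[ℚ] M) Q := by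
        rw [hst]; exact Subgroup.mem_zpowers _
      exact this
    rcases Int.units_eq_one_or (a j) with h1 | h1
    · have hfix : τM • rM j = rM j := by rw [hτr, h1]; simp
      obtain ⟨n, hn⟩ := residue_of_fixed hp Q hQ hpQ τM hst (rM j) hfix
      rw [h1, sym, if_pos]
      refine ⟨n, ?_⟩
      rw [Ideal.mem_comap, map_sub, map_pow, map_intCast, ← hrM2]
      have : rM j ^ 2 - (n : 𝓞 M) ^ 2 = (rM j + n) * (rM j - n) := by ring
      rw [this]
      exact Ideal.mul_mem_left _ _ hn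
    · rw [h1, sym, if_neg]
      rintro ⟨n, hn⟩
      rw [Ideal.mem_comap, map_sub, map_pow, map_intCast, ← hrM2] at hn
      have e1 : rM j ^ 2 - (n : 𝓞 M) ^ 2 = (rM j + n) * (rM j - n) := by ring
      rw [e1] at hn
      have hneg : τM • rM j = - rM j := by rw [hτr, h1]; simp
      have hint : ∀ m : ℤ, τM • (m : 𝓞 M) = (m : 𝓞 M) := by
        intro m
        have := map_intCast (MulSemiringAction.toRingHom (M ≃ₐ[ℚ] M) (𝓞 M) τM) m
        exact this
      have key : ∀ m : ℤ, rM j - (m : 𝓞 M) ∈ Q → False := by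
        intro m hm
        have h2 : τM • (rM j - (m : 𝓞 M)) ∈ Q := by
          rw [← hstQ]
          exact Ideal.smul_mem_pointwise_smul _ _ _ hm
        rw [smul_sub, hneg, hint] at h2
        have h3 : (2 : 𝓞 M) * rM j ∈ Q := by
          have := Ideal.sub_mem _ hm h2
          have e2 : rM j - (m : 𝓞 M) - (- rM j - (m : 𝓞 M)) = 2 * rM j := by ring
          rwa [e2] at this
        rcases hQ.mem_or_mem h3 with h4 | h4
        · -- `2 ∈ Q` and `p ∈ Q`
          have hc : IsCoprime (p : ℤ) 2 := by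
            have : Nat.Coprime p 2 := by
              rw [Nat.coprime_comm, Nat.coprime_two_left]
              exact hp.odd_of_ne_two (by omega)
            exact_mod_cast Nat.isCoprime_iff_coprime.2 this
          obtain ⟨u, v, huv⟩ := hc
          apply hQ.ne_top
          rw [Ideal.eq_top_iff_one]
          have h5 : (u : 𝓞 M) * (p : 𝓞 M) + (v : 𝓞 M) * 2 = 1 := by
            have := congrArg (fun z : ℤ => (z : 𝓞 M)) huv
            push_cast at this
            exact this
          rw [← h5]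
          exact Ideal.add_mem _ (Ideal.mul_mem_left _ _ hpQ) (Ideal.mul_mem_left _ _ h4)
        · apply hyP
          rw [Ideal.mem_comap, ← hrM2, sq]
          exact Ideal.mul_mem_left _ _ h4
      rcases hQ.mem_or_mem hn with h2 | h2
      · apply key (-n)
        push_cast
        rwa [sub_neg_eq_add]
      · exact key n h2

end Pool.TP2
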