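import Pool.Agent.TP2.Defs

/-!
Automorphisms with prescribed signs on square roots.
-/

open NumberField Polynomial
open scoped Pointwise BigOperators

namespace Pool.TP2

namespace Kummer

theorem isAlgebraic : Algebra.IsAlgebraic ℚ Qb := AlgebraicClosure.isAlgebraic ℚ

theorem normal : Normal ℚ Qb := by
  have h1 : Algebra.IsAlgebraic ℚ Qb := isAlgebraic
  have h2 : Algebra.IsIntegral ℚ Qb := Algebra.IsAlgebraic.isIntegral
  have h3 : IsAlgClosure ℚ Qb := ⟨inferInstance, inferInstance⟩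
  exact IsAlgClosure.normal ℚ Qb

theorem isGalois : IsGalois ℚ Qb := by
  have h0 : Algebra.IsAlgebraic ℚ Qb := isAlgebraic
  have h1 : Algebra.IsSeparable ℚ Qb := Algebra.IsAlgebraic.isSeparable_of_perfectField
  have h2 : Normal ℚ Qb := normal
  exact ⟨⟩

/-- the sign attached to an element of `ZMod 2` -/
def sg (a : ZMod 2) : ℤˣ := if a = 0 then 1 else -1

theorem sg_zero : sg 0 = 1 := by decide

theorem sg_add : ∀ a b : ZMod 2, sg (a + b) = sg a * sg b := by decide

theorem sg_surj (u : ℤˣ) : ∃ a : ZMod 2, sg a = u := by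
  rcases Int.units_eq_one_or u with rfl | rfl
  · exact ⟨0, by decide⟩
  · exact ⟨1, by decide⟩

theorem sg_sum {J : Type} (A : Finset J) (s : J → ZMod 2) :
    sg (∑ j ∈ A, s j) = ∏ j ∈ A, sg (s j) := by
  classical
  induction A using Finset.induction_on with
  | empty => simp [sg_zero]
  | insert a A ha ih => rw [Finset.sum_insert ha, Finset.prod_insert ha, sg_add, ih]

theorem signs_one (K : IntermediateField ℚ Qb)
    {J : Type} [Fintype J] (v : J → K)
    (hind : ∀ A : Finset J, A.Nonempty → ¬ IsSquare (∏ j ∈ A, v j))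
    (r : J → Qb) (hr : ∀ j, r j ^ 2 = v j) (ε : J → ℤˣ) :
    ∃ χ : Qb ≃ₐ[ℚ] Qb, (∀ x : K, χ x = x) ∧ ∀ j, χ (r j) = ((ε j : ℤ) : Qb) * r j := by
  classical
  let W : Submodule (ZMod 2) (J → ZMod 2) :=
    { carrier := {s | ∃ χ : Qb ≃ₐ[ℚ] Qb, (∀ x : K, χ x = x) ∧
        ∀ j, χ (r j) = ((sg (s j) : ℤ) : Qb) * r j}
      add_mem' := by
        rintro s t ⟨χ, h1, h2⟩ ⟨χ', h1', h2'⟩
        refine ⟨χ * χ', fun x => ?_, fun j => ?_⟩
        · rw [AlgEquiv.mul_apply, h1', h1]
        · rw [AlgEquiv.mul_apply, h2', map_mul, h2, map_intCast, Pi.add_apply, sg_add]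
          push_cast
          ring
      zero_mem' := ⟨1, fun x => rfl, fun j => by
        rw [Pi.zero_apply, sg_zero]; simp⟩
      smul_mem' := by
        rintro c s ⟨χ, h1, h2⟩
        have hc : c = 0 ∨ c = 1 := by
          revert c; decide
        rcases hc with rfl | rfl
        · refine ⟨1, fun x => rfl, fun j => ?_⟩
          rw [zero_smul, Pi.zero_apply, sg_zero]; simp
        · rw [one_smul]
          exact ⟨χ, h1, h2⟩ }
  have hW : W = ⊤ := by
    by_contra hne
    obtain ⟨f, hf0, hf⟩ := Submodule.exists_le_ker_of_lt_top W (lt_top_iff_ne_top.2 hne)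
    have hfs : ∀ s : J → ZMod 2, f s = ∑ j, s j * f (Pi.single j 1) := by
      intro s
      conv_lhs => rw [← Finset.univ_sum_single s]
      rw [map_sum]
      refine Finset.sum_congr rfl fun j _ => ?_
      have : (Pi.single j (s j) : J → ZMod 2) = s j • (Pi.single j 1 : J → ZMod 2) := by
        rw [← Pi.single_smul, smul_eq_mul, mul_one]
      rw [this, map_smul, smul_eq_mul]
    let A : Finset J := Finset.univ.filter fun j => f (Pi.single j 1) ≠ 0
    have hA : A.Nonempty := by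
      by_contra hA
      rw [Finset.not_nonempty_iff_eq_empty] at hA
      apply hf0
      refine LinearMap.ext fun s => ?_
      rw [hfs, LinearMap.zero_apply]
      refine Finset.sum_eq_zero fun j _ => ?_
      have : j ∉ A := by rw [hA]; exact Finset.notMem_empty j
      rw [Finset.mem_filter, not_and, not_not] at this
      rw [this (Finset.mem_univ j), mul_zero]
    have h1 : ∀ a : ZMod 2, a ≠ 0 → a = 1 := by decide
    have hfA : ∀ s : J → ZMod 2, f s = ∑ j ∈ A, s j := by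
      intro s
      rw [hfs, Finset.sum_filter]
      refine Finset.sum_congr rfl fun j _ => ?_
      by_cases h : f (Pi.single j 1) = 0
      · rw [h, mul_zero, if_neg]; exact fun h' => h' rfl
      · rw [h1 _ h, mul_one, if_pos]; exact one_ne_zero
    have hgal : IsGalois ℚ Qb := isGalois
    have hR : (∏ j ∈ A, r j) ∈ K := by
      rw [← InfiniteGalois.fixedField_fixingSubgroup K, IntermediateField.mem_fixedField_iff]
      intro χ hχ
      rw [IntermediateField.mem_fixingSubgroup_iff] at hχ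
      have hχ' : ∀ x : K, χ x = x := fun x => hχ x x.2
      have h2 : ∀ j, ∃ a : ZMod 2, χ (r j) = ((sg a : ℤ) : Qb) * r j := by
        intro j
        have h3 : χ (r j) ^ 2 = r j ^ 2 := by
          rw [← map_pow, hr, hχ']
        rcases sq_eq_sq_iff_eq_or_eq_neg.1 h3 with h4 | h4
        · exact ⟨0, by rw [h4, sg_zero]; simp⟩
        · refine ⟨1, ?_⟩
          have : sg 1 = -1 := by decide
          rw [h4, this]; simp
      choose s hs using h2
      have hsW : s ∈ W := ⟨χ, hχ', hs⟩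
      have hs0 : f s = 0 := hf hsW
      rw [hfA] at hs0
      have h5 : ∏ j ∈ A, sg (s j) = 1 := by rw [← sg_sum, hs0, sg_zero]
      rw [map_prod, Finset.prod_congr rfl fun j _ => hs j, Finset.prod_mul_distrib]
      have h6 : (∏ j ∈ A, ((sg (s j) : ℤ) : Qb)) = (((∏ j ∈ A, sg (s j) : ℤˣ) : ℤ) : Qb) := by
        push_cast
        rfl
      rw [h6, h5]
      simp
    apply hind A hA
    refine ⟨⟨∏ j ∈ A, r j, hR⟩, ?_⟩
    apply Subtype.ext
    have h7 : ((∏ j ∈ A, v j : K) : Qb) = ∏ j ∈ A, (v j : Qb) := by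
      push_cast
      rfl
    rw [h7]
    change _ = (∏ j ∈ A, r j) * (∏ j ∈ A, r j)
    rw [← Finset.prod_mul_distrib]
    refine Finset.prod_congr rfl fun j _ => ?_
    rw [← hr, sq]
  choose s hs using fun j => sg_surj (ε j)
  have : s ∈ W := by rw [hW]; exact Submodule.mem_top
  obtain ⟨χ, h1, h2⟩ := this
  exact ⟨χ, h1, fun j => by rw [h2, hs]⟩

end Kummer

theorem exists_signs (K : IntermediateField ℚ Qb) [FiniteDimensional ℚ K] [Normal ℚ K]
    {J : Type} [Fintype J] (v : J → K) (hv : ∀ j, v j ≠ 0)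
    (hind : ∀ A : Finset J, A.Nonempty → ¬ IsSquare (∏ j ∈ A, v j))
    (r : J → Qb) (hr : ∀ j, r j ^ 2 = v j) (σ : K ≃ₐ[ℚ] K) (ρ : J → J)
    (hρ : ∀ j, σ (v j) = v (ρ j)) (ε : J → ℤˣ) :
    ∃ τ : Qb ≃ₐ[ℚ] Qb, (∀ x : K, τ x = (σ x : K)) ∧
      ∀ j, τ (r j) = ((ε j : ℤ) : Qb) * r (ρ j) := by
  have hnorm : Normal ℚ Qb := Kummer.normal
  obtain ⟨τ₀, hτ₀⟩ := AlgEquiv.restrictNormalHom_surjective (F := ℚ) (K₁ := K) Qb σ
  have h0 : ∀ x : K, τ₀ x = (σ x : K) := by
    intro x
    rw [← hτ₀]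
    exact (AlgEquiv.restrictNormal_commutes τ₀ K x).symm
  have h1 : ∀ j, ∃ δ : ℤˣ, τ₀ (r j) = ((δ : ℤ) : Qb) * r (ρ j) := by
    intro j
    have h3 : τ₀ (r j) ^ 2 = r (ρ j) ^ 2 := by
      rw [← map_pow, hr, hr, h0, hρ]
    rcases sq_eq_sq_iff_eq_or_eq_neg.1 h3 with h4 | h4
    · exact ⟨1, by rw [h4]; simp⟩
    · exact ⟨-1, by rw [h4]; simp⟩
  choose δ hδ using h1
  obtain ⟨χ, hχ1, hχ2⟩ := Kummer.signs_one K v hind r hr (fun j => ε j * δ j)
  refine ⟨τ₀ * χ, fun x => ?_, fun j => ?_⟩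
  · rw [AlgEquiv.mul_apply, hχ1, h0]
  · rw [AlgEquiv.mul_apply, hχ2, map_mul, map_intCast, hδ, ← mul_assoc]
    congr 1
    have : ((ε j * δ j : ℤˣ) : ℤ) * (δ j : ℤ) = (ε j : ℤ) := by
      rw [← Units.val_mul, mul_assoc, Int.units_mul_self, mul_one]
    exact_mod_cast this

end Pool.TP2
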