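import Pool.Agent.TP2.Sym
import Pool.Agent.TP2.Kummer
import Pool.Agent.TP2.Choose
import Pool.Agent.TP2.Reps
import Pool.Agent.TP2.Descent

/-! Choice of the next prime in the tree (project TP2). -/

open NumberField Polynomial
open scoped Pointwise BigOperators

namespace Pool.TP2

namespace Next

open Reps Descent

lemma sqrt_integral {K : Type} [Field K] {w : 𝓞 K} {y : K} (h : (w : K) = y * y) :
    ∃ y0 : 𝓞 K, w = y0 * y0 := by
  have hint : IsIntegral ℤ y := by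
    refine IsIntegral.of_pow (n := 2) (by norm_num) ?_
    rw [pow_two, ← h]
    exact w.2
  refine ⟨⟨y, hint⟩, ?_⟩
  apply RingOfIntegers.ext
  rw [h]
  rfl

lemma coe_smul' {K : Type} [Field K] [NumberField K] (s : K ≃ₐ[ℚ] K) (y : 𝓞 K) :
    ((s • y : 𝓞 K) : K) = s (y : K) := rfl

lemma coe_prod' {K : Type} [Field K] [NumberField K] {ι : Type} (s : Finset ι) (f : ι → 𝓞 K) :
    ((∏ i ∈ s, f i : 𝓞 K) : K) = ∏ i ∈ s, ((f i : 𝓞 K) : K) :=
  map_prod (algebraMap (𝓞 K) K) f s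

section

variable {K : Type} [Field K] [NumberField K] {G : Subgroup (K ≃ₐ[ℚ] K)} {D D' : ℤ}
  {J : Type} {τ : J → G} {x : J → PD K}

lemma idx_eq (hx : ∀ j, (x j).Good D D' (τ j)) (hdist : ∀ i j, (x i).p = (x j).p → i = j)
    {i j : J} {s s' : K ≃ₐ[ℚ] K} (h : s • (x i).P = s' • (x j).P) : i = j := by
  apply hdist
  have h1 : (((x i).p : ℕ) : 𝓞 K) ∈ s • (x i).P := by
    have := (intCast_mem_smul_iff s (x i).P ((x i).p : ℤ)).2 (by simpa using (hx i).mem)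
    simpa using this
  have h2 : (((x j).p : ℕ) : 𝓞 K) ∈ s • (x i).P := by
    rw [h]
    have := (intCast_mem_smul_iff s' (x j).P ((x j).p : ℤ)).2 (by simpa using (hx j).mem)
    simpa using this
  exact prime_eq (isPrime_smul s (hx i).isPrime) (hx i).prime (hx j).prime h1 h2

lemma not_square (hDD' : D ∣ D') (hx : ∀ j, (x j).Good D D' (τ j))
    (hdist : ∀ i j, (x i).p = (x j).p → i = j)
    (A : Finset (Σ j : J, {s : G // s ∈ cosetReps (τ j)})) (hA : A.Nonempty) :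
    ¬ IsSquare (∏ i ∈ A, ((i.2.1 • (x i.1).π : 𝓞 K) : K)) := by
  classical
  rintro ⟨y, hy⟩
  rw [← coe_prod'] at hy
  obtain ⟨y0, hy0⟩ := sqrt_integral hy
  obtain ⟨⟨j, s, hs⟩, hi⟩ := hA
  have hpi : ∀ (j : J) (s : G), s • (x j).π ≠ 0 := fun j s h => (hx j).ne ((smul_eq_zero_iff_eq s).1 h)
  set Q : Ideal (𝓞 K) := (s : K ≃ₐ[ℚ] K) • (x j).P with hQdef
  have hP0 : (x j).P ≠ ⊥ := ne_bot_of_mem (hx j).prime (hx j).mem
  have hQ : Q.IsPrime := isPrime_smul _ (hx j).isPrime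
  have hQ0 : Q ≠ ⊥ := smul_ne_bot _ hP0
  have hQD : (D : 𝓞 K) ∉ Q := by
    rw [hQdef, intCast_mem_smul_iff]; exact good_notMem hDD' (hx j)
  have hne : ∏ i ∈ A, (i.2.1 • (x i.1).π : 𝓞 K) ≠ 0 := Finset.prod_ne_zero_iff.2 fun i _ => hpi i.1 i.2.1
  have hy00 : y0 ≠ 0 := by
    rintro rfl
    apply hne
    rw [hy0, mul_zero]
  have h1 : cnt Q (∏ i ∈ A, (i.2.1 • (x i.1).π : 𝓞 K)) = 1 := by
    rw [cnt_prod Q A _ (fun i _ => hpi i.1 i.2.1), Finset.sum_eq_single ⟨j, s, hs⟩]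
    · exact (cnt_translate (hx j) (s : K ≃ₐ[ℚ] K) hQ hQ0 hQD).1 rfl
    · rintro ⟨i, t, ht⟩ _ hne'
      refine (cnt_translate (hx i) (t : K ≃ₐ[ℚ] K) hQ hQ0 hQD).2 ?_
      intro hQ'
      apply hne'
      obtain rfl := idx_eq hx hdist hQ'
      have h4 := eq_of_mem_zpowers hs ht (mem_zpowers_of (hx j) hQ')
      subst h4
      rfl
    · intro h; exact absurd hi h
  rw [hy0, cnt_mul Q hy00 hy00] at h1
  omega

end

end Next

open Reps Descent Next in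
theorem exists_next (K : IntermediateField ℚ Qb) [NumberField K] [IsGalois ℚ K]
    (G : Subgroup (K ≃ₐ[ℚ] K)) (D D' : ℤ) (hD' : D' ≠ 0) (hDD' : D ∣ D')
    (hgen : ∀ (σ : K ≃ₐ[ℚ] K) (P : Ideal (𝓞 K)), P.IsPrime → P ≠ ⊥ →
      P.inertia (K ≃ₐ[ℚ] K) = ⊥ →
      MulAction.stabilizer (K ≃ₐ[ℚ] K) P = Subgroup.zpowers σ →
      ∃ π : 𝓞 K, π ≠ 0 ∧ σ • π = π ∧ ∀ Q : Ideal (𝓞 K), Q.IsPrime → Q ≠ ⊥ → (D : 𝓞 K) ∉ Q →
        (Q = P → cnt Q π = 1) ∧ (Q ≠ P → cnt Q π = 0))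
    {X : Type} [Finite X] [MulAction G X] {J : Type} [Finite J] (τ : J → G) (x : J → PD K)
    (hx : ∀ j, (x j).Good D D' (τ j)) (hdist : ∀ i j, (x i).p = (x j).p → i = j)
    (σ : G) (ε : J → G → ℤˣ) (B : ℕ) :
    ∃ z : PD K, z.Good D D' σ ∧ B < z.p ∧
      ∀ (j : J) (α : X), τ j • α = α → ∀ θ : X,
        sym z.P (∏ s ∈ repsTo (τ j) α (orb σ θ), s • (x j).π) =
          ∏ s ∈ repsTo (τ j) α (orb σ θ), ε j s := by
  classical
  have := Fintype.ofFinite J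
  let I : Type := Σ j : J, {s : G // s ∈ cosetReps (τ j)}
  let v : I → K := fun i => ((i.2.1 • (x i.1).π : 𝓞 K) : K)
  have hpi : ∀ (j : J) (s : G), s • (x j).π ≠ 0 := fun j s h => (hx j).ne ((smul_eq_zero_iff_eq s).1 h)
  have hv : ∀ i, v i ≠ 0 := by
    intro i h
    apply hpi i.1 i.2.1
    exact RingOfIntegers.coe_eq_zero_iff.1 h
  have hind : ∀ A : Finset I, A.Nonempty → ¬ IsSquare (∏ i ∈ A, v i) :=
    fun A hA => not_square hDD' hx hdist A hA
  have hsq : ∀ y : 𝓞 K, ∃ r : Qb, r ^ 2 = ((y : K) : Qb) := fun y =>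
    IsAlgClosed.exists_pow_nat_eq _ (by norm_num)
  choose sq hsq using hsq
  let r : I → Qb := fun i => sq (i.2.1 • (x i.1).π)
  have hr : ∀ i, r i ^ 2 = v i := fun i => hsq _
  let ρ : I → I := fun i => ⟨i.1, rep (τ i.1) (σ * i.2.1), rep_mem _ _⟩
  have hρ : ∀ i, (σ : K ≃ₐ[ℚ] K) (v i) = v (ρ i) := by
    intro i
    have h1 : (rep (τ i.1) (σ * i.2.1)) • (x i.1).π = (σ * i.2.1) • (x i.1).π :=
      rep_smul (σ := τ i.1) (hx i.1).fixed _
    show (σ : K ≃ₐ[ℚ] K) ((i.2.1 • (x i.1).π : 𝓞 K) : K) =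
      (((rep (τ i.1) (σ * i.2.1)) • (x i.1).π : 𝓞 K) : K)
    rw [h1, mul_smul]
    rfl
  obtain ⟨τ0, hτ0, hτr⟩ := exists_signs K v hv hind r hr (σ : K ≃ₐ[ℚ] K) ρ hρ (fun i => ε i.1 i.2.1)
  -- the prime
  let y : J × X × X → 𝓞 K := fun t => if τ t.1 • t.2.1 = t.2.1 then
    ∏ s ∈ repsTo (τ t.1) t.2.1 (orb σ t.2.2), s • (x t.1).π else 1
  let rr : J × X × X → Qb := fun t => if τ t.1 • t.2.1 = t.2.1 then
    ∏ s ∈ repsTo (τ t.1) t.2.1 (orb σ t.2.2), sq (s • (x t.1).π) else 1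
  let a : J × X × X → ℤˣ := fun t => if τ t.1 • t.2.1 = t.2.1 then
    ∏ s ∈ repsTo (τ t.1) t.2.1 (orb σ t.2.2), ε t.1 s else 1
  have hy : ∀ t, y t ≠ 0 := by
    intro t
    simp only [y]
    split_ifs
    · exact Finset.prod_ne_zero_iff.2 fun s _ => hpi _ s
    · exact one_ne_zero
  have hrr : ∀ t, rr t ^ 2 = ((y t : K) : Qb) := by
    intro t
    simp only [rr, y]
    split_ifs
    · rw [← Finset.prod_pow, coe_prod']
      simp only [hsq]
      push_cast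
      rfl
    · simp
  have ha : ∀ t, τ0 (rr t) = ((a t : ℤ) : Qb) * rr t := by
    rintro ⟨j, α, θ⟩
    simp only [rr, a]
    split_ifs with hα
    · have h1 : ∀ s ∈ cosetReps (τ j), τ0 (sq (s • (x j).π)) =
          ((ε j s : ℤ) : Qb) * sq (rep (τ j) (σ * s) • (x j).π) := by
        intro s hs
        exact hτr ⟨j, s, hs⟩
      have h2 := prod_translate (τ j) σ (fun s => s • α ∈ orb σ θ)
        (fun s => sq (rep (τ j) s • (x j).π))
        (fun s k => by rw [mul_smul, zpow_smul_of hα])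
        (fun s k => by rw [rep_mul_zpow])
      have h3 : (cosetReps (τ j)).filter (fun s => (σ * s) • α ∈ orb σ θ) =
          (cosetReps (τ j)).filter (fun s => s • α ∈ orb σ θ) := by
        refine Finset.filter_congr fun s _ => ?_
        rw [mul_smul]
        exact smul_mem_orb_iff _ _ _
      have h4 : ∏ s ∈ repsTo (τ j) α (orb σ θ), sq (rep (τ j) (σ * s) • (x j).π) =
          ∏ s ∈ repsTo (τ j) α (orb σ θ), sq (s • (x j).π) := by
        unfold repsTo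
        have h5 : ∏ s ∈ (cosetReps (τ j)).filter (fun s => s • α ∈ orb σ θ), sq (s • (x j).π) =
            ∏ s ∈ (cosetReps (τ j)).filter (fun s => s • α ∈ orb σ θ), sq (rep (τ j) s • (x j).π) := by
          refine Finset.prod_congr rfl fun s hs => ?_
          rw [rep_of_mem (Finset.mem_filter.1 hs).1]
        rw [h5]
        rw [h3] at h2
        exact h2
      rw [map_prod, Finset.prod_congr rfl (fun s hs => h1 s (by
        unfold repsTo at hs
        exact (Finset.mem_filter.1 hs).1)), Finset.prod_mul_distrib, h4]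
      congr 1
      push_cast
      rfl
    · simp
  obtain ⟨p, P, hp, hBp, hPp, hpP, hin, hst, hsym⟩ := exists_prime K τ0 (σ : K ≃ₐ[ℚ] K) hτ0 y hy rr hrr a ha
    (max B D'.natAbs)
  have hP0 : P ≠ ⊥ := ne_bot_of_mem hp hpP
  obtain ⟨π, hπ0, hπf, hπc⟩ := hgen (σ : K ≃ₐ[ℚ] K) P hPp hP0 hin hst
  refine ⟨⟨p, P, π⟩, ⟨hp, hPp, hpP, ?_, hst, hπ0, hπf, hπc⟩, lt_of_le_of_lt (le_max_left _ _) hBp, ?_⟩
  · intro h
    have hc : IsCoprime (p : ℤ) D' := by
      rw [Int.isCoprime_iff_gcd_eq_one, Int.gcd_eq_natAbs]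
      have h1 : (p : ℤ).natAbs = p := rfl
      rw [h1]
      refine (Nat.Prime.coprime_iff_not_dvd hp).2 fun hdvd => ?_
      have := Nat.le_of_dvd (Int.natAbs_pos.2 hD') hdvd
      have h2 := lt_of_le_of_lt (le_max_right B D'.natAbs) hBp
      omega
    obtain ⟨u, w, huw⟩ := hc
    apply hPp.ne_top
    rw [Ideal.eq_top_iff_one]
    have h3 : (1 : 𝓞 K) = (u : 𝓞 K) * (p : 𝓞 K) + (w : 𝓞 K) * (D' : 𝓞 K) := by
      have := congrArg (fun z : ℤ => (z : 𝓞 K)) huw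
      push_cast at this
      exact this.symm
    rw [h3]
    exact P.add_mem (P.mul_mem_left _ hpP) (P.mul_mem_left _ h)
  · intro j α hα θ
    have h1 := (hsym (j, α, θ)).2
    simp only [y, a, if_pos hα] at h1
    exact h1

end Pool.TP2
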