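import Pool.Agent.TP2.Defs

/-!
Project TP2, module Selmer: finiteness of the classes modulo squares of the algebraic integers
with even valuations outside of finitely many primes, fixed by a group of automorphisms.
-/

open NumberField
open scoped Pointwise BigOperators nonZeroDivisors

namespace Pool.TP2

namespace Selmer

/-- finitely many classes -/
def FinCls {α : Type} (S : Set α) (R : α → α → Prop) : Prop :=
  ∃ (Z : Type) (_ : Finite Z) (φ : α → Z), ∀ w ∈ S, ∀ w' ∈ S, φ w = φ w' → R w w'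

theorem FinCls.fiber {α : Type} {S : Set α} {R : α → α → Prop} {Z : Type} [Finite Z]
    (f : α → Z) (h : ∀ z, FinCls (S ∩ f ⁻¹' {z}) R) : FinCls S R := by
  choose E hE φ hφ using h
  refine ⟨Σ z, E z, inferInstance, fun w => ⟨f w, φ (f w) w⟩, ?_⟩
  intro w hw w' hw' heq
  rw [Sigma.mk.injEq] at heq
  obtain ⟨h1, h2⟩ := heq
  refine hφ (f w) w ⟨hw, rfl⟩ w' ⟨hw', h1.symm⟩ ?_
  rw [← h1] at h2
  exact eq_of_heq h2

theorem FinCls.pick {α : Type} {S : Set α} {R : α → α → Prop}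
    (h : ∀ w0 ∈ S, FinCls S R) : FinCls S R := by
  by_cases hS : ∃ w0, w0 ∈ S
  · obtain ⟨w0, hw0⟩ := hS
    exact h w0 hw0
  · refine ⟨Unit, inferInstance, fun _ => (), fun w hw => absurd ⟨w, hw⟩ hS⟩

variable {K : Type} [Field K] [NumberField K]

theorem dvd_of_sq_dvd {a b : 𝓞 K} (h : a ^ 2 ∣ b ^ 2) : a ∣ b :=
  (IsIntegrallyClosed.pow_dvd_pow_iff two_ne_zero).1 h

/-- extraction of a square root of a quotient -/
theorem exists_sqrt {a b c : 𝓞 K} (ha : a ≠ 0) (h : c * a ^ 2 = b ^ 2) :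
    ∃ g : 𝓞 K, g * a = b ∧ c = g ^ 2 := by
  have h1 : a ^ 2 ∣ b ^ 2 := ⟨c, by rw [← h, mul_comm]⟩
  obtain ⟨g, hg⟩ := dvd_of_sq_dvd h1
  refine ⟨g, by rw [hg, mul_comm], ?_⟩
  have h2 : c * a ^ 2 = g ^ 2 * a ^ 2 := by
    rw [h, hg]
    ring
  exact mul_right_cancel₀ (pow_ne_zero 2 ha) h2

/-- units modulo squares -/
theorem units_mod_squares : ∃ (E : Type) (_ : Finite E) (e : (𝓞 K)ˣ → E),
    ∀ u v : (𝓞 K)ˣ, e u = e v → ∃ δ : (𝓞 K)ˣ, u * v = δ ^ 2 := by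
  set N : Subgroup (𝓞 K)ˣ := (powMonoidHom 2 : (𝓞 K)ˣ →* (𝓞 K)ˣ).range with hN
  have hfg : Group.FG (𝓞 K)ˣ := by
    rw [Group.fg_iff_monoid_fg]
    infer_instance
  have hfg' : Group.FG ((𝓞 K)ˣ ⧸ N) := QuotientGroup.fg N
  have htor : IsMulTorsion ((𝓞 K)ˣ ⧸ N) := by
    intro x
    obtain ⟨u, rfl⟩ := QuotientGroup.mk_surjective x
    rw [isOfFinOrder_iff_pow_eq_one]
    refine ⟨2, by norm_num, ?_⟩
    rw [← QuotientGroup.mk_pow, QuotientGroup.eq_one_iff]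
    exact ⟨u, rfl⟩
  have hfin : Finite ((𝓞 K)ˣ ⧸ N) := CommGroup.finite_of_fg_isMulTorsion ((𝓞 K)ˣ ⧸ N) htor
  refine ⟨(𝓞 K)ˣ ⧸ N, hfin, fun u => (u : (𝓞 K)ˣ ⧸ N), fun u v huv => ?_⟩
  rw [QuotientGroup.eq] at huv
  obtain ⟨δ, hδ⟩ := huv
  refine ⟨u * δ, ?_⟩
  have h1 : δ ^ 2 = u⁻¹ * v := hδ
  rw [mul_pow, h1, pow_two]
  group

/-- multisets: odd part and half -/
theorem exists_half {α : Type} [DecidableEq α] (m : Multiset α) :
    ∃ b : Multiset α, m = (m.toFinset.filter (fun a => Odd (m.count a))).val + 2 • b := by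
  refine ⟨Finsupp.toMultiset (Finsupp.mapRange (fun n => n / 2) rfl (Multiset.toFinsupp m)), ?_⟩
  ext a
  rw [Multiset.count_add, Multiset.count_nsmul, Finsupp.count_toMultiset, Finsupp.mapRange_apply,
    Multiset.toFinsupp_apply]
  have hnd := (m.toFinset.filter (fun a => Odd (m.count a))).nodup
  rw [Multiset.count_eq_of_nodup hnd]
  have hmem : a ∈ (m.toFinset.filter (fun a => Odd (m.count a))).val ↔ Odd (m.count a) := by
    rw [Finset.mem_val, Finset.mem_filter, Multiset.mem_toFinset]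
    constructor
    · exact fun h => h.2
    · intro h
      refine ⟨?_, h⟩
      rw [← Multiset.count_pos]
      exact h.pos
  by_cases h : Odd (m.count a)
  · rw [if_pos (hmem.2 h)]
    obtain ⟨k, hk⟩ := h
    omega
  · rw [if_neg (fun hh => h (hmem.1 hh))]
    rw [Nat.not_odd_iff_even] at h
    obtain ⟨k, hk⟩ := h
    omega

/-- the elements with even valuations outside of `D` -/
def Good (D : ℤ) (w : 𝓞 K) : Prop :=
  w ≠ 0 ∧ ∀ Q : Ideal (𝓞 K), Q.IsPrime → Q ≠ ⊥ → (D : 𝓞 K) ∉ Q → Even (cnt Q w)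

open Classical in
/-- the primes with odd valuation -/
noncomputable def oddPart (w : 𝓞 K) : Finset (Ideal (𝓞 K)) :=
  (UniqueFactorizationMonoid.normalizedFactors (Ideal.span {w})).toFinset.filter
    (fun Q => Odd ((UniqueFactorizationMonoid.normalizedFactors (Ideal.span {w})).count Q))

open Classical in
theorem oddPart_subset {D : ℤ} (hD : D ≠ 0) {w : 𝓞 K} (hw : Good D w) :
    oddPart w ⊆ (UniqueFactorizationMonoid.normalizedFactors (Ideal.span {(D : 𝓞 K)})).toFinset := by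
  intro Q hQ
  unfold oddPart at hQ
  rw [Finset.mem_filter, Multiset.mem_toFinset] at hQ
  have hspan : Ideal.span {w} ≠ 0 := by
    rw [Ideal.zero_eq_bot, Ne, Ideal.span_singleton_eq_bot]
    exact hw.1
  have hprime : Prime Q := UniqueFactorizationMonoid.prime_of_normalized_factor Q hQ.1
  have hQp : Q.IsPrime := Ideal.isPrime_of_prime hprime
  have hQ0 : Q ≠ ⊥ := by
    rw [← Ideal.zero_eq_bot]
    exact hprime.ne_zero
  have hDQ : (D : 𝓞 K) ∈ Q := by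
    by_contra h
    have h1 := hw.2 Q hQp hQ0 h
    unfold cnt at h1
    rw [← Nat.not_odd_iff_even] at h1
    exact h1 hQ.2
  rw [Multiset.mem_toFinset]
  have hD' : Ideal.span {(D : 𝓞 K)} ≠ 0 := by
    rw [Ideal.zero_eq_bot, Ne, Ideal.span_singleton_eq_bot]
    exact_mod_cast hD
  rw [UniqueFactorizationMonoid.mem_normalizedFactors_iff hD']
  refine ⟨hprime, ?_⟩
  rw [Ideal.dvd_span_singleton]
  exact hDQ

open Classical in
/-- the square part of the factorisation -/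
theorem exists_sqPart {w : 𝓞 K} (hw : w ≠ 0) : ∃ B : Ideal (𝓞 K), B ≠ 0 ∧
    Ideal.span {w} = (∏ Q ∈ oddPart w, Q) * B ^ 2 := by
  have hspan : Ideal.span {w} ≠ 0 := by
    rw [Ideal.zero_eq_bot, Ne, Ideal.span_singleton_eq_bot]
    exact hw
  obtain ⟨b, hb⟩ := exists_half (UniqueFactorizationMonoid.normalizedFactors (Ideal.span {w}))
  have h1 : Ideal.span {w} = (∏ Q ∈ oddPart w, Q) * b.prod ^ 2 := by
    have h2 : (UniqueFactorizationMonoid.normalizedFactors (Ideal.span {w})).prod =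
        Ideal.span {w} := by
      have h3 := UniqueFactorizationMonoid.prod_normalizedFactors hspan
      exact associated_iff_eq.1 h3
    have h4 := congrArg Multiset.prod hb
    rw [Multiset.prod_add, Multiset.prod_nsmul, h2] at h4
    rw [h4]
    congr 1
    unfold oddPart
    rw [Finset.prod_eq_multiset_prod, Multiset.map_id']
  refine ⟨b.prod, ?_, h1⟩
  intro h0
  rw [h0] at h1
  apply hspan
  rw [h1]
  simp

open Classical in
/-- the class of the square part -/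
noncomputable def sqClass (w : 𝓞 K) : ClassGroup (𝓞 K) :=
  if h : w ≠ 0 then
    ClassGroup.mk0 ⟨(exists_sqPart h).choose, mem_nonZeroDivisors_iff_ne_zero.2
      (exists_sqPart h).choose_spec.1⟩
  else 1

theorem exists_unit {w w0 : 𝓞 K} (hw : w ≠ 0) (hw0 : w0 ≠ 0) (hodd : oddPart w = oddPart w0)
    (hcl : sqClass w = sqClass w0) : ∃ (x x0 : 𝓞 K) (u : (𝓞 K)ˣ), x ≠ 0 ∧ x0 ≠ 0 ∧
      w * x ^ 2 * u = w0 * x0 ^ 2 := by
  unfold sqClass at hcl
  rw [dif_pos hw, dif_pos hw0, ClassGroup.mk0_eq_mk0_iff] at hcl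
  obtain ⟨x, x0, hx, hx0, h⟩ := hcl
  have h1 := (exists_sqPart hw).choose_spec.2
  have h2 := (exists_sqPart hw0).choose_spec.2
  set B := (exists_sqPart hw).choose with hB
  set B0 := (exists_sqPart hw0).choose with hB0
  have h' : Ideal.span {x} * B = Ideal.span {x0} * B0 := h
  have h3 : Ideal.span {w * x ^ 2} = Ideal.span {w0 * x0 ^ 2} := by
    rw [← Ideal.span_singleton_mul_span_singleton, ← Ideal.span_singleton_mul_span_singleton,
      ← Ideal.span_singleton_pow, ← Ideal.span_singleton_pow, h1, h2, hodd]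
    calc (∏ Q ∈ oddPart w0, Q) * B ^ 2 * Ideal.span {x} ^ 2 =
        (∏ Q ∈ oddPart w0, Q) * (Ideal.span {x} * B) ^ 2 := by ring
      _ = (∏ Q ∈ oddPart w0, Q) * (Ideal.span {x0} * B0) ^ 2 := by rw [h']
      _ = _ := by ring
  rw [Ideal.span_singleton_eq_span_singleton] at h3
  obtain ⟨u, hu⟩ := h3
  exact ⟨x, x0, u, hx, hx0, hu⟩

/-- the product is a square -/
def IsSq2 (w w' : 𝓞 K) : Prop := ∃ κ : 𝓞 K, w * w' = κ ^ 2

theorem finCls_good (D : ℤ) (hD : D ≠ 0) : FinCls {w : 𝓞 K | Good D w} IsSq2 := by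
  classical
  -- fibres of the odd part
  set bad := (UniqueFactorizationMonoid.normalizedFactors (Ideal.span {(D : 𝓞 K)})).toFinset
    with hbad
  refine FinCls.fiber (Z := bad.powerset) (fun w => if h : oddPart w ∈ bad.powerset then
    ⟨oddPart w, h⟩ else ⟨∅, Finset.empty_mem_powerset _⟩) fun A => ?_
  refine FinCls.fiber (Z := ClassGroup (𝓞 K)) sqClass fun c => ?_
  refine FinCls.pick fun w0 hw0 => ?_
  obtain ⟨E, hE, e, he⟩ := units_mod_squares (K := K)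
  have hset : ∀ w, w ∈ ({w : 𝓞 K | Good D w} ∩ (fun w => if h : oddPart w ∈ bad.powerset then
      (⟨oddPart w, h⟩ : bad.powerset) else ⟨∅, Finset.empty_mem_powerset _⟩) ⁻¹' {A}) ∩
      sqClass ⁻¹' {c} → ∃ (u : (𝓞 K)ˣ) (x x0 : 𝓞 K), x ≠ 0 ∧ x0 ≠ 0 ∧
        w * x ^ 2 * u = w0 * x0 ^ 2 := by
    intro w hw
    have h1 : ∀ v, v ∈ ({w : 𝓞 K | Good D w} ∩ (fun w => if h : oddPart w ∈ bad.powerset then
      (⟨oddPart w, h⟩ : bad.powerset) else ⟨∅, Finset.empty_mem_powerset _⟩) ⁻¹' {A}) →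
        oddPart v = A.1 := by
      intro v hv
      have h2 : oddPart v ∈ bad.powerset := Finset.mem_powerset.2 (oddPart_subset hD hv.1)
      have h3 := hv.2
      simp only [Set.mem_preimage, Set.mem_singleton_iff] at h3
      rw [dif_pos h2] at h3
      rw [← h3]
    have hodd : oddPart w = oddPart w0 := by rw [h1 w hw.1, h1 w0 hw0.1]
    have hcl : sqClass w = sqClass w0 := by
      have h4 : sqClass w = c := hw.2
      have h5 : sqClass w0 = c := hw0.2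
      rw [h4, h5]
    obtain ⟨x, x0, u, h⟩ := exists_unit hw.1.1.1 hw0.1.1.1 hodd hcl
    exact ⟨u, x, x0, h⟩
  refine ⟨E, hE, fun w => if h : ∃ (u : (𝓞 K)ˣ) (x x0 : 𝓞 K), x ≠ 0 ∧ x0 ≠ 0 ∧
        w * x ^ 2 * u = w0 * x0 ^ 2 then e h.choose else e 1, ?_⟩
  intro w hw w' hw' heq
  have h1 := hset w hw
  have h2 := hset w' hw'
  simp only [dif_pos h1, dif_pos h2] at heq
  obtain ⟨δ, hδ⟩ := he _ _ heq
  obtain ⟨x, x0, hx, hx0, hxx⟩ := h1.choose_spec
  obtain ⟨y, y0, hy, hy0, hyy⟩ := h2.choose_spec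
  set u := h1.choose with hu
  set v := h2.choose with hv
  have hδ' : ((u : (𝓞 K)ˣ) : 𝓞 K) * ((v : (𝓞 K)ˣ) : 𝓞 K) = ((δ : (𝓞 K)ˣ) : 𝓞 K) ^ 2 := by
    rw [← Units.val_mul, hδ, Units.val_pow_eq_pow_val]
  have h3 : w * w' * (x * y * δ) ^ 2 = (w0 * x0 * y0) ^ 2 := by
    calc w * w' * (x * y * δ) ^ 2 = w * w' * (x * y) ^ 2 * (δ : 𝓞 K) ^ 2 := by ring
      _ = w * w' * (x * y) ^ 2 * (u * v) := by rw [hδ']
      _ = (w * x ^ 2 * u) * (w' * y ^ 2 * v) := by ring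
      _ = (w0 * x0 ^ 2) * (w0 * y0 ^ 2) := by rw [hxx, hyy]
      _ = _ := by ring
  obtain ⟨g, -, hg⟩ := exists_sqrt (mul_ne_zero (mul_ne_zero hx hy) δ.ne_zero) h3
  exact ⟨g, hg⟩

/-- the product is the square of a fixed element -/
def IsSqH (H : Subgroup (K ≃ₐ[ℚ] K)) (w w' : 𝓞 K) : Prop :=
  ∃ g : 𝓞 K, (∀ s ∈ H, s • g = g) ∧ w * w' = g ^ 2

theorem finCls_fixed (D : ℤ) (hD : D ≠ 0) (H : Subgroup (K ≃ₐ[ℚ] K)) :
    FinCls {w : 𝓞 K | Good D w ∧ ∀ s ∈ H, s • w = w} (IsSqH H) := by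
  classical
  obtain ⟨Z, hZ, φ, hφ⟩ := finCls_good (K := K) D hD
  refine FinCls.fiber (Z := Z) φ fun z => FinCls.pick fun w0 hw0 => ?_
  have hsq : ∀ w, w ∈ {w : 𝓞 K | Good D w ∧ ∀ s ∈ H, s • w = w} ∩ φ ⁻¹' {z} →
      ∃ κ : 𝓞 K, w * w0 = κ ^ 2 := by
    intro w hw
    refine hφ w hw.1.1 w0 hw0.1.1 ?_
    have h4 : φ w = z := hw.2
    have h5 : φ w0 = z := hw0.2
    rw [h4, h5]
  refine ⟨H → Bool, inferInstance, fun w => if h : ∃ κ : 𝓞 K, w * w0 = κ ^ 2 then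
    fun s => decide ((s : K ≃ₐ[ℚ] K) • h.choose = h.choose) else fun _ => true, ?_⟩
  intro w hw w' hw' heq
  have h1 := hsq w hw
  have h2 := hsq w' hw'
  simp only [dif_pos h1, dif_pos h2] at heq
  have hκ := h1.choose_spec
  have hκ' := h2.choose_spec
  set κ := h1.choose with hκd
  set κ' := h2.choose with hκd'
  have hsign : ∀ v ∈ {w : 𝓞 K | Good D w ∧ ∀ s ∈ H, s • w = w} ∩ φ ⁻¹' {z}, ∀ k : 𝓞 K,
      v * w0 = k ^ 2 → ∀ s ∈ H, s • k = k ∨ s • k = -k := by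
    intro v hv k hk s hs
    have h3 : (s • k) ^ 2 = k ^ 2 := by
      rw [← smul_pow', ← hk, smul_mul', hv.1.2 s hs, hw0.1.2 s hs]
    exact sq_eq_sq_iff_eq_or_eq_neg.1 h3
  have hfix : ∀ s ∈ H, s • (κ * κ') = κ * κ' := by
    intro s hs
    rw [smul_mul']
    have h4 := congrFun heq ⟨s, hs⟩
    simp only [decide_eq_decide] at h4
    by_cases h5 : s • κ = κ
    · rw [h5, h4.1 h5]
    · have h6 : s • κ' ≠ κ' := fun h => h5 (h4.2 h)
      rw [(hsign w hw κ hκ s hs).resolve_left h5, (hsign w' hw' κ' hκ' s hs).resolve_left h6]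
      ring
  have h7 : w * w' * w0 ^ 2 = (κ * κ') ^ 2 := by
    calc w * w' * w0 ^ 2 = (w * w0) * (w' * w0) := by ring
      _ = _ := by rw [hκ, hκ']; ring
  have hw00 : w0 ≠ 0 := hw0.1.1.1
  obtain ⟨g, hg1, hg2⟩ := exists_sqrt hw00 h7
  refine ⟨g, fun s hs => ?_, hg2⟩
  have h8 : s • g * w0 = g * w0 := by
    conv_lhs => rw [← hw0.1.2 s hs]
    rw [← smul_mul', hg1, hfix s hs]
  exact mul_right_cancel₀ hw00 h8

end Selmer

open Selmer in
theorem finite_classes (K : Type) [Field K] [NumberField K] (D : ℤ) (hD : D ≠ 0)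
    (H : Subgroup (K ≃ₐ[ℚ] K)) :
    ∃ U : Finset (𝓞 K), (∀ u ∈ U, u ≠ 0) ∧ ∀ w : 𝓞 K, w ≠ 0 → (∀ s ∈ H, s • w = w) →
      (∀ Q : Ideal (𝓞 K), Q.IsPrime → Q ≠ ⊥ → (D : 𝓞 K) ∉ Q → Even (cnt Q w)) →
      ∃ u ∈ U, ∃ g : 𝓞 K, (∀ s ∈ H, s • u = u) ∧ (∀ s ∈ H, s • g = g) ∧ w * u = g ^ 2 := by
  classical
  obtain ⟨Z, hZ, φ, hφ⟩ := finCls_fixed (K := K) D hD H
  have := Fintype.ofFinite Z
  set S : Set (𝓞 K) := {w : 𝓞 K | Good D w ∧ ∀ s ∈ H, s • w = w} with hS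
  have hex : ∀ z : Z, ∃ u : 𝓞 K, u ≠ 0 ∧ ((∃ w ∈ S, φ w = z) → u ∈ S ∧ φ u = z) := by
    intro z
    by_cases h : ∃ w ∈ S, φ w = z
    · obtain ⟨w, hw, hz⟩ := h
      exact ⟨w, hw.1.1, fun _ => ⟨hw, hz⟩⟩
    · exact ⟨1, one_ne_zero, fun h' => absurd h' h⟩
  choose u hu0 hu using hex
  refine ⟨Finset.univ.image u, ?_, ?_⟩
  · intro v hv
    obtain ⟨z, -, rfl⟩ := Finset.mem_image.1 hv
    exact hu0 z
  · intro w hw hfix hQ
    have hwS : w ∈ S := ⟨⟨hw, hQ⟩, hfix⟩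
    obtain ⟨h1, h2⟩ := hu (φ w) ⟨w, hwS, rfl⟩
    obtain ⟨g, hg, hg2⟩ := hφ w hwS (u (φ w)) h1 h2.symm
    exact ⟨u (φ w), Finset.mem_image_of_mem _ (Finset.mem_univ _), g, h1.2, hg, hg2⟩

end Pool.TP2
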