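import Pool.Agent.TP2.Defs

/-!
Building a tree from the leaves to the root.
-/

namespace Pool.TP2

namespace Tree

/-- A finite sequence in which every element is chosen after all the previous ones. -/
theorem exists_seq {M Z : Type} (good : M → Z → Prop) (rk : Z → ℕ)
    (R : ℕ → M → M → Z → Z → Prop)
    (next : ∀ {J : Type} [Finite J] (mv : J → M) (z : J → Z), (∀ j, good (mv j) (z j)) →
      (∀ i j, rk (z i) = rk (z j) → i = j) → ∀ (k : ℕ) (m : M) (B : ℕ),
      ∃ z' : Z, good m z' ∧ B < rk z' ∧ ∀ j, R k m (mv j) z' (z j)) (B : ℕ)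
    (kk : ℕ → ℕ) (mm : ℕ → M) (L : ℕ) :
    ∃ z : ℕ → Z, (∀ i < L, good (mm i) (z i) ∧ B < rk (z i)) ∧
      ∀ i < L, ∀ j < i, rk (z j) < rk (z i) ∧ R (kk i) (mm i) (mm j) (z i) (z j) := by
  induction L with
  | zero =>
    obtain ⟨z', -, -, -⟩ := next (J := Empty) (fun j => j.elim) (fun j => j.elim)
      (fun j => j.elim) (fun j => j.elim) 0 (mm 0) 0
    exact ⟨fun _ => z', fun i hi => absurd hi (Nat.not_lt_zero i),
      fun i hi => absurd hi (Nat.not_lt_zero i)⟩
  | succ L ih =>
    obtain ⟨z, h1, h2⟩ := ih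
    have hinj : ∀ i j : Fin L, rk (z i) = rk (z j) → i = j := by
      intro i j hij
      rcases lt_trichotomy (i : ℕ) j with h | h | h
      · exact absurd hij (h2 j j.2 i h).1.ne
      · exact Fin.ext h
      · exact absurd hij (h2 i i.2 j h).1.ne'
    obtain ⟨z', g1, g2, g3⟩ := next (J := Fin L) (fun j => mm j) (fun j => z j)
      (fun j => (h1 j j.2).1) hinj (kk L) (mm L) (max B ((Finset.range L).sup fun i => rk (z i)))
    have hlt : ∀ i < L, rk (z i) < rk z' := by
      intro i hi
      have : rk (z i) ≤ (Finset.range L).sup fun i => rk (z i) :=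
        Finset.le_sup (f := fun i => rk (z i)) (Finset.mem_range.2 hi)
      exact lt_of_le_of_lt (this.trans (le_max_right _ _)) g2
    refine ⟨Function.update z L z', ?_, ?_⟩
    · intro i hi
      rcases Nat.lt_succ_iff_lt_or_eq.1 hi with h | rfl
      · rw [Function.update_of_ne h.ne]
        exact h1 i h
      · rw [Function.update_self]
        exact ⟨g1, lt_of_le_of_lt (le_max_left _ _) g2⟩
    · intro i hi j hj
      rcases Nat.lt_succ_iff_lt_or_eq.1 hi with h | rfl
      · rw [Function.update_of_ne h.ne, Function.update_of_ne (hj.trans h).ne]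
        exact h2 i h j hj
      · rw [Function.update_self, Function.update_of_ne hj.ne]
        exact ⟨hlt j hj, g3 ⟨j, hj⟩⟩

end Tree

theorem exists_tree {M Z : Type} [Finite M] (good : M → Z → Prop) (rk : Z → ℕ)
    (R : ℕ → M → M → Z → Z → Prop)
    (next : ∀ {J : Type} [Finite J] (mv : J → M) (z : J → Z), (∀ j, good (mv j) (z j)) →
      (∀ i j, rk (z i) = rk (z j) → i = j) → ∀ (k : ℕ) (m : M) (B : ℕ),
      ∃ z' : Z, good m z' ∧ B < rk z' ∧ ∀ j, R k m (mv j) z' (z j)) (N B : ℕ) :
    ∃ F : (Fin N → M) → Fin N → Z,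
      (∀ x k, good (x k) (F x k) ∧ B < rk (F x k)) ∧
      (∀ x y k, (∀ j ≤ k, x j = y j) → F x k = F y k) ∧
      (∀ (x : Fin N → M) (k m : Fin N), rk (F x k) = rk (F x m) → k = m) ∧
      (∀ (x : Fin N → M) (k m : Fin N), k < m → R k (x k) (x m) (F x k) (F x m)) := by
  classical
  rcases isEmpty_or_nonempty M with hM | ⟨⟨m0⟩⟩
  · exact ⟨fun x k => isEmptyElim (x k), fun x k => isEmptyElim (x k),
      fun x y k => isEmptyElim (x k), fun x k m => isEmptyElim (x k),
      fun x k m => isEmptyElim (x k)⟩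
  -- nodes
  let Nd : Type := Fin N × (Fin N → Option M)
  have : Finite Nd := inferInstanceAs (Finite (Fin N × (Fin N → Option M)))
  obtain ⟨n, ⟨e0⟩⟩ := Finite.exists_equiv_fin Nd
  let e : Nd → ℕ := fun u => (N - u.1) * n + e0 u
  have elt : ∀ u v : Nd, u.1 < v.1 → e v < e u := by
    intro u v huv
    have h1 : N - (v.1 : ℕ) + 1 ≤ N - (u.1 : ℕ) := by
      have := v.1.2
      have := u.1.2
      have : (u.1 : ℕ) < v.1 := huv
      omega
    have h2 := (e0 v).2
    have h3 := Nat.mul_le_mul_right n h1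
    have h4 : e v < (N - (v.1 : ℕ) + 1) * n := by
      have : (N - (v.1 : ℕ) + 1) * n = (N - (v.1 : ℕ)) * n + n := by ring
      rw [this]
      exact Nat.add_lt_add_left h2 _
    exact lt_of_lt_of_le (lt_of_lt_of_le h4 h3) (Nat.le_add_right _ _)
  have einj : Function.Injective e := by
    intro u v huv
    rcases lt_trichotomy u.1 v.1 with h | h | h
    · exact absurd huv (elt u v h).ne'
    · have : ((e0 u : Fin n) : ℕ) = e0 v := by
        have h' : (N - (u.1 : ℕ)) * n + (e0 u : ℕ) = (N - (v.1 : ℕ)) * n + (e0 v : ℕ) := huv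
        rw [h] at h'
        exact Nat.add_left_cancel h'
      exact e0.injective (Fin.ext this)
    · exact absurd huv (elt v u h).ne
  have ebd : ∀ u, e u < (N + 1) * n + 1 := by
    intro u
    have h2 := (e0 u).2
    have h3 : (N - (u.1 : ℕ)) * n ≤ N * n := Nat.mul_le_mul_right n (Nat.sub_le _ _)
    have h4 : (N + 1) * n = N * n + n := by ring
    rw [h4]
    have : e u = (N - (u.1 : ℕ)) * n + e0 u := rfl
    omega
  let kk : ℕ → ℕ := fun i => if h : ∃ u, e u = i then ((h.choose.1 : Fin N) : ℕ) else 0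
  let mm : ℕ → M := fun i => if h : ∃ u, e u = i then ((h.choose.2 h.choose.1)).getD m0 else m0
  have hch : ∀ (u : Nd) (h : ∃ v, e v = e u), h.choose = u := fun u h => einj h.choose_spec
  have hkk : ∀ u, kk (e u) = u.1 := by
    intro u
    have h : ∃ v, e v = e u := ⟨u, rfl⟩
    simp only [kk]
    rw [dif_pos h, hch u h]
  have hmm : ∀ u, mm (e u) = (u.2 u.1).getD m0 := by
    intro u
    have h : ∃ v, e v = e u := ⟨u, rfl⟩
    simp only [mm]
    rw [dif_pos h, hch u h]
  obtain ⟨z, h1, h2⟩ := Tree.exists_seq good rk R next B kk mm ((N + 1) * n + 1)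
  let nd : (Fin N → M) → Fin N → Nd := fun x k => (k, fun j => if j ≤ k then some (x j) else none)
  have hmv : ∀ x k, mm (e (nd x k)) = x k := by
    intro x k
    rw [hmm]
    simp [nd]
  refine ⟨fun x k => z (e (nd x k)), ?_, ?_, ?_, ?_⟩
  · intro x k
    have := h1 _ (ebd (nd x k))
    rw [hmv] at this
    exact this
  · intro x y k hxy
    have : nd x k = nd y k := by
      refine Prod.ext rfl (funext fun j => ?_)
      change (if j ≤ k then some (x j) else none) = (if j ≤ k then some (y j) else none)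
      by_cases hj : j ≤ k
      · rw [if_pos hj, if_pos hj, hxy j hj]
      · rw [if_neg hj, if_neg hj]
    change z (e (nd x k)) = z (e (nd y k))
    rw [this]
  · intro x k m hkm
    rcases lt_trichotomy k m with h | h | h
    · exact absurd hkm (h2 _ (ebd (nd x k)) _ (elt (nd x k) (nd x m) h)).1.ne'
    · exact h
    · exact absurd hkm (h2 _ (ebd (nd x m)) _ (elt (nd x m) (nd x k) h)).1.ne
  · intro x k m hkm
    have := (h2 _ (ebd (nd x k)) _ (elt (nd x k) (nd x m) hkm)).2
    rw [hkk, hmv, hmv] at this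
    exact this

end Pool.TP2
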