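import Pool.Agent.TP2.Defs

/-!
Average weight less than one for group actions without fixed points.
-/

open NumberField Polynomial
open scoped Pointwise BigOperators

namespace Pool.TP2

namespace Weights

set_option linter.unusedSectionVars false

variable {G X : Type} [Group G] [Fintype X] [MulAction G X]

open Classical in
/-- The fixed points in `S`. -/
noncomputable def fx (S : Set X) (σ : G) : Finset X :=
  Finset.univ.filter fun α => σ • α = α ∧ α ∈ S

open Classical in
/-- The chosen representatives of orbits in `S`. -/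
noncomputable def ob (S : Set X) (R : G → Finset X) (σ : G) : Finset X :=
  (R σ).filter fun θ => θ ∈ S

open Classical in
/-- The weight of a group element. -/
noncomputable def W (S : Set X) (R : G → Finset X) (σ : G) : ℝ :=
  ∑ α with σ • α = α ∧ α ∈ S,
      (if ∃ θ ∈ R σ, θ ≠ α ∧ θ ∈ S ∧ Odd (orbF σ θ).card then (2 : ℝ) else 1) *
        (1 / 2 : ℝ) ^ ((R σ).filter fun θ => θ ≠ α ∧ θ ∈ S).card

theorem zpow_fixed {σ : G} {x : X} (h : σ • x = x) (i : ℤ) : σ ^ i • x = x := by
  have h1 : σ ∈ MulAction.stabilizer G x := h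
  exact (MulAction.stabilizer G x).zpow_mem h1 i

theorem orb_symm {σ : G} {x y : X} (h : y ∈ orb σ x) : x ∈ orb σ y := by
  obtain ⟨i, rfl⟩ := h
  exact ⟨-i, by rw [smul_smul, ← zpow_add, neg_add_cancel, zpow_zero, one_smul]⟩

theorem orb_trans {σ : G} {x y z : X} (h : y ∈ orb σ x) (h' : z ∈ orb σ y) : z ∈ orb σ x := by
  obtain ⟨i, rfl⟩ := h
  obtain ⟨j, rfl⟩ := h'
  exact ⟨j + i, by rw [smul_smul, ← zpow_add]⟩

theorem orb_fixed {σ : G} {x y : X} (h : σ • x = x) (h' : y ∈ orb σ x) : y = x := by
  obtain ⟨i, rfl⟩ := h'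
  exact zpow_fixed h i

theorem mem_R_of_fixed {R : G → Finset X} {σ : G}
    (hR : ∀ x : X, ∃! θ, θ ∈ R σ ∧ θ ∈ orb σ x) {α : X} (h : σ • α = α) : α ∈ R σ := by
  obtain ⟨θ, ⟨h1, h2⟩, -⟩ := hR α
  rwa [orb_fixed h h2] at h1

theorem fx_sub {S : Set X} {R : G → Finset X} {σ : G}
    (hR : ∀ x : X, ∃! θ, θ ∈ R σ ∧ θ ∈ orb σ x) : fx S σ ⊆ ob S R σ := by
  intro α hα
  simp only [fx, ob, Finset.mem_filter, Finset.mem_univ, true_and] at hα ⊢
  exact ⟨mem_R_of_fixed hR hα.1, hα.2⟩

theorem W_le {S : Set X} {R : G → Finset X} {σ : G}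
    (hR : ∀ x : X, ∃! θ, θ ∈ R σ ∧ θ ∈ orb σ x) :
    W S R σ ≤ ((fx S σ).card : ℝ) * (2 * (1 / 2 : ℝ) ^ ((ob S R σ).card - 1)) := by
  classical
  unfold W
  refine (Finset.sum_le_card_nsmul _ _ (2 * (1 / 2 : ℝ) ^ ((ob S R σ).card - 1)) ?_).trans ?_
  · intro α hα
    have hα' : α ∈ ob S R σ := fx_sub hR (by
      unfold fx
      convert hα)
    have h1 : (((R σ).filter fun θ => θ ≠ α ∧ θ ∈ S)).card = (ob S R σ).card - 1 := by
      rw [← Finset.card_erase_of_mem hα']
      congr 1
      ext θ
      simp only [ob, Finset.mem_filter, Finset.mem_erase]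
      tauto
    rw [h1]
    apply mul_le_mul_of_nonneg_right _ (by positivity)
    split_ifs <;> norm_num
  · rw [nsmul_eq_mul]
    apply le_of_eq
    congr 2

theorem rep_ne {S : Set X} {R : G → Finset X} {σ : G}
    (hS : ∀ x ∈ S, ∀ g : G, g • x ∈ S)
    (hR : ∀ x : X, ∃! θ, θ ∈ R σ ∧ θ ∈ orb σ x) {y : X} (hy : y ∈ S) :
    ∃ θ ∈ ob S R σ, θ ∈ orb σ y := by
  obtain ⟨θ, ⟨h1, h2⟩, -⟩ := hR y
  refine ⟨θ, ?_, h2⟩
  simp only [ob, Finset.mem_filter]
  refine ⟨h1, ?_⟩
  obtain ⟨i, rfl⟩ := h2
  exact hS y hy _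

theorem not_fixed {σ : G} {x y : X} (h : σ • x ≠ x) (hy : y ∈ orb σ x) : σ • y ≠ y := by
  intro h1
  have h2 := orb_fixed h1 (orb_symm hy)
  rw [h2] at h
  exact h h1

open Classical in
theorem rep_nonfixed {S : Set X} {R : G → Finset X} {σ : G}
    (hS : ∀ x ∈ S, ∀ g : G, g • x ∈ S)
    (hR : ∀ x : X, ∃! θ, θ ∈ R σ ∧ θ ∈ orb σ x) {y : X} (hy : y ∈ S) (h : σ • y ≠ y) :
    ∃ θ ∈ ob S R σ \ fx S σ, θ ∈ orb σ y := by
  classical
  obtain ⟨θ, h1, h2⟩ := rep_ne hS hR hy
  refine ⟨θ, ?_, h2⟩
  rw [Finset.mem_sdiff]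
  refine ⟨h1, fun h3 => ?_⟩
  simp only [fx, Finset.mem_filter, Finset.mem_univ, true_and] at h3
  exact not_fixed h h2 h3.1

theorem num (f t : ℕ) (h : t = 0 → 4 ≤ f) :
    (f : ℝ) * (2 * (1 / 2 : ℝ) ^ (f + t - 1)) ≤ 1 ∧
      (¬ (t = 0 ∧ f = 4) → ¬ (t = 1 ∧ (f = 1 ∨ f = 2)) →
        (f : ℝ) * (2 * (1 / 2 : ℝ) ^ (f + t - 1)) < 1) := by
  rcases Nat.eq_zero_or_pos f with rfl | hf
  · simp
  have key : (f : ℝ) * (2 * (1 / 2 : ℝ) ^ (f + t - 1)) = (4 * f : ℝ) / 2 ^ (f + t) := by
    obtain ⟨k, hk⟩ : ∃ k, f + t = k + 1 := ⟨f + t - 1, by omega⟩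
    rw [hk, Nat.add_sub_cancel, pow_succ, one_div, inv_pow]
    field_simp
    ring
  rw [key, div_le_one (by positivity), div_lt_one (by positivity)]
  have hA : ∀ f : ℕ, 5 ≤ f → 4 * f < 2 ^ f := by
    intro f hf
    induction f, hf using Nat.le_induction with
    | base => norm_num
    | succ n hn ih => rw [pow_succ]; omega
  have hB : 2 ^ f ≤ 2 ^ (f + t) := Nat.pow_le_pow_right (by norm_num) (by omega)
  have hN : 4 * f ≤ 2 ^ (f + t) ∧
      (¬ (t = 0 ∧ f = 4) → ¬ (t = 1 ∧ (f = 1 ∨ f = 2)) → 4 * f < 2 ^ (f + t)) := by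
    by_cases h5 : 5 ≤ f
    · have := hA f h5
      exact ⟨by omega, fun _ _ => by omega⟩
    · have h6 : f = 1 ∨ f = 2 ∨ f = 3 ∨ f = 4 := by omega
      have ht : t = 0 ∨ t = 1 ∨ ∃ s, t = s + 2 := by
        rcases t with _ | _ | s
        · left; rfl
        · right; left; rfl
        · right; right; exact ⟨s, rfl⟩
      rcases ht with rfl | rfl | ⟨s, rfl⟩
      · have := h rfl
        have : f = 4 := by omega
        subst this
        norm_num
      · rcases h6 with rfl | rfl | rfl | rfl <;> norm_num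
      · have h7 : 1 ≤ 2 ^ s := Nat.one_le_two_pow
        have h8 : 2 ^ (f + (s + 2)) = 2 ^ f * 4 * 2 ^ s := by
          rw [pow_add, pow_add]; ring
        rw [h8]
        rcases h6 with rfl | rfl | rfl | rfl
        · norm_num; omega
        · norm_num; omega
        · norm_num; omega
        · norm_num; omega
  refine ⟨by exact_mod_cast hN.1, fun h1 h2 => by exact_mod_cast hN.2 h1 h2⟩

end Weights

open Weights

open Classical in
theorem weights {G X : Type} [Group G] [Fintype G] [Fintype X] [MulAction G X]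
    (hfix : ∀ x : X, ∃ g : G, g • x ≠ x) (S : Set X) (hS : S.Nonempty)
    (hSG : ∀ (g : G), ∀ x ∈ S, g • x ∈ S) (R : G → Finset X)
    (hR : ∀ (σ : G) (x : X), ∃! θ, θ ∈ R σ ∧ θ ∈ orb σ x) :
    ∑ σ : G with σ ≠ 1, ∑ α with σ • α = α ∧ α ∈ S,
      (if ∃ θ ∈ R σ, θ ≠ α ∧ θ ∈ S ∧ Odd (orbF σ θ).card then (2 : ℝ) else 1) *
        (1 / 2 : ℝ) ^ ((R σ).filter fun θ => θ ≠ α ∧ θ ∈ S).card < (Fintype.card G : ℝ) - 1 := by
  change ∑ σ : G with σ ≠ 1, W S R σ < (Fintype.card G : ℝ) - 1
  have hS' : ∀ x ∈ S, ∀ g : G, g • x ∈ S := fun x hx g => hSG g x hx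
  by_cases hA : ∀ x ∈ S, ∀ y ∈ S, ∃ g : G, g • x = y
  · -- one orbit
    have h1 : ∀ σ : G, W S R σ ≤ (fx S σ).card := by
      intro σ
      refine (W_le (hR σ)).trans ?_
      rcases Finset.eq_empty_or_nonempty (fx S σ) with h | ⟨α, hα⟩
      · rw [h]; simp
      have h2 : 1 < (ob S R σ).card := by
        rw [Finset.one_lt_card]
        have hα' := hα
        simp only [fx, Finset.mem_filter, Finset.mem_univ, true_and] at hα'
        obtain ⟨g, hg⟩ := hfix α
        obtain ⟨θ, h3, h4⟩ := rep_ne (R := R) (σ := σ) hS' (hR σ) (hS' α hα'.2 g)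
        refine ⟨α, fx_sub (hR σ) hα, θ, h3, ?_⟩
        rintro rfl
        exact hg (orb_fixed hα'.1 (orb_symm h4))
      have h3 : (2 : ℝ) * (1 / 2) ^ ((ob S R σ).card - 1) ≤ 1 := by
        obtain ⟨k, hk⟩ : ∃ k, (ob S R σ).card - 1 = k + 1 := ⟨(ob S R σ).card - 2, by omega⟩
        rw [hk, pow_succ]
        have : ((1 : ℝ) / 2) ^ k ≤ 1 := pow_le_one₀ (by norm_num) (by norm_num)
        linarith
      calc ((fx S σ).card : ℝ) * (2 * (1 / 2) ^ ((ob S R σ).card - 1))
          ≤ (fx S σ).card * 1 := by
            apply mul_le_mul_of_nonneg_left h3 (by positivity)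
        _ = _ := mul_one _
    -- Burnside
    have h2 : ∑ σ : G, (fx S σ).card = Fintype.card G := by
      have h3 : ∀ σ : G, (fx S σ).card = ∑ α with α ∈ S, if σ • α = α then 1 else 0 := by
        intro σ
        rw [Finset.sum_boole, Finset.filter_filter]
        simp only [Nat.cast_id]
        unfold fx
        congr 1
        ext α
        simp only [Finset.mem_filter, Finset.mem_univ, true_and]
        tauto
      rw [Finset.sum_congr rfl fun σ _ => h3 σ, Finset.sum_comm]
      obtain ⟨x, hx⟩ := hS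
      have h4 : ∀ α ∈ Finset.univ.filter (fun α => α ∈ S),
          (∑ σ : G, if σ • α = α then 1 else 0) * (Finset.univ.filter (fun α => α ∈ S)).card
            = Fintype.card G := by
        intro α hα
        simp only [Finset.mem_filter, Finset.mem_univ, true_and] at hα
        rw [Finset.sum_boole]
        have h5 := MulAction.card_orbit_mul_card_stabilizer_eq_card_group G α
        rw [← h5, mul_comm]
        congr 1
        · rw [Fintype.card_subtype]
          congr 1
          ext β
          simp only [Finset.mem_filter, Finset.mem_univ, true_and]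
          constructor
          · intro hβ
            obtain ⟨g, hg⟩ := hA α hα β hβ
            exact ⟨g, hg⟩
          · rintro ⟨g, rfl⟩
            exact hS' α hα g
        · rw [Fintype.card_subtype]
          simp only [Nat.cast_id]
          congr 1
      have h6 : 0 < (Finset.univ.filter (fun α => α ∈ S)).card :=
        Finset.card_pos.mpr ⟨x, by simpa using hx⟩
      apply Nat.eq_of_mul_eq_mul_right h6
      rw [Finset.sum_mul, Finset.sum_congr rfl h4, Finset.sum_const, smul_eq_mul, mul_comm]
    have h3 : ∑ σ : G with σ ≠ 1, ((fx S σ).card : ℝ) + (fx S (1 : G)).card = Fintype.card G := by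
      have h4 : (Finset.univ.filter fun σ : G => σ ≠ 1) = Finset.univ.erase 1 := by
        ext σ; simp
      rw [h4, Finset.sum_erase_add _ _ (Finset.mem_univ _)]
      exact_mod_cast h2
    have h4 : 2 ≤ (fx S (1 : G)).card := by
      obtain ⟨x, hx⟩ := hS
      obtain ⟨g, hg⟩ := hfix x
      have : 1 < (fx S (1 : G)).card := by
        rw [Finset.one_lt_card]
        refine ⟨x, ?_, g • x, ?_, fun h => hg h.symm⟩
        · simp only [fx, Finset.mem_filter, Finset.mem_univ, true_and]
          exact ⟨one_smul _ _, hx⟩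
        · simp only [fx, Finset.mem_filter, Finset.mem_univ, true_and]
          exact ⟨one_smul _ _, hS' x hx g⟩
      omega
    have h5 : ∑ σ : G with σ ≠ 1, W S R σ ≤ ∑ σ : G with σ ≠ 1, ((fx S σ).card : ℝ) :=
      Finset.sum_le_sum fun σ _ => h1 σ
    have h6 : (2 : ℝ) ≤ (fx S (1 : G)).card := by exact_mod_cast h4
    linarith
  · -- at least two orbits
    push Not at hA
    obtain ⟨x, hx, y, hy, hxy⟩ := hA
    obtain ⟨a, ha⟩ := hfix x
    obtain ⟨b, hb⟩ := hfix y
    have hyx : ∀ g : G, g • y ≠ x := by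
      intro g h
      exact hxy g⁻¹ (by rw [← h, inv_smul_smul])
    have hgen : ∀ g h : G, g • x ≠ h • y := by
      intro g h e
      exact hxy (h⁻¹ * g) (by rw [mul_smul, e, inv_smul_smul])
    have hcard : ∀ σ : G, (fx S σ).card + (ob S R σ \ fx S σ).card = (ob S R σ).card := by
      intro σ
      rw [add_comm]
      exact Finset.card_sdiff_add_card_eq_card (fx_sub (hR σ))
    have ht0 : ∀ σ : G, (ob S R σ \ fx S σ).card = 0 → 4 ≤ (fx S σ).card := by
      intro σ h0
      have h1 : ∀ z ∈ S, z ∈ fx S σ := by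
        intro z hz
        by_contra hcon
        have h2 : σ • z ≠ z := by
          intro h
          exact hcon (by simp only [fx, Finset.mem_filter, Finset.mem_univ, true_and]; exact ⟨h, hz⟩)
        obtain ⟨θ, h3, -⟩ := rep_nonfixed (R := R) hS' (hR σ) hz h2
        rw [Finset.card_eq_zero] at h0
        rw [h0] at h3
        exact absurd h3 (Finset.notMem_empty _)
      have h2 : ({x, a • x, y, b • y} : Finset X) ⊆ fx S σ := by
        intro z hz
        simp only [Finset.mem_insert, Finset.mem_singleton] at hz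
        rcases hz with rfl | rfl | rfl | rfl
        · exact h1 _ hx
        · exact h1 _ (hS' _ hx _)
        · exact h1 _ hy
        · exact h1 _ (hS' _ hy _)
      have h3 : ({x, a • x, y, b • y} : Finset X).card = 4 := by
        rw [Finset.card_insert_of_notMem, Finset.card_insert_of_notMem,
          Finset.card_insert_of_notMem, Finset.card_singleton]
        · simp only [Finset.mem_singleton]; exact fun h => hb h.symm
        · simp only [Finset.mem_insert, Finset.mem_singleton]
          rintro (h | h)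
          · exact hgen a 1 (by rw [h, one_smul])
          · exact hgen a b h
        · simp only [Finset.mem_insert, Finset.mem_singleton]
          rintro (h | h | h)
          · exact ha h.symm
          · exact hgen 1 1 (by rw [one_smul, one_smul, h])
          · exact hgen 1 b (by rw [one_smul, h])
      rw [← h3]
      exact Finset.card_le_card h2
    have hle : ∀ σ : G, W S R σ ≤ 1 := by
      intro σ
      refine (W_le (hR σ)).trans ?_
      rw [← hcard σ]
      exact (num _ _ (ht0 σ)).1
    have hex : ∃ σ : G, σ ≠ 1 ∧ W S R σ < 1 := by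
      by_contra hcon
      push Not at hcon
      have h1 : ∀ σ : G, σ ≠ 1 → 1 ≤ (fx S σ).card ∧
          (((ob S R σ \ fx S σ).card = 0 ∧ (fx S σ).card = 4) ∨
            ((ob S R σ \ fx S σ).card = 1 ∧ ((fx S σ).card = 1 ∨ (fx S σ).card = 2))) := by
        intro σ hσ
        have h2 := hcon σ hσ
        have h3 := (h2.trans (W_le (hR σ)))
        rw [← hcard σ] at h3
        have h4 : 1 ≤ (fx S σ).card := by
          by_contra h5
          have h6 : (fx S σ).card = 0 := by omega
          rw [h6] at h3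
          norm_num at h3
        refine ⟨h4, ?_⟩
        by_contra h5
        push Not at h5
        have h6 := (num (fx S σ).card (ob S R σ \ fx S σ).card (ht0 σ)).2
          (fun h => h5.1 h.1 h.2) (fun h => by
            rcases h.2 with h7 | h7
            · exact (h5.2 h.1).1 h7
            · exact (h5.2 h.1).2 h7)
        linarith
      -- elements which move a point
      have h2 : ∀ (σ : G) (u : X), u ∈ S → σ • u ≠ u →
          (fx S σ).card ≤ 2 ∧ ∀ v ∈ S, σ • v ≠ v → v ∈ orb σ u := by
        intro σ u hu hσ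
        have hne : σ ≠ 1 := by rintro rfl; exact hσ (one_smul _ _)
        obtain ⟨θ, h3, h4⟩ := rep_nonfixed (R := R) hS' (hR σ) hu hσ
        have h5 : 0 < (ob S R σ \ fx S σ).card := Finset.card_pos.mpr ⟨θ, h3⟩
        have h6 := h1 σ hne
        have h7 : (ob S R σ \ fx S σ).card = 1 := by omega
        refine ⟨by omega, fun v hv hv' => ?_⟩
        obtain ⟨θ', h8, h9⟩ := rep_nonfixed (R := R) hS' (hR σ) hv hv'
        have h10 : θ' = θ := by
          rw [Finset.card_eq_one] at h7
          obtain ⟨c, hc⟩ := h7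
          rw [hc, Finset.mem_singleton] at h3 h8
          rw [h3, h8]
        rw [h10] at h9
        exact orb_trans h4 (orb_symm h9)
      obtain ⟨ha1, ha2⟩ := h2 a x hx ha
      obtain ⟨hb1, hb2⟩ := h2 b y hy hb
      -- points in the orbit of `y` are fixed by `a`
      have h3 : ∀ g : G, a • (g • y) = g • y := by
        intro g
        by_contra h
        obtain ⟨i, hi⟩ := ha2 (g • y) (hS' y hy g) h
        exact hgen _ _ hi.symm
      have h4 : ∀ g : G, b • (g • x) = g • x := by
        intro g
        by_contra h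
        obtain ⟨i, hi⟩ := hb2 (g • x) (hS' x hx g) h
        exact hgen _ _ hi
      have h5 : fx S b = {x, a • x} := by
        symm
        apply Finset.eq_of_subset_of_card_le
        · intro z hz
          simp only [Finset.mem_insert, Finset.mem_singleton] at hz
          simp only [fx, Finset.mem_filter, Finset.mem_univ, true_and]
          rcases hz with rfl | rfl
          · exact ⟨by simpa using h4 1, hx⟩
          · exact ⟨h4 a, hS' _ hx _⟩
        · rw [Finset.card_pair (fun h => ha h.symm)]
          exact hb1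
      have h6 : (fx S (a * b)).card = 0 := by
        rw [Finset.card_eq_zero, Finset.eq_empty_iff_forall_notMem]
        intro z hz
        simp only [fx, Finset.mem_filter, Finset.mem_univ, true_and] at hz
        obtain ⟨hz1, hz2⟩ := hz
        rw [mul_smul] at hz1
        by_cases hbz : b • z = z
        · have h7 : z ∈ fx S b := by
            simp only [fx, Finset.mem_filter, Finset.mem_univ, true_and]
            exact ⟨hbz, hz2⟩
          rw [h5] at h7
          simp only [Finset.mem_insert, Finset.mem_singleton] at h7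
          rw [hbz] at hz1
          rcases h7 with h7 | h7
          · rw [h7] at hz1
            exact ha hz1
          · rw [h7] at hz1
            have h8 := congrArg (fun w => a⁻¹ • w) hz1
            simp only [inv_smul_smul] at h8
            exact ha h8
        · obtain ⟨i, hi⟩ := hb2 z hz2 hbz
          have h7 : a • (b • z) = b • z := by
            rw [hi, smul_smul b]
            exact h3 _
          rw [h7] at hz1
          exact hbz hz1
      have h7 : a * b ≠ 1 := by
        intro h
        have h8 : (a * b) • x = x := by rw [h, one_smul]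
        rw [mul_smul] at h8
        have h9 : b • x = x := by simpa using h4 1
        rw [h9] at h8
        exact ha h8
      have h8 := (h1 (a * b) h7).1
      omega
    obtain ⟨σ0, hσ0, hlt⟩ := hex
    have h1 : ∑ σ : G with σ ≠ 1, W S R σ < ∑ σ : G with σ ≠ 1, (1 : ℝ) := by
      apply Finset.sum_lt_sum (fun σ _ => hle σ)
      exact ⟨σ0, by simpa using hσ0, hlt⟩
    have h2 : ∑ σ : G with σ ≠ 1, (1 : ℝ) = (Fintype.card G : ℝ) - 1 := by
      have h4 : (Finset.univ.filter fun σ : G => σ ≠ 1) = Finset.univ.erase 1 := by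
        ext σ; simp
      rw [h4, Finset.sum_const, Finset.card_erase_of_mem (Finset.mem_univ _), nsmul_eq_mul, mul_one,
        Nat.cast_sub (by exact Finset.card_pos.mpr ⟨1, Finset.mem_univ _⟩)]
      simp
    rw [← h2]
    exact h1

end Pool.TP2
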