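import Pool.Agent.TP2.Sym
import Pool.Agent.TP2.Selmer
import Pool.Agent.TP2.Gen
import Pool.Agent.TP2.Gcd
import Pool.Agent.TP2.Next
import Pool.Agent.TP2.Tree
import Pool.Agent.TP2.Descent
import Pool.Agent.TP2.Comb
import Pool.Agent.TP2.Bits
import Pool.Agent.TP2.Weights

/-!
# The core theorem of project TP2

For a group `G` of automorphisms of a number field `K`, Galois over the rationals, and a finite
`G`-stable set `Ω` of algebraic integers without fixed elements and of even cardinality, there are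
`G`-invariant algebraic integers `T` such that the product of all `x - θ`, `θ ∈ Ω`, is not
`T` times a square for all `G`-invariant `x`.
-/

open NumberField Polynomial
open scoped Pointwise BigOperators

namespace Pool.TP2.Core

section

variable {G X : Type} [Group G] [MulAction G X]

theorem mem_orb_self (σ : G) (x : X) : x ∈ orb σ x := ⟨0, by simp⟩

theorem orb_symm {σ : G} {x y : X} (h : y ∈ orb σ x) : x ∈ orb σ y := by
  obtain ⟨i, rfl⟩ := h
  exact ⟨-i, by rw [← mul_smul, ← zpow_add]; simp⟩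

theorem orb_trans {σ : G} {x y z : X} (h : y ∈ orb σ x) (h' : z ∈ orb σ y) : z ∈ orb σ x := by
  obtain ⟨i, rfl⟩ := h
  obtain ⟨j, rfl⟩ := h'
  exact ⟨j + i, by rw [← mul_smul, ← zpow_add]⟩

/-- Representatives of the orbits of a cyclic group. -/
theorem exists_reps [Finite X] (σ : G) : ∃ R : Finset X, ∀ x : X, ∃! θ, θ ∈ R ∧ θ ∈ orb σ x := by
  classical
  let _ : Fintype X := Fintype.ofFinite X
  let s : Setoid X :=
    { r := fun x y => y ∈ orb σ x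
      iseqv := ⟨fun x => mem_orb_self σ x, fun h => orb_symm h, fun h h' => orb_trans h h'⟩ }
  refine ⟨Finset.univ.image fun x => (Quotient.mk s x).out, fun x => ⟨(Quotient.mk s x).out, ?_, ?_⟩⟩
  · refine ⟨Finset.mem_image_of_mem _ (Finset.mem_univ x), ?_⟩
    have h : s.r (Quotient.mk s x).out x := Quotient.mk_out (s := s) x
    exact orb_symm h
  · rintro θ ⟨hθ, hθx⟩
    obtain ⟨y, -, rfl⟩ := Finset.mem_image.1 hθ
    have h1 : s.r (Quotient.mk s y).out y := Quotient.mk_out (s := s) y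
    have h2 : s.r x y := orb_trans hθx h1
    have h3 : Quotient.mk s x = Quotient.mk s y := Quotient.sound h2
    change (Quotient.mk s y).out = (Quotient.mk s x).out
    rw [h3]

theorem orb_fixed {σ : G} {x : X} (h : σ • x = x) (y : X) (hy : y ∈ orb σ x) : y = x := by
  obtain ⟨i, rfl⟩ := hy
  have : σ ^ i ∈ MulAction.stabilizer G x := Subgroup.zpow_mem _ (by exact h) i
  exact this

end

section

variable {K : Type} [Field K] [NumberField K]

/-- A nonzero integer in every ideal which contains a given nonzero algebraic integer. -/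
theorem norm_mem (y : 𝓞 K) (hy : y ≠ 0) : ∃ n : ℤ, n ≠ 0 ∧ ∀ (s : K ≃ₐ[ℚ] K) (Q : Ideal (𝓞 K)),
    s • y ∈ Q → (n : 𝓞 K) ∈ Q := by
  refine ⟨(Ideal.absNorm (Ideal.span {y}) : ℕ), ?_, fun s Q h => ?_⟩
  · have h1 : Ideal.absNorm (Ideal.span {y}) ≠ 0 := by
      rw [Ne, Ideal.absNorm_eq_zero_iff, Ideal.span_singleton_eq_bot]
      exact hy
    exact_mod_cast h1
  · obtain ⟨c, hc⟩ := Ideal.mem_span_singleton'.1 (Ideal.absNorm_mem (Ideal.span {y}))
    have h1 : ((Ideal.absNorm (Ideal.span {y}) : ℕ) : 𝓞 K) = (s • c) * (s • y) := by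
      rw [← smul_mul', hc]
      exact (map_natCast (MulSemiringAction.toRingHom (K ≃ₐ[ℚ] K) (𝓞 K) s) _).symm
    rw [Int.cast_natCast, h1]
    exact Q.mul_mem_left _ h

end

theorem dvd_mem {K : Type} [Field K] [NumberField K] {m n : ℤ} (h : m ∣ n) (Q : Ideal (𝓞 K))
    (hm : (m : 𝓞 K) ∈ Q) : (n : 𝓞 K) ∈ Q := by
  obtain ⟨c, rfl⟩ := h
  push_cast
  exact Q.mul_mem_right _ hm

/-- The bad integers and the finite set of classes. -/
theorem setup (K : Type) [Field K] [NumberField K] [IsGalois ℚ K]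
    (G : Subgroup (K ≃ₐ[ℚ] K)) (Ω : SubMulAction G (𝓞 K)) [Finite Ω] :
    ∃ (D D' : ℤ) (U : Finset (𝓞 K)), D' ≠ 0 ∧ D ∣ D' ∧
      (∀ (σ : K ≃ₐ[ℚ] K) (P : Ideal (𝓞 K)), P.IsPrime → P ≠ ⊥ →
        P.inertia (K ≃ₐ[ℚ] K) = ⊥ →
        MulAction.stabilizer (K ≃ₐ[ℚ] K) P = Subgroup.zpowers σ →
        ∃ π : 𝓞 K, π ≠ 0 ∧ σ • π = π ∧ ∀ Q : Ideal (𝓞 K), Q.IsPrime → Q ≠ ⊥ → (D : 𝓞 K) ∉ Q →
          (Q = P → cnt Q π = 1) ∧ (Q ≠ P → cnt Q π = 0)) ∧
      (∀ x : K, (∀ s ∈ G, s x = x) → ∃ a b : 𝓞 K, b ≠ 0 ∧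
        (∀ s ∈ G, s • a = a) ∧ (∀ s ∈ G, s • b = b) ∧ x * (b : K) = (a : K) ∧
        ∀ Q : Ideal (𝓞 K), Q.IsPrime → a ∈ Q → b ∈ Q → (D : 𝓞 K) ∈ Q) ∧
      (∀ θ θ' : Ω, θ ≠ θ' → ∀ Q : Ideal (𝓞 K), Q.IsPrime →
        (θ : 𝓞 K) - (θ' : 𝓞 K) ∈ Q → (D : 𝓞 K) ∈ Q) ∧
      (∀ (θ : Ω) (w : 𝓞 K), w ≠ 0 → (∀ s : G, s • θ = θ → s • w = w) →
        (∀ Q : Ideal (𝓞 K), Q.IsPrime → Q ≠ ⊥ → (D : 𝓞 K) ∉ Q → Even (cnt Q w)) →
        ∃ u ∈ U, ∃ g : 𝓞 K, (∀ s : G, s • θ = θ → s • u = u) ∧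
          (∀ s : G, s • θ = θ → s • g = g) ∧ w * u = g ^ 2) ∧
      (∀ u ∈ U, ∀ s : G, ∀ Q : Ideal (𝓞 K), Q.IsPrime → s • u ∈ Q → (D' : 𝓞 K) ∈ Q) := by
  classical
  let _ : Fintype Ω := Fintype.ofFinite Ω
  obtain ⟨D₁, hD₁, hgen⟩ := exists_gen K
  obtain ⟨D₂, hD₂, hgcd⟩ := exists_gcd K G
  have hn : ∀ y : 𝓞 K, ∃ n : ℤ, (y ≠ 0 → n ≠ 0) ∧ ∀ (s : K ≃ₐ[ℚ] K) (Q : Ideal (𝓞 K)),
      y ≠ 0 → s • y ∈ Q → (n : 𝓞 K) ∈ Q := by
    intro y
    by_cases hy : y = 0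
    · exact ⟨0, fun h => absurd hy h, fun s Q h => absurd hy h⟩
    · obtain ⟨n, hn, h⟩ := norm_mem y hy
      exact ⟨n, fun _ => hn, fun s Q _ => h s Q⟩
  choose nm hnm hnm' using hn
  let D₃ : ℤ := ∏ x : Ω × Ω, if (x.1 : 𝓞 K) - (x.2 : 𝓞 K) = 0 then 1 else
    nm ((x.1 : 𝓞 K) - (x.2 : 𝓞 K))
  have hD₃ : D₃ ≠ 0 := by
    refine Finset.prod_ne_zero_iff.2 fun x _ => ?_
    split_ifs with h
    · exact one_ne_zero
    · exact hnm _ h
  let D : ℤ := D₁ * D₂ * D₃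
  have hD : D ≠ 0 := mul_ne_zero (mul_ne_zero hD₁ hD₂) hD₃
  choose U₀ hU₀ hU₀' using fun θ : Ω => finite_classes K D hD
    ((MulAction.stabilizer G θ).map G.subtype)
  let U : Finset (𝓞 K) := Finset.univ.biUnion U₀
  have hUne : ∀ u ∈ U, u ≠ 0 := by
    intro u hu
    obtain ⟨θ, -, hθ⟩ := Finset.mem_biUnion.1 hu
    exact hU₀ θ u hθ
  let D' : ℤ := D * ∏ u ∈ U, nm u
  have hd₁ : D₁ ∣ D := ⟨D₂ * D₃, by simp only [D]; ring⟩
  have hd₂ : D₂ ∣ D := ⟨D₁ * D₃, by simp only [D]; ring⟩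
  have hd₃ : D₃ ∣ D := ⟨D₁ * D₂, by simp only [D]; ring⟩
  refine ⟨D, D', U, mul_ne_zero hD (Finset.prod_ne_zero_iff.2 fun u hu => hnm u (hUne u hu)),
    dvd_mul_right _ _, ?_, ?_, ?_, ?_, ?_⟩
  · intro σ P hP hP0 hin hst
    obtain ⟨π, hπ0, hπ, hcnt⟩ := hgen σ P hP hP0 hin hst
    exact ⟨π, hπ0, hπ, fun Q hQ hQ0 hDQ => hcnt Q hQ hQ0 fun h => hDQ (dvd_mem hd₁ Q h)⟩
  · intro x hx
    obtain ⟨a, b, hb0, ha, hb, hab, hQ⟩ := hgcd x hx
    exact ⟨a, b, hb0, ha, hb, hab, fun Q hQp haQ hbQ => dvd_mem hd₂ Q (hQ Q hQp haQ hbQ)⟩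
  · intro θ θ' hne Q hQ hmem
    have h0 : (θ : 𝓞 K) - (θ' : 𝓞 K) ≠ 0 := by
      intro h
      exact hne (Subtype.ext (sub_eq_zero.1 h))
    have h1 : nm ((θ : 𝓞 K) - (θ' : 𝓞 K)) ∣ D₃ := by
      have h2 := Finset.dvd_prod_of_mem (fun x : Ω × Ω => if (x.1 : 𝓞 K) - (x.2 : 𝓞 K) = 0 then 1
        else nm ((x.1 : 𝓞 K) - (x.2 : 𝓞 K))) (Finset.mem_univ (θ, θ'))
      simp only [if_neg h0] at h2
      exact h2
    refine dvd_mem (h1.trans hd₃) Q (hnm' _ 1 Q h0 ?_)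
    rw [one_smul]
    exact hmem
  · intro θ w hw hws hev
    obtain ⟨u, hu, g, h1, h2, h3⟩ := hU₀' θ w hw (by
      rintro s ⟨s', hs', rfl⟩
      exact hws s' hs') hev
    exact ⟨u, Finset.mem_biUnion.2 ⟨θ, Finset.mem_univ _, hu⟩, g,
      fun s hs => h1 s ⟨s, hs, rfl⟩, fun s hs => h2 s ⟨s, hs, rfl⟩, h3⟩
  · intro u hu s Q hQ hmem
    refine dvd_mem ?_ Q (hnm' u s Q (hUne u hu) hmem)
    exact (Finset.dvd_prod_of_mem nm hu).trans (dvd_mul_left _ _)

/-- The game on the group side: specialisation of `no_strategy`. -/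
theorem game {G X V : Type} [Group G] [Fintype G] [Fintype X] [MulAction G X] [Nonempty X]
    [Fintype V] [Nonempty V] (hfix : ∀ x : X, ∃ g : G, g • x ≠ x) :
    ∃ N : ℕ, 0 < N ∧ ∀ (c : Play {σ : G // σ ≠ 1} (G → ℤˣ) N → Fin N → X)
      (v : Play {σ : G // σ ≠ 1} (G → ℤˣ) N → V)
      (β : Play {σ : G // σ ≠ 1} (G → ℤˣ) N → Fin N → ℤˣ)
      (χ : Fin N → Fin N → X → X → Play {σ : G // σ ≠ 1} (G → ℤˣ) N → ℤˣ)
      (f : Fin N → X → V → X → Play {σ : G // σ ≠ 1} (G → ℤˣ) N → ℤˣ),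
      (∀ x k, (x k).1.1 • c x k = c x k) →
      (∀ k m α θ x, k < m → (x m).1.1 • α = α →
        χ k m α θ x = ∏ s ∈ repsTo (x m).1.1 α (orb (x k).1.1 θ), (x m).2 k s) →
      (∀ k m α θ x y, m ≤ k → (∀ j ≤ k, x j = y j) → χ k m α θ x = χ k m α θ y) →
      (∀ k θ v α x y, (∀ j ≤ k, x j = y j) → f k θ v α x = f k θ v α y) →
      (∀ x k θ, θ ≠ c x k →
        (open Classical in ∏ m with c x m ∈ MulAction.orbit G θ, χ k m (c x m) θ x) =
          β x k ^ (orbF (x k).1.1 θ).card * f k θ (v x) (c x k) x) →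
      False := by
  classical
  choose R hR using fun σ : G => exists_reps (X := X) σ
  have hT : Nonempty {σ : G // σ ≠ 1} := by
    obtain ⟨x⟩ := ‹Nonempty X›
    obtain ⟨g, hg⟩ := hfix x
    refine ⟨⟨g, ?_⟩⟩
    rintro rfl
    exact hg (one_smul G x)
  let π : X → MulAction.orbitRel.Quotient G X := fun x => Quotient.mk'' x
  have hπ : ∀ x y, π x = π y ↔ x ∈ MulAction.orbit G y := by
    intro x y
    exact Quotient.eq''
  let _ : Fintype (MulAction.orbitRel.Quotient G X) := Fintype.ofFinite _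
  obtain ⟨N, hN⟩ := no_strategy (I := MulAction.orbitRel.Quotient G X) (X := X)
    (T := {σ : G // σ ≠ 1}) (Y := G → ℤˣ) (V := V) π (fun σ α => σ.1 • α = α) (fun σ => R σ.1)
    (fun σ θ => Odd (orbF σ.1 θ).card) (fun σ σ' α θ y => ∏ s ∈ repsTo σ'.1 α (orb σ.1 θ), y s)
    (by
      intro σ σ' α hα a
      have h := bit_uniform σ.1 σ'.1 α hα ((R σ.1).filter fun θ => π θ = π α) ?_ ?_ a
      · refine Eq.trans ?_ h
        refine congrArg₂ (fun a b : ℕ => a * b) (by congr!) (congrArg Finset.card ?_)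
        ext y
        simp only [Finset.mem_filter, Finset.mem_univ, true_and, and_imp]
      · intro θ hθ θ' hθ' horb
        rw [Finset.mem_filter] at hθ hθ'
        obtain ⟨ξ, -, hξ⟩ := hR σ.1 θ
        rw [hξ θ ⟨hθ.1, mem_orb_self _ _⟩, hξ θ' ⟨hθ'.1, horb⟩]
      · intro θ hθ
        rw [Finset.mem_filter] at hθ
        exact (hπ _ _).1 hθ.2)
    (by
      intro S hS
      have h := weights hfix {x : X | π x ∈ S} (by
        obtain ⟨q, hq⟩ := hS
        obtain ⟨x, rfl⟩ := Quotient.exists_rep q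
        exact ⟨x, hq⟩) (by
        intro g x hx
        have h1 : π (g • x) = π x := (hπ _ _).2 ⟨g, rfl⟩
        change π (g • x) ∈ S
        rw [h1]
        exact hx) R hR
      have hcard : (Fintype.card {σ : G // σ ≠ 1} : ℝ) = (Fintype.card G : ℝ) - 1 := by
        have h1 : Fintype.card {σ : G // σ ≠ 1} = Fintype.card G - 1 := by
          rw [Fintype.card_subtype_compl, Fintype.card_subtype_eq]
        rw [h1, Nat.cast_sub Fintype.card_pos, Nat.cast_one]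
      rw [hcard]
      refine lt_of_eq_of_lt ?_ h
      have h2 := Finset.sum_subtype (p := fun σ : G => σ ≠ 1) (F := inferInstance)
        (Finset.univ.filter fun σ : G => σ ≠ 1) (by simp)
        (fun σ => ∑ α with σ • α = α ∧ π α ∈ S,
          (if ∃ θ ∈ R σ, θ ≠ α ∧ π θ ∈ S ∧ Odd (orbF σ θ).card then (2 : ℝ) else 1) *
            (1 / 2 : ℝ) ^ ((R σ).filter fun θ => θ ≠ α ∧ π θ ∈ S).card)
      refine Eq.trans ?_ (h2.symm.trans ?_)
      · refine Finset.sum_congr (by ext; simp) fun σ _ => ?_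
        refine Finset.sum_congr (by ext; simp) fun α _ => ?_
        congr!
      · refine Finset.sum_congr rfl fun σ _ => ?_
        refine Finset.sum_congr (by ext; simp) fun α _ => ?_
        congr!)
  have hfin : ∀ (c : Play {σ : G // σ ≠ 1} (G → ℤˣ) N → Fin N → X)
      (v : Play {σ : G // σ ≠ 1} (G → ℤˣ) N → V)
      (β : Play {σ : G // σ ≠ 1} (G → ℤˣ) N → Fin N → ℤˣ)
      (χ : Fin N → Fin N → X → X → Play {σ : G // σ ≠ 1} (G → ℤˣ) N → ℤˣ)
      (f : Fin N → X → V → X → Play {σ : G // σ ≠ 1} (G → ℤˣ) N → ℤˣ),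
      (∀ x k, (x k).1.1 • c x k = c x k) →
      (∀ k m α θ x, k < m → (x m).1.1 • α = α →
        χ k m α θ x = ∏ s ∈ repsTo (x m).1.1 α (orb (x k).1.1 θ), (x m).2 k s) →
      (∀ k m α θ x y, m ≤ k → (∀ j ≤ k, x j = y j) → χ k m α θ x = χ k m α θ y) →
      (∀ k θ v α x y, (∀ j ≤ k, x j = y j) → f k θ v α x = f k θ v α y) →
      (∀ x k θ, θ ≠ c x k →
        (open Classical in ∏ m with c x m ∈ MulAction.orbit G θ, χ k m (c x m) θ x) =
          β x k ^ (orbF (x k).1.1 θ).card * f k θ (v x) (c x k) x) →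
      False := by
    intro c v β χ f h1 h2 h3 h4 h5
    refine hN c v β χ f h1 h2 h3 h4 ?_
    intro x k θ _ hne
    have h6 := h5 x k θ hne
    have h7 : β x k ^ (orbF (x k).1.1 θ).card =
        if Odd (orbF (x k).1.1 θ).card then β x k else 1 := by
      split_ifs with hodd
      · obtain ⟨m, hm⟩ := hodd
        rw [hm, pow_succ, pow_mul, Int.units_sq, one_pow, one_mul]
      · obtain ⟨m, hm⟩ := Nat.not_odd_iff_even.1 hodd
        rw [hm, ← two_mul, pow_mul, Int.units_sq, one_pow]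
    rw [h7] at h6
    refine Eq.trans (Finset.prod_congr ?_ fun _ _ => rfl) (h6.trans ?_)
    · ext m
      simp only [Finset.mem_filter, Finset.mem_univ, true_and]
      exact hπ _ _
    · congr!
  refine ⟨N, ?_, hfin⟩
  rcases Nat.eq_zero_or_pos N with h0 | h0
  · exfalso
    subst h0
    obtain ⟨v₀⟩ := ‹Nonempty V›
    exact hfin (fun _ k => k.elim0) (fun _ => v₀) (fun _ _ => 1) (fun _ _ _ _ _ => 1)
      (fun _ _ _ _ _ => 1) (fun _ k => k.elim0) (fun k => k.elim0) (fun k => k.elim0)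
      (fun k => k.elim0) (fun _ k => k.elim0)
  · exact h0

/-- The norm of `π` is fixed. -/
theorem norm_fixed {K : Type} [Field K] [NumberField K] (G : Subgroup (K ≃ₐ[ℚ] K)) (σ : G)
    (π : 𝓞 K) (hπ : σ • π = π) (s : G) :
    s • ∏ t ∈ cosetReps σ, t • π = ∏ t ∈ cosetReps σ, t • π := by
  classical
  let F : G ⧸ Subgroup.zpowers σ → 𝓞 K := fun q => (Quotient.out q : G) • π
  have hF : ∀ g : G, F (QuotientGroup.mk g) = g • π := by
    intro g
    have h1 : (QuotientGroup.mk (Quotient.out (QuotientGroup.mk g : G ⧸ Subgroup.zpowers σ)) :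
        G ⧸ Subgroup.zpowers σ) = QuotientGroup.mk g := QuotientGroup.out_eq' _
    have h2 := QuotientGroup.eq.1 h1.symm
    obtain ⟨i, hi⟩ := Subgroup.mem_zpowers_iff.1 h2
    have h3 : Quotient.out (QuotientGroup.mk g : G ⧸ Subgroup.zpowers σ) = g * σ ^ i := by
      rw [hi]; group
    have h4 : σ ^ i • π = π := by
      have : σ ^ i ∈ MulAction.stabilizer G π := Subgroup.zpow_mem _ (by exact hπ) i
      exact this
    change (Quotient.out (QuotientGroup.mk g : G ⧸ Subgroup.zpowers σ) : G) • π = _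
    rw [h3, mul_smul, h4]
  have hfin : Finite (G ⧸ Subgroup.zpowers σ) := inferInstance
  let _ : Fintype (G ⧸ Subgroup.zpowers σ) := Fintype.ofFinite _
  have h1 : ∏ t ∈ cosetReps σ, t • π = ∏ q : G ⧸ Subgroup.zpowers σ, F q := by
    have h2 : cosetReps σ = Finset.univ.image fun q : G ⧸ Subgroup.zpowers σ => Quotient.out q := by
      ext t
      simp [cosetReps]
    rw [h2, Finset.prod_image]
    intro a _ b _ hab
    have h3 := congrArg (fun g : G => (QuotientGroup.mk g : G ⧸ Subgroup.zpowers σ)) hab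
    simp only [QuotientGroup.out_eq'] at h3
    exact h3
  rw [h1, Finset.smul_prod']
  refine Fintype.prod_equiv (MulAction.toPerm s) _ _ fun q => ?_
  obtain ⟨g, rfl⟩ := QuotientGroup.mk_surjective q
  rw [hF]
  change s • g • π = F (s • (QuotientGroup.mk g : G ⧸ Subgroup.zpowers σ))
  rw [MulAction.Quotient.smul_mk, hF, smul_eq_mul, mul_smul]

theorem one_rep {G : Type} [Group G] [Finite G] (σ : G) : ∃ s ∈ cosetReps σ,
    s ∈ Subgroup.zpowers σ := by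
  refine ⟨Quotient.out (QuotientGroup.mk 1 : G ⧸ Subgroup.zpowers σ), by simp [cosetReps], ?_⟩
  have h1 : (QuotientGroup.mk (Quotient.out (QuotientGroup.mk 1 : G ⧸ Subgroup.zpowers σ)) :
      G ⧸ Subgroup.zpowers σ) = QuotientGroup.mk 1 := QuotientGroup.out_eq' _
  have h2 := QuotientGroup.eq.1 h1
  rw [mul_one, Subgroup.inv_mem_iff] at h2
  exact h2

theorem rep_inj {G : Type} [Group G] [Finite G] (σ : G) {s t : G} (hs : s ∈ cosetReps σ)
    (ht : t ∈ cosetReps σ) (h : s⁻¹ * t ∈ Subgroup.zpowers σ) : s = t := by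
  simp only [cosetReps, Set.Finite.mem_toFinset, Set.mem_range] at hs ht
  obtain ⟨a, rfl⟩ := hs
  obtain ⟨b, rfl⟩ := ht
  have h1 := QuotientGroup.eq.2 h
  rw [QuotientGroup.out_eq', QuotientGroup.out_eq'] at h1
  rw [h1]

/-- An integer in a prime ideal above `p` is divisible by `p`. -/
theorem dvd_of_mem {K : Type} [Field K] [NumberField K] {p : ℕ} (hp : p.Prime) (P : Ideal (𝓞 K))
    (hP : P.IsPrime) (hpP : (p : 𝓞 K) ∈ P) (n : ℤ) (hn : (n : 𝓞 K) ∈ P) : (p : ℤ) ∣ n := by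
  by_contra h
  have h1 : IsCoprime (p : ℤ) n := (Nat.prime_iff_prime_int.1 hp).coprime_iff_not_dvd.2 h
  obtain ⟨a, b, hab⟩ := h1
  apply hP.ne_top
  rw [Ideal.eq_top_iff_one]
  have h2 : ((a * p + b * n : ℤ) : 𝓞 K) ∈ P := by
    push_cast
    exact P.add_mem (P.mul_mem_left _ hpP) (P.mul_mem_left _ hn)
  rw [hab] at h2
  simpa using h2

theorem prime_eq {K : Type} [Field K] [NumberField K] {p q : ℕ} (hp : p.Prime) (hq : q.Prime)
    (P : Ideal (𝓞 K)) (hP : P.IsPrime) (hpP : (p : 𝓞 K) ∈ P) (hqP : (q : 𝓞 K) ∈ P) : p = q := by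
  have h1 := dvd_of_mem hp P hP hpP q (by simpa using hqP)
  exact (Nat.prime_dvd_prime_iff_eq hp hq).1 (by exact_mod_cast h1)

theorem norm_ne {K : Type} [Field K] [NumberField K] (G : Subgroup (K ≃ₐ[ℚ] K)) {N : ℕ}
    (σ : Fin N → G) (π : Fin N → 𝓞 K) (hπ : ∀ n, π n ≠ 0) :
    ∏ n, ∏ s ∈ cosetReps (σ n), s • π n ≠ 0 := by
  refine Finset.prod_ne_zero_iff.2 fun n _ => Finset.prod_ne_zero_iff.2 fun s _ => ?_
  exact (smul_ne_zero_iff_ne s).2 (hπ n)

theorem norm_cnt (K : Type) [Field K] [NumberField K] (G : Subgroup (K ≃ₐ[ℚ] K)) (D D' : ℤ)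
    (hDD' : D ∣ D') {N : ℕ} (σ : Fin N → G) (x : Fin N → PD K)
    (hx : ∀ n, (x n).Good D D' (σ n)) (hdist : ∀ m n, (x m).p = (x n).p → m = n) (k : Fin N) :
    cnt (x k).P (∏ n, ∏ s ∈ cosetReps (σ n), s • (x n).π) = 1 := by
  have hne : ∀ n, ∀ s ∈ cosetReps (σ n), s • (x n).π ≠ 0 := fun n s _ =>
    (smul_ne_zero_iff_ne s).2 (hx n).ne
  rw [cnt_prod _ _ _ fun n _ => Finset.prod_ne_zero_iff.2 (hne n)]
  rw [Finset.sum_congr rfl fun n _ => cnt_prod _ _ _ (hne n)]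
  have hDk : (D : 𝓞 K) ∉ (x k).P := by
    intro h
    obtain ⟨c, hc⟩ := hDD'
    apply (hx k).notMem
    rw [hc]
    push_cast
    exact Ideal.mul_mem_right _ _ h
  have hPk : (x k).P ≠ ⊥ := by
    intro h
    have := (hx k).mem
    rw [h, Ideal.mem_bot] at this
    exact (hx k).prime.ne_zero (by exact_mod_cast this)
  have key : ∀ n, ∀ s : G, ((s⁻¹ • (x k).P = (x n).P → cnt (x k).P (s • (x n).π) = 1) ∧
      (s⁻¹ • (x k).P ≠ (x n).P → cnt (x k).P (s • (x n).π) = 0)) := by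
    intro n s
    have h1 : cnt (x k).P (s • (x n).π) = cnt (s⁻¹ • (x k).P) (x n).π := by
      have h2 := cnt_smul (s : K ≃ₐ[ℚ] K) (s⁻¹ • (x k).P) (x n).π
      have h3 : (s : K ≃ₐ[ℚ] K) • (s⁻¹ • (x k).P) = (x k).P := by
        change s • s⁻¹ • (x k).P = (x k).P
        rw [smul_inv_smul]
      rw [h3] at h2
      exact h2
    rw [h1]
    have hprime : (s⁻¹ • (x k).P).IsPrime := by
      have := (hx k).isPrime
      exact inferInstance
    refine (hx n).cnt_eq (s⁻¹ • (x k).P) hprime ?_ ?_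
    · intro h
      apply hPk
      have h2 := congrArg (fun I => s • I) h
      simp only [smul_inv_smul] at h2
      rw [h2]
      rw [← Ideal.zero_eq_bot, smul_zero]
    · intro h
      apply hDk
      have h2 : s • (D : 𝓞 K) ∈ s • (s⁻¹ • (x k).P) := Ideal.smul_mem_pointwise_smul _ _ _ h
      rw [smul_inv_smul] at h2
      have h3 : s • (D : 𝓞 K) = (D : 𝓞 K) :=
        map_intCast (MulSemiringAction.toRingHom G (𝓞 K) s) D
      rwa [h3] at h2
  have hkey : ∀ n, ∀ s : G, s⁻¹ • (x k).P = (x n).P → n = k := by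
    intro n s h
    apply hdist
    refine prime_eq (hx n).prime (hx k).prime (x n).P (hx n).isPrime (hx n).mem ?_
    rw [← h]
    have h2 : s⁻¹ • ((x k).p : 𝓞 K) ∈ s⁻¹ • (x k).P :=
      Ideal.smul_mem_pointwise_smul _ _ _ (hx k).mem
    have h3 : s⁻¹ • ((x k).p : 𝓞 K) = ((x k).p : 𝓞 K) :=
      map_natCast (MulSemiringAction.toRingHom G (𝓞 K) s⁻¹) (x k).p
    rwa [h3] at h2
  rw [Finset.sum_eq_single k]
  · obtain ⟨s₀, hs₀, hs₀'⟩ := one_rep (σ k)
    have hst : ∀ s : G, s⁻¹ • (x k).P = (x k).P ↔ s ∈ Subgroup.zpowers (σ k) := by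
      intro s
      have h1 : (s : K ≃ₐ[ℚ] K) ∈ MulAction.stabilizer (K ≃ₐ[ℚ] K) (x k).P ↔
          (s : K ≃ₐ[ℚ] K) ∈ Subgroup.zpowers ((σ k : G) : K ≃ₐ[ℚ] K) := by
        rw [(hx k).stab]
      rw [inv_smul_eq_iff, eq_comm]
      have h2 : (s • (x k).P = (x k).P) ↔
          (s : K ≃ₐ[ℚ] K) ∈ MulAction.stabilizer (K ≃ₐ[ℚ] K) (x k).P := Iff.rfl
      rw [h2, h1, Subgroup.mem_zpowers_iff, Subgroup.mem_zpowers_iff]
      constructor
      · rintro ⟨i, hi⟩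
        exact ⟨i, Subtype.ext (by rw [← hi]; simp)⟩
      · rintro ⟨i, hi⟩
        exact ⟨i, by rw [← hi]; simp⟩
    rw [Finset.sum_eq_single s₀]
    · exact (key k s₀).1 ((hst s₀).2 hs₀')
    · intro s hs hss
      refine (key k s).2 fun h => hss ?_
      rw [hst] at h
      refine rep_inj (σ k) hs hs₀ ?_
      exact Subgroup.mul_mem _ (Subgroup.inv_mem _ h) hs₀'
    · intro h
      exact absurd hs₀ h
  · intro n _ hn
    refine Finset.sum_eq_zero fun s _ => (key n s).2 fun h => hn (hkey n s h)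
  · intro h
    exact absurd (Finset.mem_univ k) h

/-- The symbol of a product of conjugates. -/
noncomputable def chi {K : Type} [Field K] [NumberField K] {G : Subgroup (K ≃ₐ[ℚ] K)}
    {Ω : SubMulAction G (𝓞 K)} (z z' : PD K) (σ σ' : G) (α θ : Ω) : ℤˣ :=
  sym z.P (∏ s ∈ repsTo σ' α (orb σ θ), s • z'.π)

/-- The known part of the conditions. -/
noncomputable def eff {K : Type} [Field K] [NumberField K] {G : Subgroup (K ≃ₐ[ℚ] K)}
    {Ω : SubMulAction G (𝓞 K)} [Fintype Ω] (z : PD K) (σ : G) (θ : Ω) (v : Ω → 𝓞 K) (α : Ω) :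
    ℤˣ :=
  sym z.P (∏ θ' ∈ orbF σ θ, v θ') * sym z.P (∏ θ' ∈ orbF σ θ, ((α : 𝓞 K) - (θ' : 𝓞 K)))

theorem chi_congr {K : Type} [Field K] [NumberField K] {G : Subgroup (K ≃ₐ[ℚ] K)}
    {Ω : SubMulAction G (𝓞 K)} {z z' z₁ z₁' : PD K} {σ σ' σ₁ σ₁' : G} (h1 : z = z₁)
    (h2 : z' = z₁') (h3 : σ = σ₁) (h4 : σ' = σ₁') (α θ : Ω) :
    chi z z' σ σ' α θ = chi z₁ z₁' σ₁ σ₁' α θ := by
  subst h1 h2 h3 h4
  rfl

theorem eff_congr {K : Type} [Field K] [NumberField K] {G : Subgroup (K ≃ₐ[ℚ] K)}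
    {Ω : SubMulAction G (𝓞 K)} [Fintype Ω] {z z₁ : PD K} {σ σ₁ : G} (h1 : z = z₁)
    (h3 : σ = σ₁) (θ : Ω) (v : Ω → 𝓞 K) (α : Ω) :
    eff z σ θ v α = eff z₁ σ₁ θ v α := by
  subst h1 h3
  rfl

theorem exists_T (K : IntermediateField ℚ Qb) [NumberField K] [IsGalois ℚ K]
    (G : Subgroup (K ≃ₐ[ℚ] K)) (Ω : SubMulAction G (𝓞 K)) [Fintype Ω] [Nonempty Ω]
    (heven : Even (Fintype.card Ω)) (hfix : ∀ θ : Ω, ∃ s : G, s • θ ≠ θ) (B : ℕ) :
    ∃ (T : 𝓞 K) (P : Ideal (𝓞 K)) (p : ℕ), T ≠ 0 ∧ (∀ s : G, s • T = T) ∧ P.IsPrime ∧ p.Prime ∧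
      (p : 𝓞 K) ∈ P ∧ B < p ∧ cnt P T = 1 ∧
      ∀ x y : K, (∀ s ∈ G, s x = x) → ∏ θ : Ω, (x - ((θ : 𝓞 K) : K)) ≠ (T : K) * y ^ 2 := by
  classical
  have hfinG : Finite G := inferInstance
  let _ : Fintype G := Fintype.ofFinite G
  obtain ⟨D, D', U, hD', hDD', hgen, hgcd, hdiff, hU, hUD⟩ := setup K G Ω
  let UU : Finset (𝓞 K) := Finset.image₂ (fun (s : G) (u : 𝓞 K) => s • u) Finset.univ U
  have hUU : Nonempty UU := by
    obtain ⟨θ⟩ := ‹Nonempty Ω›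
    obtain ⟨u, hu, -⟩ := hU θ 1 one_ne_zero (fun s _ => smul_one s) (by
      intro Q _ _ _
      have h1 : cnt Q (1 : 𝓞 K) = 0 := by
        unfold cnt
        rw [Ideal.span_singleton_one, ← Ideal.one_eq_top,
          UniqueFactorizationMonoid.normalizedFactors_one]
        simp
      rw [h1]
      exact ⟨0, rfl⟩)
    exact ⟨⟨(1 : G) • u, Finset.mem_image₂_of_mem (Finset.mem_univ _) hu⟩⟩
  obtain ⟨N, hN, hgame⟩ := game (G := G) (X := Ω) (V := Ω → UU) hfix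
  let M : Type := {σ : G // σ ≠ 1} × (Fin N → G → ℤˣ)
  let R : ℕ → M → M → PD K → PD K → Prop := fun k m mj z z' =>
    ∀ α : Ω, mj.1.1 • α = α → ∀ θ : Ω,
      sym z.P (∏ s ∈ repsTo mj.1.1 α (orb m.1.1 θ), s • z'.π) =
        ∏ s ∈ repsTo mj.1.1 α (orb m.1.1 θ), if h : k < N then mj.2 ⟨k, h⟩ s else 1
  obtain ⟨F, hF1, hF2, hF3, hF4⟩ := exists_tree (M := M) (Z := PD K)
    (fun m z => z.Good D D' (m.1.1 : K ≃ₐ[ℚ] K)) (fun z => z.p) R (by
      intro J _ mv z hgood hdist k m B'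
      exact exists_next K G D D' hD' hDD' hgen (X := Ω) (fun j => (mv j).1.1) z hgood hdist m.1.1
        (fun j s => if h : k < N then (mv j).2 ⟨k, h⟩ s else 1) B') N B
  let T : (Fin N → M) → 𝓞 K := fun x => ∏ n, ∏ s ∈ cosetReps (x n).1.1, s • (F x n).π
  by_contra hcon
  push Not at hcon
  have hsol : ∀ x : Fin N → M, ∃ (c : Fin N → Ω) (u : Ω → 𝓞 K) (β : Fin N → ℤˣ),
      (∀ θ, ∃ v ∈ U, ∃ s : G, u θ = s • v) ∧ (∀ n, (x n).1.1 • c n = c n) ∧
      ∀ (k : Fin N) (θ : Ω), θ ≠ c k →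
        (∏ m with c m ∈ MulAction.orbit G θ,
            sym (F x k).P (∏ s ∈ repsTo (x m).1.1 (c m) (orb (x k).1.1 θ), s • (F x m).π)) =
          β k ^ (orbF (x k).1.1 θ).card *
            (sym (F x k).P (∏ θ' ∈ orbF (x k).1.1 θ, u θ') *
              sym (F x k).P (∏ θ' ∈ orbF (x k).1.1 θ, ((c k : 𝓞 K) - (θ' : 𝓞 K)))) := by
    intro x
    have hgood : ∀ n, (F x n).Good D D' ((x n).1.1 : K ≃ₐ[ℚ] K) := fun n => (hF1 x n).1
    have hdist : ∀ m n, (F x m).p = (F x n).p → m = n := fun m n => hF3 x m n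
    have hT0 : T x ≠ 0 := norm_ne G (fun n => (x n).1.1) (fun n => (F x n).π) fun n =>
      (hgood n).ne
    have hTG : ∀ s : G, s • T x = T x := by
      intro s
      simp only [T]
      rw [Finset.smul_prod']
      refine Finset.prod_congr rfl fun n _ => ?_
      exact norm_fixed G (x n).1.1 _ (hgood n).fixed s
    obtain ⟨x₀, y₀, hx₀, hxy⟩ := hcon (T x) (F x ⟨0, hN⟩).P (F x ⟨0, hN⟩).p hT0 hTG
      (hgood _).isPrime (hgood _).prime (hgood _).mem (hF1 x _).2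
      (norm_cnt K G D D' hDD' (fun n => (x n).1.1) (F x) hgood hdist _)
    obtain ⟨a, b, hb0, ha, hb, hab, hQ⟩ := hgcd x₀ hx₀
    have hbK : ((b : 𝓞 K) : K) ≠ 0 := by
      intro h
      exact hb0 (RingOfIntegers.coe_eq_zero_iff.1 h)
    have hx₀' : x₀ = (a : K) / (b : K) := by rw [← hab]; field_simp
    have hne : ∀ θ : Ω, a - b * (θ : 𝓞 K) ≠ 0 := by
      intro θ h
      have h1 : x₀ = ((θ : 𝓞 K) : K) := by
        have h2 : ((a - b * (θ : 𝓞 K) : 𝓞 K) : K) = 0 := by rw [h]; rfl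
        have h3 : ((a - b * (θ : 𝓞 K) : 𝓞 K) : K) = (a : K) - (b : K) * ((θ : 𝓞 K) : K) := by
          simp
        rw [h3, sub_eq_zero] at h2
        rw [hx₀', h2]
        field_simp
      obtain ⟨s, hs⟩ := hfix θ
      apply hs
      apply Subtype.ext
      apply RingOfIntegers.coe_injective
      have h4 : ((s • (θ : 𝓞 K) : 𝓞 K) : K) = (s : K ≃ₐ[ℚ] K) ((θ : 𝓞 K) : K) := rfl
      change ((s • (θ : 𝓞 K) : 𝓞 K) : K) = ((θ : 𝓞 K) : K)
      rw [h4, ← h1]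
      exact hx₀ s s.2
    obtain ⟨m, hm⟩ := heven
    have hY : ∃ Y : 𝓞 K, T x * ∏ θ : Ω, (a - b * (θ : 𝓞 K)) = Y ^ 2 := by
      have h1 : ((T x * ∏ θ : Ω, (a - b * (θ : 𝓞 K)) : 𝓞 K) : K) =
          (((T x : 𝓞 K) : K) * y₀ * (b : K) ^ m) ^ 2 := by
        have h2 : ((T x * ∏ θ : Ω, (a - b * (θ : 𝓞 K)) : 𝓞 K) : K) =
            ((T x : 𝓞 K) : K) * ∏ θ : Ω, ((a : K) - (b : K) * ((θ : 𝓞 K) : K)) := by
          simp
        have h3 : ∏ θ : Ω, ((a : K) - (b : K) * ((θ : 𝓞 K) : K)) =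
            (b : K) ^ Fintype.card Ω * ∏ θ : Ω, (x₀ - ((θ : 𝓞 K) : K)) := by
          rw [← Finset.card_univ, ← Finset.prod_const, ← Finset.prod_mul_distrib]
          refine Finset.prod_congr rfl fun θ _ => ?_
          rw [hx₀']
          field_simp
        rw [h2, h3, hxy, hm]
        ring
      have h4 : IsIntegral ℤ (((T x : 𝓞 K) : K) * y₀ * (b : K) ^ m) := by
        have h5 : IsIntegral ℤ ((((T x : 𝓞 K) : K) * y₀ * (b : K) ^ m) ^ 2) := by
          rw [← h1]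
          exact RingOfIntegers.isIntegral_coe _
        exact IsIntegral.of_pow two_pos h5
      obtain ⟨Y, hYc⟩ : ∃ Y : 𝓞 K, algebraMap (𝓞 K) K Y = ((T x : 𝓞 K) : K) * y₀ * (b : K) ^ m :=
        ⟨⟨_, h4⟩, rfl⟩
      refine ⟨Y, ?_⟩
      apply RingOfIntegers.coe_injective
      rw [map_pow, hYc]
      exact h1
    obtain ⟨Y, hY⟩ := hY
    exact descent K G Ω D D' hDD' hdiff U hU hUD (fun n => (x n).1.1) (F x) hgood hdist a b
      (fun s => ha s s.2) (fun s => hb s s.2) hQ hne Y hY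
  choose c u β hu hc hcons using hsol
  have hv : ∀ x θ, u x θ ∈ UU := by
    intro x θ
    obtain ⟨v, hv, s, hs⟩ := hu x θ
    rw [hs]
    exact Finset.mem_image₂_of_mem (Finset.mem_univ _) hv
  refine hgame c (fun x θ => ⟨u x θ, hv x θ⟩) β
    (fun k m α θ x => chi (F x k) (F x m) (x k).1.1 (x m).1.1 α θ)
    (fun k θ v α x => eff (F x k) (x k).1.1 θ (fun θ' => (v θ' : 𝓞 K)) α) ?_ ?_ ?_ ?_ ?_
  · exact hc
  · intro k m α θ x hkm hα
    have h := hF4 x k m hkm α hα θ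
    refine h.trans (Finset.prod_congr rfl fun s _ => ?_)
    rw [dif_pos k.2]
  · intro k m α θ x y hmk hxy
    have e1 : F x k = F y k := hF2 x y k hxy
    have e2 : F x m = F y m := hF2 x y m fun j hj => hxy j (hj.trans hmk)
    have e3 : (x k).1.1 = (y k).1.1 := by rw [hxy k le_rfl]
    have e4 : (x m).1.1 = (y m).1.1 := by rw [hxy m hmk]
    exact chi_congr e1 e2 e3 e4 α θ
  · intro k θ v α x y hxy
    have e1 : F x k = F y k := hF2 x y k hxy
    have e3 : (x k).1.1 = (y k).1.1 := by rw [hxy k le_rfl]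
    exact eff_congr e1 e3 θ _ α
  · intro x k θ hne
    refine Eq.trans ?_ (hcons x k θ hne)
    congr!

end Pool.TP2.Core
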