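import Mathlib

/-!
Definitions for project TP2: quadratic twist pencils of hyperelliptic curves over number fields.
-/

open NumberField
open scoped Pointwise BigOperators

namespace Pool.TP2

/-- An algebraic closure of the rationals. -/
abbrev Qb : Type := AlgebraicClosure ℚ

section

variable {K : Type} [Field K] [NumberField K]

open Classical in
/-- The multiplicity of a prime ideal in the factorisation of an algebraic integer. -/
noncomputable def cnt (Q : Ideal (𝓞 K)) (w : 𝓞 K) : ℕ :=
  (UniqueFactorizationMonoid.normalizedFactors (Ideal.span {w})).count Q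

open Classical in
/-- Quadratic symbol at a prime ideal for elements congruent to rational integers. -/
noncomputable def sym (P : Ideal (𝓞 K)) (y : 𝓞 K) : ℤˣ :=
  if ∃ n : ℤ, y - (n : 𝓞 K) ^ 2 ∈ P then 1 else -1

end

section

variable {G X : Type} [Group G] [MulAction G X]

/-- The orbit of `θ` under the cyclic group generated by `σ`. -/
def orb (σ : G) (θ : X) : Set X := {θ' | ∃ i : ℤ, θ' = σ ^ i • θ}

open Classical in
/-- The orbit of `θ` under the cyclic group generated by `σ`, as a finset. -/
noncomputable def orbF [Fintype X] (σ : G) (θ : X) : Finset X :=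
  Finset.univ.filter fun θ' => θ' ∈ orb σ θ

/-- Representatives of the left cosets of the cyclic group generated by `σ`. -/
noncomputable def cosetReps [Finite G] (σ : G) : Finset G :=
  (Set.toFinite (Set.range fun q : G ⧸ Subgroup.zpowers σ => Quotient.out q)).toFinset

open Classical in
/-- The coset representatives which map `α` into `S`. -/
noncomputable def repsTo [Finite G] (σ : G) (α : X) (S : Set X) : Finset G :=
  (cosetReps σ).filter fun s => s • α ∈ S

end

/-- A rational prime, a prime ideal and an algebraic integer. -/
structure PD (K : Type) [Field K] [NumberField K] where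
  /-- the rational prime -/
  p : ℕ
  /-- the prime ideal -/
  P : Ideal (𝓞 K)
  /-- the algebraic integer -/
  π : 𝓞 K

/-- The prime ideal lies above the rational prime, does not contain `D'`, has decomposition group
generated by `σ`, and the integer is fixed by `σ` and generates the prime ideal up to prime ideals
which contain `D`. -/
structure PD.Good {K : Type} [Field K] [NumberField K] (D D' : ℤ) (σ : K ≃ₐ[ℚ] K)
    (x : PD K) : Prop where
  prime : x.p.Prime
  isPrime : x.P.IsPrime
  mem : (x.p : 𝓞 K) ∈ x.P
  notMem : (D' : 𝓞 K) ∉ x.P
  stab : MulAction.stabilizer (K ≃ₐ[ℚ] K) x.P = Subgroup.zpowers σ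
  ne : x.π ≠ 0
  fixed : σ • x.π = x.π
  cnt_eq : ∀ Q : Ideal (𝓞 K), Q.IsPrime → Q ≠ ⊥ → (D : 𝓞 K) ∉ Q →
    (Q = x.P → cnt Q x.π = 1) ∧ (Q ≠ x.P → cnt Q x.π = 0)

/-- A play of `N` rounds: in round `m` an element of `T` and an element of `Y` for every round. -/
abbrev Play (T Y : Type) (N : ℕ) : Type := Fin N → T × (Fin N → Y)

end Pool.TP2
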