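import Pool.Agent.TP2.Core
import Pool.Agent.TP.Step

/-!
# Quadratic twists of hyperelliptic curves over number fields without rational points
-/

open NumberField Polynomial Pool.TP2.Core
open scoped Pointwise BigOperators

namespace Pool.TP2.Final

theorem exists_field (F : Type) [Field F] [NumberField F] (P : F[X]) :
    ∃ (K : IntermediateField ℚ Qb) (_ : NumberField K) (_ : IsGalois ℚ K) (j : F →+* K),
      (P.map j).Splits ∧
      ∀ x : K, (∀ s : K ≃ₐ[ℚ] K, (∀ f, s (j f) = j f) → s x = x) → ∃ f, j f = x := by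
  classical
  let i : F →ₐ[ℚ] Qb := IsAlgClosed.lift
  let K₀ : IntermediateField ℚ Qb := i.fieldRange ⊔
    IntermediateField.adjoin ℚ ((P.map (i : F →+* Qb)).rootSet Qb)
  have hf1 : FiniteDimensional ℚ i.fieldRange :=
    LinearEquiv.finiteDimensional (AlgEquiv.ofInjectiveField i).toLinearEquiv
  have hf2 : FiniteDimensional ℚ
      (IntermediateField.adjoin ℚ ((P.map (i : F →+* Qb)).rootSet Qb)) := by
    have hfin : Finite ((P.map (i : F →+* Qb)).rootSet Qb) := (rootSet_finite _ _).to_subtype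
    apply IntermediateField.finiteDimensional_adjoin
    intro x _
    exact Algebra.IsIntegral.isIntegral x
  have hf3 : FiniteDimensional ℚ K₀ := IntermediateField.finiteDimensional_sup _ _
  let K : IntermediateField ℚ Qb := IntermediateField.normalClosure ℚ K₀ Qb
  have hK₀ : K₀ ≤ K := IntermediateField.le_normalClosure K₀
  have hnorm : Normal ℚ K := normalClosure.normal ℚ K₀ Qb
  have hfd : FiniteDimensional ℚ K := normalClosure.is_finiteDimensional ℚ K₀ Qb
  have hnf : NumberField K := ⟨⟩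
  have hgal : IsGalois ℚ K := ⟨⟩
  have hiK : i.fieldRange ≤ K := le_sup_left.trans hK₀
  have hi : ∀ f, i f ∈ K := fun f => hiK ⟨f, rfl⟩
  let j : F →+* K := (i : F →+* Qb).codRestrict K.toSubring hi
  have hj : ∀ f, ((j f : K) : Qb) = i f := fun f => rfl
  refine ⟨K, hnf, hgal, j, ?_, ?_⟩
  · by_cases hP : P = 0
    · rw [hP, Polynomial.map_zero]
      exact Splits.zero
    have h1 : (P.map j).map (algebraMap K Qb) = P.map (i : F →+* Qb) := by
      rw [Polynomial.map_map]
      congr 1
    refine Splits.of_splits_map (algebraMap K Qb) (IsAlgClosed.splits _) ?_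
    intro x hx
    rw [h1] at hx
    have h2 : x ∈ (P.map (i : F →+* Qb)).rootSet Qb := by
      rw [mem_rootSet]
      rw [mem_roots'] at hx
      refine ⟨hx.1, ?_⟩
      rw [coe_aeval_eq_eval]
      exact hx.2
    have h3 : x ∈ K := hK₀ (le_sup_right (a := i.fieldRange) (IntermediateField.subset_adjoin _ _ h2))
    exact ⟨⟨x, h3⟩, rfl⟩
  · intro x hx
    have h1 : x ∈ IntermediateField.restrict hiK := by
      rw [← IsGalois.fixedField_fixingSubgroup (IntermediateField.restrict hiK),
        IntermediateField.mem_fixedField_iff]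
      intro s hs
      refine hx s fun f => ?_
      rw [IntermediateField.mem_fixingSubgroup_iff] at hs
      apply hs
      rw [IntermediateField.mem_restrict]
      exact ⟨f, rfl⟩
    rw [IntermediateField.mem_restrict] at h1
    obtain ⟨f, hf⟩ := h1
    exact ⟨f, Subtype.ext hf⟩

/-- A bound for the primes below the prime divisors of the elements of a finite set. -/
theorem exists_bound {K : Type} [Field K] [NumberField K] (E : Finset (𝓞 K)) :
    ∃ B : ℕ, ∀ e ∈ E, e ≠ 0 → ∀ (P : Ideal (𝓞 K)) (p : ℕ), P.IsPrime → p.Prime →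
      (p : 𝓞 K) ∈ P → B < p → e ∉ P := by
  classical
  have hn : ∀ e : 𝓞 K, ∃ n : ℤ, e ≠ 0 → (n ≠ 0 ∧ ∀ Q : Ideal (𝓞 K), e ∈ Q → (n : 𝓞 K) ∈ Q) := by
    intro e
    by_cases he : e = 0
    · exact ⟨0, fun h => absurd he h⟩
    · obtain ⟨n, hn, h⟩ := norm_mem e he
      refine ⟨n, fun _ => ⟨hn, fun Q hQ => h 1 Q ?_⟩⟩
      rw [one_smul]
      exact hQ
  choose n hn using hn
  refine ⟨E.sup fun e => (n e).natAbs, fun e he he0 P p hP hp hpP hB heP => ?_⟩
  have h1 := dvd_of_mem hp P hP hpP _ ((hn e he0).2 P heP)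
  have h2 : p ≤ (n e).natAbs := Nat.le_of_dvd (Int.natAbs_pos.2 (hn e he0).1)
    (Int.natCast_dvd.1 h1)
  have h3 : (n e).natAbs ≤ E.sup fun e => (n e).natAbs :=
    Finset.le_sup (f := fun e => (n e).natAbs) he
  omega

/-- A common denominator. -/
theorem exists_denominator {K : Type} [Field K] [NumberField K] (R : Finset K) :
    ∃ d : ℤ, d ≠ 0 ∧ ∀ x ∈ R, IsIntegral ℤ ((d : K) * x) := by
  classical
  have h : ∀ x : K, ∃ d : ℤ, d ≠ 0 ∧ IsIntegral ℤ ((d : K) * x) := by
    intro x
    have hx : IsAlgebraic ℤ x := by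
      have h1 : IsAlgebraic ℚ x := Algebra.IsAlgebraic.isAlgebraic x
      exact (IsFractionRing.isAlgebraic_iff ℤ ℚ K).2 h1
    obtain ⟨d, hd, hdx⟩ := hx.exists_integral_multiple
    refine ⟨d, hd, ?_⟩
    rwa [zsmul_eq_mul] at hdx
  choose d hd hdx using h
  refine ⟨∏ x ∈ R, d x, Finset.prod_ne_zero_iff.2 fun x _ => hd x, fun x hx => ?_⟩
  obtain ⟨c, hc⟩ := Finset.dvd_prod_of_mem d hx
  rw [hc]
  push_cast
  have : (d x : K) * (c : K) * x = (c : K) * ((d x : K) * x) := by ring
  rw [this]
  exact (isIntegral_algebraMap (R := ℤ) (A := K) (x := c)).mul (hdx x)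

/-- Squares have even multiplicities. -/
theorem cnt_sq {K : Type} [Field K] [NumberField K] (P : Ideal (𝓞 K)) (T : 𝓞 K) (hT : T ≠ 0)
    (y : K) (h : (T : K) = y ^ 2) : Even (cnt P T) := by
  have h1 : IsIntegral ℤ (y ^ 2) := by
    rw [← h]
    exact RingOfIntegers.isIntegral_coe _
  have h2 : IsIntegral ℤ y := IsIntegral.of_pow two_pos h1
  obtain ⟨Y, hY⟩ : ∃ Y : 𝓞 K, algebraMap (𝓞 K) K Y = y := ⟨⟨y, h2⟩, rfl⟩
  have h3 : T = Y * Y := by
    apply RingOfIntegers.coe_injective
    rw [map_mul, hY, ← sq]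
    exact h
  have hY0 : Y ≠ 0 := by
    rintro rfl
    rw [mul_zero] at h3
    exact hT h3
  rw [h3, cnt_mul P hY0 hY0]
  exact ⟨_, rfl⟩

/-- An integral element as an element of the ring of integers. -/
noncomputable def mkO {K : Type} [Field K] (x : K) (h : IsIntegral ℤ x) : 𝓞 K := ⟨x, h⟩

theorem coe_mkO {K : Type} [Field K] (x : K) (h : IsIntegral ℤ x) : ((mkO x h : 𝓞 K) : K) = x :=
  rfl

theorem form_eq {F : Type} [Field F] (P : F[X]) (d : ℕ) (hd : P.natDegree ≤ d) (x z : F)
    (hz : z ≠ 0) :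
    ∑ i ∈ Finset.range (d + 1), P.coeff i * x ^ i * z ^ (d - i) = z ^ d * P.eval (x / z) := by
  rw [eval_eq_sum_range' (n := d + 1) (by omega), Finset.mul_sum]
  refine Finset.sum_congr rfl fun i hi => ?_
  have hi' : i ≤ d := by
    have := Finset.mem_range.1 hi
    omega
  have h1 : z ^ d = z ^ i * z ^ (d - i) := by
    rw [← pow_add]
    congr 1
    omega
  rw [h1, div_pow]
  field_simp

theorem form_zero {F : Type} [Field F] (P : F[X]) (d : ℕ) (x : F) :
    ∑ i ∈ Finset.range (d + 1), P.coeff i * x ^ i * 0 ^ (d - i) = P.coeff d * x ^ d := by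
  rw [Finset.sum_range_succ, Nat.sub_self, pow_zero, mul_one]
  rw [Finset.sum_eq_zero, zero_add]
  intro i hi
  have hi' : d - i ≠ 0 := by
    have := Finset.mem_range.1 hi
    omega
  rw [zero_pow hi', mul_zero]

theorem main (F : Type) [Field F] [NumberField F] (P : F[X]) (hsep : P.Separable) (m : ℕ)
    (hdeg : P.natDegree = 2 * m) (hm : 0 < m) (hroot : ∀ x : F, P.eval x ≠ 0) (E : Finset F) :
    ∃ t : F, t ≠ 0 ∧ t ∉ E ∧ ∀ x y z : F, (x ≠ 0 ∨ z ≠ 0) →
      t * y ^ 2 ≠ ∑ i ∈ Finset.range (2 * m + 1), P.coeff i * x ^ i * z ^ (2 * m - i) := by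
  classical
  obtain ⟨K, hnf, hgal, j, hspl, hfixF⟩ := exists_field F P
  have hP0 : P ≠ 0 := by
    rintro rfl
    rw [natDegree_zero] at hdeg
    omega
  let Pk : K[X] := P.map j
  have hPk0 : Pk ≠ 0 := map_ne_zero hP0
  have hPkd : Pk.natDegree = 2 * m := by rw [natDegree_map, hdeg]
  have hPksep : Pk.Separable := hsep.map
  have hPkl : Pk.leadingCoeff = j P.leadingCoeff := leadingCoeff_map j
  let c : F := P.leadingCoeff
  have hc : c ≠ 0 := leadingCoeff_ne_zero.2 hP0
  let R : Finset K := Pk.roots.toFinset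
  have hRval : R.val = Pk.roots := by
    rw [Multiset.toFinset_val, Multiset.dedup_eq_self]
    exact nodup_roots hPksep
  have hRcard : R.card = 2 * m := by
    rw [← hPkd, hspl.natDegree_eq_card_roots, ← hRval]
    rfl
  have heval : ∀ x : K, Pk.eval x = j c * ∏ θ ∈ R, (x - θ) := by
    intro x
    rw [hspl.eval_eq_prod_roots x, hPkl]
    congr 1
    rw [Finset.prod_eq_multiset_prod, hRval]
  have hmemR : ∀ x : K, x ∈ R ↔ Pk.eval x = 0 := by
    intro x
    rw [Multiset.mem_toFinset, mem_roots hPk0, IsRoot.def]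
  obtain ⟨d, hd, hdint⟩ := exists_denominator R
  have hdK : (d : K) ≠ 0 := by exact_mod_cast hd
  let G : Subgroup (K ≃ₐ[ℚ] K) :=
    { carrier := {s | ∀ f, s (j f) = j f}
      mul_mem' := by
        intro s t hs ht f
        rw [AlgEquiv.mul_apply, ht f, hs f]
      one_mem' := fun f => rfl
      inv_mem' := by
        intro s hs f
        apply s.injective
        have h1 : s ((s⁻¹ : K ≃ₐ[ℚ] K) (j f)) = j f := s.apply_symm_apply (j f)
        rw [h1, hs f] }
  have hGR : ∀ s ∈ G, ∀ x, Pk.eval (s x) = s (Pk.eval x) := by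
    intro s hs x
    have h1 : Pk.map (s : K →+* K) = Pk := by
      simp only [Pk]
      rw [Polynomial.map_map]
      congr 1
      ext f
      exact congrArg _ (hs f)
    conv_lhs => rw [← h1]
    exact eval_map_apply (s : K →+* K) x
  let Ω : SubMulAction G (𝓞 K) :=
    { carrier := {w | Pk.eval ((w : K) / d) = 0}
      smul_mem' := by
        intro s w hw
        have h1 : ((s • w : 𝓞 K) : K) / d = (s : K ≃ₐ[ℚ] K) ((w : K) / d) := by
          rw [map_div₀, map_intCast]
          rfl
        change Pk.eval (((s • w : 𝓞 K) : K) / d) = 0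
        rw [h1, hGR s s.2, hw, map_zero] }
  have hΩ : ∀ w : 𝓞 K, w ∈ Ω ↔ Pk.eval ((w : K) / d) = 0 := fun w => Iff.rfl
  let e : R ≃ Ω :=
    { toFun := fun θ => ⟨mkO ((d : K) * θ.1) (hdint θ.1 θ.2), by
        rw [hΩ, coe_mkO, mul_div_cancel_left₀ _ hdK]
        exact (hmemR _).1 θ.2⟩
      invFun := fun w => ⟨((w : 𝓞 K) : K) / d, (hmemR _).2 w.2⟩
      left_inv := by
        intro θ
        apply Subtype.ext
        change ((mkO ((d : K) * θ.1) (hdint θ.1 θ.2) : 𝓞 K) : K) / d = θ.1
        rw [coe_mkO, mul_div_cancel_left₀ _ hdK]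
      right_inv := by
        intro w
        apply Subtype.ext
        apply RingOfIntegers.coe_injective
        refine (coe_mkO _ _).trans ?_
        rw [mul_div_cancel₀ _ hdK] }
  let _ : Fintype Ω := Fintype.ofEquiv R e
  have hcard : Fintype.card Ω = 2 * m := by
    rw [← Fintype.card_congr e, Fintype.card_coe, hRcard]
  have hne : Nonempty Ω := by
    rw [← Fintype.card_pos_iff, hcard]
    omega
  have hfix : ∀ θ : Ω, ∃ s : G, s • θ ≠ θ := by
    intro θ
    by_contra hcon
    push Not at hcon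
    obtain ⟨f, hf⟩ := hfixF (((θ : 𝓞 K) : K) / d) (by
      intro s hs
      have h1 := hcon ⟨s, hs⟩
      have h2 := congrArg (fun w : Ω => ((w : 𝓞 K) : K)) h1
      change s ((θ : 𝓞 K) : K) = ((θ : 𝓞 K) : K) at h2
      rw [map_div₀, map_intCast, h2])
    apply hroot f
    apply j.injective
    have h3 := (hΩ θ.1).1 θ.2
    rw [← hf] at h3
    rw [map_zero, ← h3]
    exact (eval_map_apply j f).symm
  have hprod : ∀ x : K, ∏ θ : Ω, ((d : K) * x - ((θ : 𝓞 K) : K)) =
      (d : K) ^ (2 * m) * ∏ θ ∈ R, (x - θ) := by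
    intro x
    rw [← hRcard, ← Finset.prod_const, ← Finset.prod_mul_distrib, ← Finset.prod_coe_sort R]
    symm
    refine Fintype.prod_equiv e _ _ fun θ => ?_
    change (d : K) * (x - θ.1) = (d : K) * x - (d : K) * θ.1
    ring
  -- the elements to avoid
  let E' : Finset (𝓞 K) := E.image fun t => if h : IsIntegral ℤ (j (t / c)) then
    mkO (j (t / c)) h else 0
  obtain ⟨B, hB⟩ := exists_bound E'
  obtain ⟨T, Q, p, hT0, hTG, hQ, hp, hpQ, hBp, hcnt, hno⟩ :=
    exists_T K G Ω (by rw [hcard]; exact even_two_mul m) hfix B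
  obtain ⟨f, hf⟩ := hfixF (T : K) (by
    intro s hs
    have h1 := hTG ⟨s, hs⟩
    exact congrArg (fun w : 𝓞 K => (w : K)) h1)
  have hTK : ((T : 𝓞 K) : K) ≠ 0 := fun h => hT0 (RingOfIntegers.coe_eq_zero_iff.1 h)
  have hf0 : f ≠ 0 := by
    rintro rfl
    rw [map_zero] at hf
    exact hTK hf.symm
  refine ⟨c * f, mul_ne_zero hc hf0, ?_, ?_⟩
  · intro hE
    have h1 : j (c * f / c) = T := by
      rw [mul_div_cancel_left₀ _ hc, hf]
    have h2 : T ∈ E' := by
      refine Finset.mem_image.2 ⟨c * f, hE, ?_⟩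
      have h3 : IsIntegral ℤ (j (c * f / c)) := by
        rw [h1]
        exact RingOfIntegers.isIntegral_coe _
      rw [dif_pos h3]
      apply RingOfIntegers.coe_injective
      exact (coe_mkO _ _).trans h1
    refine hB T h2 hT0 Q p hQ hp hpQ hBp ?_
    rw [← cnt_pos_iff Q hQ _ hT0, hcnt]
    · exact one_pos
    · rintro rfl
      rw [Ideal.mem_bot] at hpQ
      exact hp.ne_zero (by exact_mod_cast hpQ)
  · intro x y z hxz h
    by_cases hz : z = 0
    · subst hz
      have hx : x ≠ 0 := by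
        rcases hxz with h1 | h1
        · exact h1
        · exact absurd rfl h1
      rw [form_zero, ← hdeg] at h
      change _ = c * _ at h
      rw [hdeg] at h
      have h1 : f * y ^ 2 = x ^ (2 * m) := by
        apply mul_left_cancel₀ hc
        rw [← h]
        ring
      have hy : y ≠ 0 := by
        rintro rfl
        rw [zero_pow two_ne_zero, mul_zero] at h1
        exact pow_ne_zero _ hx h1.symm
      have h2 : f = (x ^ m / y) ^ 2 := by
        rw [div_pow, eq_div_iff (pow_ne_zero 2 hy), h1]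
        ring
      have h3 := cnt_sq Q T hT0 (j (x ^ m / y)) (by rw [← hf, h2, map_pow])
      rw [hcnt] at h3
      exact Nat.not_even_one h3
    · rw [form_eq P (2 * m) hdeg.le x z hz] at h
      have hzm : z ^ m ≠ 0 := pow_ne_zero _ hz
      apply hno ((d : K) * j (x / z)) ((d : K) ^ m * j (y / z ^ m))
      · intro s hs
        rw [map_mul, map_intCast, hs]
      · rw [hprod]
        have h1 := heval (j (x / z))
        have h2 : Pk.eval (j (x / z)) = j (P.eval (x / z)) := eval_map_apply j (x / z)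
        have h3 : P.eval (x / z) = c * f * (y / z ^ m) ^ 2 := by
          have h4 : z ^ (2 * m) = (z ^ m) ^ 2 := by ring
          rw [h4] at h
          field_simp
          rw [mul_comm, ← h]
        rw [h2, h3, map_mul, map_mul, hf, map_pow] at h1
        have h5 : (T : K) * j (y / z ^ m) ^ 2 = ∏ θ ∈ R, (j (x / z) - θ) := by
          have hjc : j c ≠ 0 := (map_ne_zero j).2 hc
          apply mul_left_cancel₀ hjc
          rw [← h1]
          ring
        rw [← h5]
        ring

end Pool.TP2.Final
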